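import Pool.Agent.Run7.h38.KS.Br5
import Pool.Agent.N996.BP.Core

/-!
# Families containing the generating arrays contain all Hodge classes
-/

set_option linter.unusedSectionVars false

namespace Run7.h38.KS

open Matrix ComplexConjugate Pool.Agent.N996.BP Pool.Agent.N996.FP

section Fam

variable {ι : Type} [Fintype ι] [DecidableEq ι] {H : HData ι}
  {F : ∀ n : ℕ, Submodule ℚ ((Fin (n + 1) → ι) → ℚ)}

lemma uniQ' (hA : RFam H F) (hu : uni ℚ H.D.o Unit ∈ AQ F Unit)
    (κ : Type) [Fintype κ] [DecidableEq κ] : uni ℚ H.D.o κ ∈ AQ F κ := by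
  refine fin_ind (P := fun κ _ _ => uni ℚ H.D.o κ ∈ AQ F κ) ?_ ?_ ?_ κ
  · intro κ l _ _ _ _ e ih
    have h1 := hA.rei e ih
    convert h1 using 1
    ext i
    rw [uni, rei, uni]
    exact (Equiv.prod_comp e fun k => if i k = H.D.o then (1 : ℚ) else 0).symm
  · exact hA.empty _
  · intro κ _ _ ih
    have h3 := hA.tensQ ih hu
    convert h3 using 1
    ext i
    rw [uni, Fintype.prod_sum_type]
    rfl

lemma invQ' (hA : RFam H F) (hi : arr (kp Unit H.Qir) ∈ AQ F (Unit ⊕ Unit))
    (κ : Type) [Fintype κ] [DecidableEq κ] : arr (kp κ H.Qir) ∈ AQ F (κ ⊕ κ) := by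
  refine fin_ind (P := fun κ _ _ => arr (kp κ H.Qir) ∈ AQ F (κ ⊕ κ)) ?_ ?_ ?_ κ
  · intro κ l _ _ _ _ e ih
    have h1 := hA.rei (Equiv.sumCongr e e) ih
    convert h1 using 1
    ext i
    rw [arr, rei, arr, ← kp_reindex e]
    rfl
  · exact hA.empty _
  · intro κ _ _ ih
    let e : (κ ⊕ κ) ⊕ (Unit ⊕ Unit) ≃ (κ ⊕ Unit) ⊕ (κ ⊕ Unit) :=
      { toFun := Sum.elim (Sum.elim (fun k => Sum.inl (Sum.inl k)) fun k => Sum.inr (Sum.inl k))
          (Sum.elim (fun k => Sum.inl (Sum.inr k)) fun k => Sum.inr (Sum.inr k))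
        invFun := Sum.elim (Sum.elim (fun k => Sum.inl (Sum.inl k)) fun k => Sum.inr (Sum.inl k))
          (Sum.elim (fun k => Sum.inl (Sum.inr k)) fun k => Sum.inr (Sum.inr k))
        left_inv := by rintro ((k | k) | (k | k)) <;> rfl
        right_inv := by rintro ((k | k) | (k | k)) <;> rfl }
    have h3 := hA.rei e (hA.tensQ ih hi)
    convert h3 using 1
    ext i
    obtain ⟨i₁, i₂, rfl⟩ : ∃ i₁ i₂, i = Sum.elim i₁ i₂ := ⟨i ∘ Sum.inl, i ∘ Sum.inr, by simp⟩
    rw [arr_elim]
    have h4 : i₁ = Sum.elim (i₁ ∘ Sum.inl) (i₁ ∘ Sum.inr) := by simp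
    have h5 : i₂ = Sum.elim (i₂ ∘ Sum.inl) (i₂ ∘ Sum.inr) := by simp
    conv_lhs => rw [h4, h5]
    rw [kp_sum]
    rfl

/-- The real span is a family. -/
lemma isFam' (hA : RFam H F) (hu : uni ℚ H.D.o Unit ∈ AQ F Unit)
    (hi : arr (kp Unit H.Qir) ∈ AQ F (Unit ⊕ Unit)) :
    IsFam H.D (fun κ _ => AR F κ) where
  reiM κ l _ _ e a ha := by
    refine AR_ind (P := fun a => rei e a ∈ AR F l) ?_ ?_ ha
    · intro a ha c
      exact Submodule.smul_mem _ c (AR_of (hA.rei e ha))
    · intro x y hx hy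
      exact Submodule.add_mem _ hx hy
  tensM κ l _ _ a b ha hb := by
    refine AR_ind (P := fun a => tens a b ∈ AR F (κ ⊕ l)) ?_ ?_ ha
    · intro a ha c
      refine AR_ind (P := fun b => tens (c • fun i => (a i : ℝ)) b ∈ AR F (κ ⊕ l)) ?_ ?_ hb
      · intro b hb d
        have h1 : tens (c • fun i => (a i : ℝ)) (d • fun i => (b i : ℝ)) =
            (c * d) • fun i => ((tens a b) i : ℝ) := by
          ext i
          simp only [tens, Pi.smul_apply, smul_eq_mul, Rat.cast_mul]
          ring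
        rw [h1]
        exact Submodule.smul_mem _ _ (AR_of (hA.tensQ ha hb))
      · intro x y hx hy
        have h1 : tens (c • fun i => (a i : ℝ)) (x + y) =
            tens (c • fun i => (a i : ℝ)) x + tens (c • fun i => (a i : ℝ)) y := by
          ext i
          simp only [tens, Pi.add_apply]
          ring
        rw [h1]
        exact Submodule.add_mem _ hx hy
    · intro x y hx hy
      have h1 : tens (x + y) b = tens x b + tens y b := by
        ext i
        simp only [tens, Pi.add_apply]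
        ring
      rw [h1]
      exact Submodule.add_mem _ hx hy
  contrM κ l _ _ _ _ a ha := by
    refine AR_ind (P := fun a => contr H.D.Q a ∈ AR F κ) ?_ ?_ ha
    · intro a ha c
      rw [RFam.contr_cast]
      exact Submodule.smul_mem _ _ (AR_of (hA.contrQ ha))
    · intro x y hx hy
      have h1 : contr H.D.Q (x + y) = contr H.D.Q x + contr H.D.Q y := by
        ext i
        simp only [contr, Pi.add_apply, mul_add, Finset.sum_add_distrib]
      rw [h1]
      exact Submodule.add_mem _ hx hy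
  fix κ _ _ a ha := by
    refine AR_ind (P := fun a => kp κ H.D.C *ᵥ a = a) ?_ ?_ ha
    · intro a ha c
      rw [Matrix.mulVec_smul]
      congr 1
      have h1 := hA.leQ ha Complex.I Complex.I_ne_zero
      rw [← cR_C, kp_cR] at h1
      ext i
      have h2 := congrFun h1 i
      rw [Matrix.mulVec, dotProduct] at h2 ⊢
      have h3 : ((∑ j, kp κ H.D.C i j * (a j : ℝ) : ℝ) : ℂ) = (((a i : ℝ)) : ℂ) := by
        push_cast
        exact h2
      exact_mod_cast h3
    · intro x y hx hy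
      rw [Matrix.mulVec_add, hx, hy]
  invM κ _ _ := by
    have h1 := AR_of (invQ' hA hi κ)
    convert h1 using 1
    ext i
    rw [arr, arr, kp_apply, kp_apply, Rat.cast_prod, H.hQir]
    rfl
  uniM κ _ := by
    classical
    have h1 := AR_of (uniQ' hA hu κ)
    convert h1 using 1
    ext i
    rw [uni, uni, Rat.cast_prod]
    refine Finset.prod_congr rfl fun k _ => ?_
    split_ifs <;> simp

end Fam

variable {s m n : Type} [Fintype s] [DecidableEq s] [Fintype m] [DecidableEq m] [Fintype n]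
    [DecidableEq n]

/-- **The core theorem.** A family of Hodge classes containing the generating arrays contains all
Hodge classes. -/
theorem coreKS [Nonempty n] {A : HK s m n} {F : ∀ k : ℕ, Submodule ℚ ((Fin (k + 1) → _) → ℚ)}
    (hA : RFam A.H F) {o : s} (ho : A.H.D.o = Sum.inl o)
    (hS : ∀ i : s, a1 (Pi.single (Sum.inl i) 1) ∈ AQ F Unit)
    (hQ : a2 A.H.Qir ∈ AQ F (Unit ⊕ Unit))
    (hV : ∀ M : Matrix n n ℚ, (∀ t : ℂ, t ≠ 0 → A.LV t * cq M * (A.LV t)ᵀ = cq M) →
      a2 (blk 0 0 M) ∈ AQ F (Unit ⊕ Unit))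
    (hK : a3 A.KT ∈ AQ F (Unit ⊕ (Unit ⊕ Unit))) (k : ℕ) :
    BB A.H (Fin (k + 1)) ≤ F k := by
  intro h hh
  have hu : uni ℚ A.H.D.o Unit ∈ AQ F Unit := by
    have h1 := hS o
    convert h1 using 1
    funext w
    rw [uni, Fintype.prod_unique, a1, ho, Pi.single_apply]
  have hi : arr (kp Unit A.H.Qir) ∈ AQ F (Unit ⊕ Unit) := by
    convert hQ using 1
    funext w
    rw [arr, kp_apply, Fintype.prod_unique]
    rfl
  have h1 : (fun i => (h i : ℝ)) ∈ AR F (Fin (k + 1)) := by
    refine mem_of_fixed (κ := Fin (k + 1)) (isFam' hA hu hi) _ ?_ ?_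
    · have h1 := hh Complex.I Complex.I_ne_zero
      rw [← cR_C, kp_cR] at h1
      ext i
      have h2 := congrFun h1 i
      rw [Matrix.mulVec, dotProduct] at h2 ⊢
      have h3 : ((∑ j, kp (Fin (k + 1)) A.H.D.C i j * (h j : ℝ) : ℝ) : ℂ) =
          (((h i : ℝ)) : ℂ) := by
        push_cast
        exact h2
      exact_mod_cast h3
    · intro g hg
      have hf : ∀ (κ : Type) [Fintype κ] [DecidableEq κ] (a : (κ → _) → ℚ), a ∈ AQ F κ →
          kp κ g *ᵥ ca a = ca a := by
        intro κ _ _ a ha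
        have h4 := hg κ _ (AR_of ha)
        simp only [Complex.ofReal_ratCast] at h4
        exact h4
      have hKT : a3 A.KT ∈ BB A.H (Unit ⊕ (Unit ⊕ Unit)) := hA.leQ hK
      have hfix : A.FixA g := by
        refine ⟨fun i => ?_, ?_, ?_, fun i => ?_⟩
        · have h4 := hf Unit _ (hS i)
          have h0 : ca (a1 (Pi.single (Sum.inl i) 1 : s ⊕ (m ⊕ n) → ℚ)) =
              a1 (fun j => (((Pi.single (Sum.inl i) 1 : s ⊕ (m ⊕ n) → ℚ) j : ℚ) : ℂ)) := rfl
          rw [h0, kp_a1, HK.cast_single] at h4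
          exact a1_inj h4
        · have h4 := hf _ _ hQ
          have h0 : ca (a2 A.H.Qir) = a2 (cq A.H.Qir) := rfl
          rw [h0, kp_a2] at h4
          exact a2_inj h4
        · have h4 := hf _ _ (hV A.Qvi fun t ht => HK.LV_Qvi ht)
          have h0 : ca (a2 (blk 0 0 A.Qvi : Matrix (s ⊕ (m ⊕ n)) (s ⊕ (m ⊕ n)) ℚ)) =
              a2 (cq (blk 0 0 A.Qvi)) := rfl
          rw [h0, kp_a2] at h4
          exact a2_inj h4
        · have h4 := hf _ _ hK
          have h0 : ca (a3 A.KT) = a3 (fun i => cq (A.KT i)) := rfl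
          rw [h0, kp_a3] at h4
          exact congrFun (a3_inj h4) i
      have hgS : g ∈ So A.H := by
        refine HK.fixed hKT hfix fun M hM => ?_
        have h4 := hf _ _ (hV M hM)
        have h0 : ca (a2 (blk 0 0 M : Matrix (s ⊕ (m ⊕ n)) (s ⊕ (m ⊕ n)) ℚ)) =
            a2 (cq (blk 0 0 M)) := rfl
        rw [h0, kp_a2] at h4
        exact a2_inj h4
      simp only [Complex.ofReal_ratCast]
      exact hgS (Fin (k + 1)) h hh
  rw [← hA.mem_iff]
  exact Pool.Agent.N996.BP.descent _ h1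

end Run7.h38.KS
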