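import Pool.Agent.Run7.h38.KS.Br4

/-!
# Matrices fixing the generating arrays fix all Hodge classes
-/

set_option linter.unusedSectionVars false

namespace Run7.h38.KS

open Matrix ComplexConjugate Pool.Agent.N996.BP Pool.Agent.N996.FP

variable {s m n : Type} [Fintype s] [DecidableEq s] [Fintype m] [DecidableEq m] [Fintype n]
    [DecidableEq n]

namespace HK

variable {A : HK s m n}

lemma LT_one : A.LT 1 = 1 := by
  rw [LT]; simp

lemma LV_one : A.LV 1 = 1 := by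
  rw [LV]; simp

lemma LT_neg : A.LT (-1) = 1 := by
  rw [LT]; simp

lemma LV_neg : A.LV (-1) = -1 := by
  rw [LV]
  have h1 : ((-1 : ℂ))⁻¹ = -1 := by norm_num
  rw [h1, ← smul_add, add_sub_cancel, neg_one_smul]

/-- The derivative of the cocharacter belongs to the Lie algebra. -/
lemma mem_two : blk 0 ((2 : ℂ) • A.P - (2 : ℂ) • A.P') ((2 : ℂ) • A.E - 1) ∈ ho A.H := by
  intro κ _ _ a ha
  let g : ℝ → Matrix (s ⊕ (m ⊕ n)) (s ⊕ (m ⊕ n)) ℂ := fun r => blk 1 (A.LT r) (A.LV r)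
  have hfix : ∀ r : ℝ, r ≠ 0 → kp κ (g r) *ᵥ ca a = ca a := by
    intro r hr
    have hr' : (r : ℂ) ≠ 0 := by exact_mod_cast hr
    have h1 : g r = A.H.l r := (A.hl hr').symm
    rw [h1]
    exact ha r hr'
  have hg1 : g 1 = 1 := by
    simp only [g, Complex.ofReal_one]
    rw [LT_one, LV_one, blk_one]
  have hT : ∀ i j, HasDerivAt (fun r : ℝ => A.LT r i j)
      (((2 : ℂ) • A.P - (2 : ℂ) • A.P') i j) 1 := by
    intro i j
    have e1 : (fun r : ℝ => A.LT r i j) = fun r : ℝ => (1 : Matrix m m ℂ) i j +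
        (((r : ℂ)) ^ (2 : ℤ) - 1) * A.P i j + ((r : ℂ) ^ (-2 : ℤ) - 1) * A.P' i j := by
      funext r
      rw [LT, Matrix.add_apply, Matrix.add_apply, Matrix.smul_apply, Matrix.smul_apply,
        smul_eq_mul, smul_eq_mul, _root_.zpow_neg]
      norm_cast
    rw [e1]
    have h1 := ((hasDerivAt_zpow 2 (((1 : ℝ) : ℂ)) (Or.inl (by simp))).comp_ofReal)
    have h2 := ((hasDerivAt_zpow (-2) (((1 : ℝ) : ℂ)) (Or.inl (by simp))).comp_ofReal)
    have h3 := (((h1.sub_const 1).mul_const (A.P i j)).const_add ((1 : Matrix m m ℂ) i j)).add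
      ((h2.sub_const 1).mul_const (A.P' i j))
    refine h3.congr_deriv ?_
    rw [Matrix.sub_apply, Matrix.smul_apply, Matrix.smul_apply]
    simp
    ring
  have hV : ∀ i j, HasDerivAt (fun r : ℝ => A.LV r i j)
      (((2 : ℂ) • A.E - 1) i j) 1 := by
    intro i j
    have e1 : (fun r : ℝ => A.LV r i j) = fun r : ℝ => ((r : ℂ)) ^ (1 : ℤ) * A.E i j +
        (r : ℂ) ^ (-1 : ℤ) * (1 - A.E) i j := by
      funext r
      rw [LV, Matrix.add_apply, Matrix.smul_apply, Matrix.smul_apply,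
        smul_eq_mul, smul_eq_mul, _root_.zpow_neg, _root_.zpow_one]
    rw [e1]
    have h1 := ((hasDerivAt_zpow 1 (((1 : ℝ) : ℂ)) (Or.inl (by simp))).comp_ofReal)
    have h2 := ((hasDerivAt_zpow (-1) (((1 : ℝ) : ℂ)) (Or.inl (by simp))).comp_ofReal)
    have h3 := (h1.mul_const (A.E i j)).add (h2.mul_const ((1 - A.E) i j))
    refine h3.congr_deriv ?_
    rw [Matrix.sub_apply, Matrix.sub_apply, Matrix.smul_apply]
    simp
    ring
  have hd : ∀ i j, HasDerivAt (fun r => g r i j)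
      (blk (0 : Matrix s s ℂ) ((2 : ℂ) • A.P - (2 : ℂ) • A.P') ((2 : ℂ) • A.E - 1) i j) 1 := by
    intro i j
    rcases i with i | i | i <;> rcases j with j | j | j
    · exact hasDerivAt_const _ _
    · exact hasDerivAt_const _ _
    · exact hasDerivAt_const _ _
    · exact hasDerivAt_const _ _
    · exact hT i j
    · exact hasDerivAt_const _ _
    · exact hasDerivAt_const _ _
    · exact hasDerivAt_const _ _
    · exact hV i j
  funext i
  have h1 := hasDerivAt_kpv (κ := κ) hg1 hd (ca a) i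
  have h2 : HasDerivAt (fun r => (kp κ (g r) *ᵥ ca a) i) 0 1 := by
    refine (hasDerivAt_const (1 : ℝ) (ca a i)).congr_of_eventuallyEq ?_
    filter_upwards [isOpen_ne.mem_nhds (show (1 : ℝ) ≠ 0 by norm_num)] with r hr
    rw [hfix r hr]
  exact h1.unique h2

lemma mem_R : blk 0 (A.D.R A.D.ω (sv cj A.D.ω)).1 (A.D.R A.D.ω (sv cj A.D.ω)).2 ∈ ho A.H := by
  have h1 := A.mem_two
  rw [A.two_P, A.two_E] at h1
  have h2 := Submodule.smul_mem (ho A.H) (2 * A.β⁻¹)⁻¹ h1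
  have h3 : (2 * A.β⁻¹ : ℂ) ≠ 0 := mul_ne_zero two_ne_zero (inv_ne_zero A.β_ne)
  rwa [blk_smul, smul_smul, smul_smul, inv_mul_cancel₀ h3, one_smul, one_smul, smul_zero] at h2

/-- Conjugates of the third component of the cocharacter. -/
lemma LV_AA (σ : ℂ ≃+* ℂ) (t : ℂ) : (A.LV t).map σ ∈ A.D.AA := by
  have h1 : A.E = (2 : ℂ)⁻¹ • ((1 : Matrix n n ℂ) + (2 * A.β⁻¹) •
      (A.D.R A.D.ω (sv cj A.D.ω)).2) := by
    rw [← A.two_E, add_sub_cancel, smul_smul, inv_mul_cancel₀ two_ne_zero, one_smul]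
  have h2 : A.E.map σ ∈ A.D.AA := by
    have h3 : A.E.map σ = σ (2 : ℂ)⁻¹ • ((1 : Matrix n n ℂ) + σ (2 * A.β⁻¹) •
        (A.D.R (sv σ A.D.ω) (sv σ (sv cj A.D.ω))).2) := by
      conv_lhs => rw [h1]
      rw [KD.map_smul_mat, A.D.R_sv]
      congr 1
      ext i j
      simp only [Matrix.map_apply, Matrix.add_apply, Matrix.smul_apply, smul_eq_mul, map_add,
        map_mul, KD.sp, Matrix.one_apply]
      congr 1
      split_ifs <;> simp
    rw [h3]
    have h4 : (A.D.R (sv σ A.D.ω) (sv σ (sv cj A.D.ω))).2 ∈ A.D.AA :=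
      Algebra.subset_adjoin ⟨σ, rfl⟩
    exact Subalgebra.smul_mem _ (Subalgebra.add_mem _ (Subalgebra.one_mem _)
      (Subalgebra.smul_mem _ h4 _)) _
  have h4 : (A.LV t).map σ = σ t • A.E.map σ + σ t⁻¹ • ((1 : Matrix n n ℂ) - A.E.map σ) := by
    ext i j
    simp only [LV, Matrix.map_apply, Matrix.add_apply, Matrix.sub_apply, Matrix.smul_apply,
      smul_eq_mul, map_add, map_mul, map_sub, Matrix.one_apply]
    congr 3
    split_ifs <;> simp
  rw [h4]
  exact Subalgebra.add_mem _ (Subalgebra.smul_mem _ h2 _)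
    (Subalgebra.smul_mem _ (Subalgebra.sub_mem _ (Subalgebra.one_mem _) h2) _)

/-- Elements of the algebra of the group in blocks. -/
lemma GA_blk {x : Matrix (Unit → s ⊕ (m ⊕ n)) (Unit → s ⊕ (m ⊕ n)) ℂ}
    (hx : x ∈ GA A.H Unit) : ∃ u a c, un x = blk u a c ∧ c ∈ A.D.AA := by
  induction hx using Algebra.adjoin_induction with
  | mem x hx =>
    obtain ⟨g, hg, rfl⟩ := hx
    rw [un_kp]
    induction hg using Submonoid.closure_induction with
    | mem g hg =>
      obtain ⟨σ, t, ht, rfl⟩ := hg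
      refine ⟨(1 : Matrix s s ℂ).map σ, (A.LT t).map σ, (A.LV t).map σ, ?_, LV_AA σ t⟩
      rw [A.hl ht, blk_map]
    | one => exact ⟨1, 1, 1, blk_one.symm, Subalgebra.one_mem _⟩
    | mul x y _ _ hx hy =>
      obtain ⟨u, a, c, h1, h2⟩ := hx
      obtain ⟨u', a', c', h3, h4⟩ := hy
      exact ⟨_, _, _, by rw [h1, h3, blk_mul], Subalgebra.mul_mem _ h2 h4⟩
  | algebraMap c =>
    refine ⟨c • 1, c • 1, c • 1, ?_, Subalgebra.smul_mem _ (Subalgebra.one_mem A.D.AA) c⟩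
    rw [un_scalar, ← blk_one, blk_smul]
  | add x y _ _ hx hy =>
    obtain ⟨u, a, c, h1, h2⟩ := hx
    obtain ⟨u', a', c', h3, h4⟩ := hy
    exact ⟨_, _, _, by rw [un_add, h1, h3, blk_add], Subalgebra.add_mem _ h2 h4⟩
  | mul x y _ _ hx hy =>
    obtain ⟨u, a, c, h1, h2⟩ := hx
    obtain ⟨u', a', c', h3, h4⟩ := hy
    exact ⟨_, _, _, by rw [un_mul, h1, h3, blk_mul], Subalgebra.mul_mem _ h2 h4⟩

/-- Matrices fixing the Hodge classes with two indices. -/
lemma AA_of_fix {a : Matrix m m ℂ} {c : Matrix n n ℂ}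
    (h : ∀ X : Matrix (s ⊕ (m ⊕ n)) (s ⊕ (m ⊕ n)) ℚ, a2 X ∈ BB A.H (Unit ⊕ Unit) →
      blk 1 a c * cq X * (blk 1 a c)ᵀ = cq X) : c ∈ A.D.AA := by
  have h1 : kp Unit (blk 1 a c) ∈ GA A.H Unit := by
    refine mem_GA fun x hx => ?_
    obtain ⟨X, rfl⟩ := a2_mat x
    have h0 : ca (a2 X) = a2 (cq X) := rfl
    rw [h0, kp_a2, h X hx]
  obtain ⟨u, a', c', h2, h3⟩ := GA_blk h1
  rw [un_kp] at h2
  rw [(blk_inj h2).2.2]
  exact h3

lemma AA_of_So {a : Matrix m m ℂ} {c : Matrix n n ℂ} (h : blk 1 a c ∈ So A.H) : c ∈ A.D.AA :=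
  AA_of_fix fun _ hX => So_a2 h hX

/-- The Lie algebra and the group of the Hodge structure. -/
noncomputable def lg (A : HK s m n) (hKT : a3 A.KT ∈ BB A.H (Unit ⊕ (Unit ⊕ Unit))) :
    KD.LG A.D where
  L :=
    { carrier := {z | blk 0 z.1 z.2 ∈ ho A.H}
      add_mem' := by
        intro z w hz hw
        have h1 := Submodule.add_mem (ho A.H) (show blk 0 z.1 z.2 ∈ ho A.H from hz)
          (show blk 0 w.1 w.2 ∈ ho A.H from hw)
        rw [blk_add, add_zero] at h1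
        exact h1
      zero_mem' := by
        change blk 0 (0 : Matrix m m ℂ) (0 : Matrix n n ℂ) ∈ ho A.H
        rw [blk_zero]
        exact Submodule.zero_mem _
      smul_mem' := by
        intro c z hz
        have h1 := Submodule.smul_mem (ho A.H) c hz
        rw [blk_smul, smul_zero] at h1
        exact h1 }
  G :=
    { carrier := {p | blk 1 p.1 p.2 ∈ So A.H}
      mul_mem' := by
        intro p q hp hq
        have h1 := Submonoid.mul_mem (So A.H) (show blk 1 p.1 p.2 ∈ So A.H from hp)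
          (show blk 1 q.1 q.2 ∈ So A.H from hq)
        rw [blk_mul, Matrix.mul_one] at h1
        exact h1
      one_mem' := by
        change blk 1 (1 : Matrix m m ℂ) (1 : Matrix n n ℂ) ∈ So A.H
        rw [blk_one]
        exact Submonoid.one_mem _ }
  br z hz w hw := by
    have h1 := ho_br hz hw
    rw [br, blk_mul, blk_mul, blk_sub] at h1
    simp only [Matrix.zero_mul, sub_zero] at h1
    exact h1
  isZ z hz := isZ_of_ho hKT hz
  gal σ z hz := by
    have h1 := ho_gal σ hz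
    rw [blk_map] at h1
    have h2 : (0 : Matrix s s ℂ).map σ = 0 := by ext i j; simp
    rw [h2] at h1
    exact h1
  mem := mem_R
  exp z hz := by
    have h1 := So_exp hz
    rw [exp_blk] at h1
    exact h1
  isP p hp := by
    obtain ⟨q, hq, h1, -⟩ := FixA.exists (fixA_of_So hKT hp)
    have h2 := blk_inj hq
    have h3 : p = q := Prod.ext h2.2.1 h2.2.2
    rw [h3]
    exact h1
  alg p hp := AA_of_So hp
  inv p hp := by
    obtain ⟨q', hq', h⟩ := So_ex_inv hp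
    obtain ⟨q, hq, -, -⟩ := FixA.exists (fixA_of_So hKT hq')
    rw [hq, blk_mul, ← blk_one] at h
    have h2 := blk_inj h
    rw [hq] at hq'
    exact ⟨q, hq', Prod.ext h2.2.1 h2.2.2⟩

lemma mem_lg {hKT : a3 A.KT ∈ BB A.H (Unit ⊕ (Unit ⊕ Unit))} {p : Pr m n} :
    p ∈ (A.lg hKT).G ↔ blk 1 p.1 p.2 ∈ So A.H := Iff.rfl

/-- Hodge classes with two indices in blocks. -/
lemma blk_parts {X : Matrix (s ⊕ (m ⊕ n)) (s ⊕ (m ⊕ n)) ℚ} (hX : a2 X ∈ BB A.H (Unit ⊕ Unit)) :
    ∃ M : Matrix n n ℚ, (∀ t : ℂ, t ≠ 0 → A.LV t * cq M * (A.LV t)ᵀ = cq M) ∧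
      ∀ c : Matrix n n ℂ, c * cq M * cᵀ = cq M → blk 1 1 c * cq X * (blk 1 1 c)ᵀ = cq X := by
  have hl := a2_BB.1 hX
  obtain ⟨e, he⟩ : ∃ e : Matrix (s ⊕ (m ⊕ n)) (s ⊕ (m ⊕ n)) ℂ, e = blk 1 1 0 := ⟨_, rfl⟩
  obtain ⟨f, hf⟩ : ∃ f : Matrix (s ⊕ (m ⊕ n)) (s ⊕ (m ⊕ n)) ℂ, f = blk 0 0 1 := ⟨_, rfl⟩
  have het : eᵀ = e := by rw [he, blk_transpose]; simp
  have hft : fᵀ = f := by rw [hf, blk_transpose]; simp
  have hee : e * e = e := by rw [he, blk_mul]; simp
  have hff : f * f = f := by rw [hf, blk_mul]; simp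
  have hef : e * f = 0 := by rw [he, hf, blk_mul]; simp [blk_zero]
  have hfe : f * e = 0 := by rw [he, hf, blk_mul]; simp [blk_zero]
  have h1 : e + f = 1 := by rw [he, hf, blk_add]; simp [blk_one]
  obtain ⟨Y, hY⟩ : ∃ Y, Y = cq X := ⟨_, rfl⟩
  -- the cross terms vanish
  have h2 : (e - f) * Y * (e - f) = Y := by
    have h3 := hl (-1) (by norm_num)
    have h4 : A.H.l (-1) = e - f := by
      rw [A.hl (by norm_num), LT_neg, LV_neg, he, hf, blk_sub]
      simp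
    rw [h4, Matrix.transpose_sub, het, hft, ← hY] at h3
    exact h3
  have h3 : (e + f) * Y * (e + f) = Y := by rw [h1, Matrix.one_mul, Matrix.mul_one]
  have h4 : e * Y * f + f * Y * e = 0 := by
    have h5 : (e + f) * Y * (e + f) - (e - f) * Y * (e - f) =
        (2 : ℂ) • (e * Y * f + f * Y * e) := by
      rw [two_smul]; noncomm_ring
    rw [h2, h3, sub_self] at h5
    exact (smul_eq_zero.1 h5.symm).resolve_left two_ne_zero
  have h5 : e * Y * f = 0 := by
    have h6 : e * (e * Y * f + f * Y * e) = e * Y * f := by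
      rw [Matrix.mul_add]
      calc e * (e * Y * f) + e * (f * Y * e) = (e * e) * Y * f + (e * f) * Y * e := by
            simp only [Matrix.mul_assoc]
        _ = _ := by rw [hee, hef]; simp
    rw [← h6, h4, Matrix.mul_zero]
  have h6 : f * Y * e = 0 := by rwa [h5, zero_add] at h4
  have hM : f * Y * f = blk 0 0 (cq X.toBlocks₂₂.toBlocks₂₂) := by
    have e1 : X = Matrix.fromBlocks X.toBlocks₁₁ X.toBlocks₁₂ X.toBlocks₂₁
      (Matrix.fromBlocks X.toBlocks₂₂.toBlocks₁₁ X.toBlocks₂₂.toBlocks₁₂ X.toBlocks₂₂.toBlocks₂₁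
        X.toBlocks₂₂.toBlocks₂₂) := by
      rw [Matrix.fromBlocks_toBlocks, Matrix.fromBlocks_toBlocks]
    have e2 : Y = Matrix.fromBlocks (cq X.toBlocks₁₁) (cq X.toBlocks₁₂) (cq X.toBlocks₂₁)
      (Matrix.fromBlocks (cq X.toBlocks₂₂.toBlocks₁₁) (cq X.toBlocks₂₂.toBlocks₁₂)
        (cq X.toBlocks₂₂.toBlocks₂₁) (cq X.toBlocks₂₂.toBlocks₂₂)) := by
      rw [hY]
      conv_lhs => rw [e1]
      rw [cq, Matrix.fromBlocks_map, Matrix.fromBlocks_map]
      rfl
    rw [e2, hf, blk, Matrix.fromBlocks_multiply, Matrix.fromBlocks_multiply]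
    simp only [Matrix.zero_mul, Matrix.mul_zero, add_zero, zero_add,
      Matrix.fromBlocks_multiply, Matrix.one_mul, Matrix.mul_one]
    ext i j
    rcases i with i | i | i <;> rcases j with j | j | j <;>
      simp [blk, Matrix.mul_apply, Matrix.fromBlocks, Fintype.sum_sum_type]
  have hlf : ∀ c : Matrix n n ℂ, (blk 1 1 c : Matrix (s ⊕ (m ⊕ n)) (s ⊕ (m ⊕ n)) ℂ) =
      e + blk 0 0 c * f := by
    intro c
    rw [he, hf, blk_mul, blk_add]
    simp
  have hbt : ∀ c : Matrix n n ℂ, (blk 0 0 c : Matrix (s ⊕ (m ⊕ n)) (s ⊕ (m ⊕ n)) ℂ)ᵀ =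
      blk 0 0 cᵀ := by
    intro c
    rw [blk_transpose]
    simp
  have hYd : Y = e * Y * e + f * Y * f := by
    have h7 : (e + f) * Y * (e + f) = e * Y * e + f * Y * f + (e * Y * f + f * Y * e) := by
      noncomm_ring
    rw [h3, h4, add_zero] at h7
    exact h7
  have hcomp : ∀ c : Matrix n n ℂ, blk 1 1 c * Y * (blk 1 1 c)ᵀ =
      e * Y * e + blk 0 0 (c * cq X.toBlocks₂₂.toBlocks₂₂ * cᵀ) := by
    intro c
    rw [hlf, Matrix.transpose_add, Matrix.transpose_mul, het, hft, hbt]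
    calc (e + blk 0 0 c * f) * Y * (e + f * blk 0 0 cᵀ) =
        e * Y * e + blk 0 0 c * (f * Y * e) + (e * Y * f) * blk 0 0 cᵀ +
          blk 0 0 c * (f * Y * f) * blk 0 0 cᵀ := by
          noncomm_ring
      _ = _ := by
        rw [h5, h6, Matrix.mul_zero, Matrix.zero_mul, add_zero, add_zero, hM, blk_mul, blk_mul]
        simp
  refine ⟨X.toBlocks₂₂.toBlocks₂₂, fun t ht => ?_, fun c hc => ?_⟩
  · have h7 := hl t ht
    rw [← hY] at h7
    have h8 : f * (A.H.l t * Y * (A.H.l t)ᵀ) * f = f * Y * f := by rw [h7]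
    have h9 : f * A.H.l t = blk 0 0 (A.LV t) * f := by
      rw [A.hl ht, hf, blk_mul, blk_mul]; simp
    have h10 : (A.H.l t)ᵀ * f = f * blk 0 0 (A.LV t)ᵀ := by
      rw [A.hl ht, hf, blk_transpose, blk_mul, blk_mul]; simp
    have h11 : f * (A.H.l t * Y * (A.H.l t)ᵀ) * f =
        blk 0 0 (A.LV t) * (f * Y * f) * blk 0 0 (A.LV t)ᵀ := by
      calc f * (A.H.l t * Y * (A.H.l t)ᵀ) * f = (f * A.H.l t) * Y * ((A.H.l t)ᵀ * f) := by
            simp only [Matrix.mul_assoc]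
        _ = _ := by rw [h9, h10]; simp only [Matrix.mul_assoc]
    rw [h8, hM, blk_mul, blk_mul] at h11
    exact (blk_inj h11).2.2.symm
  · rw [← hY, hcomp, hc, ← hM, ← hYd]

/-- **Matrices fixing the generating arrays fix all Hodge classes.** -/
theorem fixed [Nonempty n] (hKT : a3 A.KT ∈ BB A.H (Unit ⊕ (Unit ⊕ Unit)))
    {g : Matrix (s ⊕ (m ⊕ n)) (s ⊕ (m ⊕ n)) ℂ} (hg : A.FixA g)
    (hV : ∀ M : Matrix n n ℚ, (∀ t : ℂ, t ≠ 0 → A.LV t * cq M * (A.LV t)ᵀ = cq M) →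
      g * cq (blk 0 0 M) * gᵀ = cq (blk 0 0 M)) : g ∈ So A.H := by
  obtain ⟨⟨a, c⟩, hgp, hP, hQ⟩ := FixA.exists hg
  dsimp only at hgp hQ
  have hA : c ∈ A.D.AA := by
    refine AA_of_fix (A := A) (a := 1) fun X hX => ?_
    obtain ⟨M, hM, h1⟩ := blk_parts hX
    refine h1 c ?_
    have h2 := hV M hM
    rw [hgp, cq_blk, blk_transpose, blk_mul, blk_mul] at h2
    exact (blk_inj h2).2.2
  obtain ⟨q, hq, z, hq1, hq2⟩ := KD.LG.core (A.lg hKT) hP hA
  dsimp only at hq1 hq2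
  have hqS : blk 1 q.1 q.2 ∈ So A.H := hq
  obtain ⟨p, hp, -, hp2⟩ := FixA.exists (fixA_of_So hKT hqS)
  have hpq := blk_inj hp
  rw [← hpq.2.2] at hp2
  have hz : z * z = 1 := by
    rw [hq2, Matrix.transpose_smul, Matrix.smul_mul, Matrix.smul_mul, Matrix.mul_smul, hp2,
      smul_smul] at hQ
    obtain ⟨i⟩ := (inferInstance : Nonempty n)
    have h3 : cq A.Qvi ≠ 0 := by
      intro h0
      have h4 := A.cV
      rw [h0, Matrix.mul_zero] at h4
      have h5 := congrFun (congrFun h4 i) i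
      rw [Matrix.zero_apply, Matrix.one_apply_eq] at h5
      exact zero_ne_one h5
    have h6 : (z * z - 1) • cq A.Qvi = 0 := by rw [sub_smul, hQ, one_smul, sub_self]
    exact sub_eq_zero.1 ((smul_eq_zero.1 h6).resolve_right h3)
  rcases mul_self_eq_one_iff.1 hz with h | h
  · rw [hgp, hq1, hq2, h, one_smul]
    exact hqS
  · have h1 : g = blk 1 q.1 q.2 * A.H.l (-1) := by
      rw [A.hl (by norm_num), LT_neg, LV_neg, blk_mul, hgp, hq1, hq2, h]
      simp
    rw [h1]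
    exact Submonoid.mul_mem _ hqS (GG_So (Submonoid.subset_closure (l_mem_gens A.H (by norm_num))))

end HK

end Run7.h38.KS
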