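import Pool.Agent.Run7.h38.KS.Br1

/-!
# Arrays with two and three indices
-/

set_option linter.unusedSectionVars false

namespace Run7.h38.KS

open Matrix ComplexConjugate Pool.Agent.N996.BP Pool.Agent.N996.FP

section Arr

variable {ι : Type} [Fintype ι] [DecidableEq ι]

lemma sumU {M : Type*} [AddCommMonoid M] (f : (Unit → ι) → M) :
    ∑ w, f w = ∑ x : ι, f fun _ => x :=
  (Equiv.sum_comp (Equiv.funUnique Unit ι).symm f).symm

/-- The array with one index. -/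
def a1 {R : Type*} (v : ι → R) : (Unit → ι) → R := fun w => v (w ())

/-- The array with two indices. -/
def a2 {R : Type*} (X : Matrix ι ι R) : (Unit ⊕ Unit → ι) → R := fun w =>
  X (w (Sum.inl ())) (w (Sum.inr ()))

/-- The array with three indices. -/
def a3 {R : Type*} (X : ι → Matrix ι ι R) : (Unit ⊕ (Unit ⊕ Unit) → ι) → R := fun w =>
  X (w (Sum.inl ())) (w (Sum.inr (Sum.inl ()))) (w (Sum.inr (Sum.inr ())))

lemma a1_inj {R : Type*} {v v' : ι → R} (h : a1 v = a1 v') : v = v' := by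
  funext i
  exact congrFun h fun _ => i

lemma a2_inj {R : Type*} {X X' : Matrix ι ι R} (h : a2 X = a2 X') : X = X' := by
  ext i j
  exact congrFun h (Sum.elim (fun _ => i) fun _ => j)

lemma a3_inj {R : Type*} {X X' : ι → Matrix ι ι R} (h : a3 X = a3 X') : X = X' := by
  funext i
  ext j k
  exact congrFun h (Sum.elim (fun _ => i) (Sum.elim (fun _ => j) fun _ => k))

variable (g : Matrix ι ι ℂ)

lemma kp_unit (i j : Unit → ι) : kp Unit g i j = g (i ()) (j ()) := by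
  rw [kp_apply, Fintype.prod_unique]

lemma kp_a1 (v : ι → ℂ) : kp Unit g *ᵥ a1 v = a1 (g *ᵥ v) := by
  funext w
  rw [Matrix.mulVec, dotProduct, sumU]
  simp only [kp_unit]
  rfl

lemma kp_a2 (X : Matrix ι ι ℂ) : kp (Unit ⊕ Unit) g *ᵥ a2 X = a2 (g * X * gᵀ) := by
  funext w
  obtain ⟨i, j, rfl⟩ : ∃ i j, w = Sum.elim i j := ⟨w ∘ Sum.inl, w ∘ Sum.inr, by simp⟩
  rw [Matrix.mulVec, dotProduct, sum_sumElim, sumU]
  change _ = (g * X * gᵀ) (i ()) (j ())
  have h1 : (g * X * gᵀ) (i ()) (j ()) = ∑ x, ∑ y, g (i ()) x * g (j ()) y * X x y := by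
    rw [Matrix.mul_apply]
    simp only [Matrix.mul_apply, Finset.sum_mul, Matrix.transpose_apply]
    rw [Finset.sum_comm]
    refine Finset.sum_congr rfl fun x _ => Finset.sum_congr rfl fun y _ => ?_
    ring
  rw [h1]
  refine Finset.sum_congr rfl fun x _ => ?_
  rw [sumU]
  refine Finset.sum_congr rfl fun y _ => ?_
  rw [kp_sum, kp_unit, kp_unit]
  rfl

lemma kp_a3 (X : ι → Matrix ι ι ℂ) : kp (Unit ⊕ (Unit ⊕ Unit)) g *ᵥ a3 X =
    a3 fun i => ∑ u, g i u • (g * X u * gᵀ) := by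
  funext w
  obtain ⟨i, j, k, rfl⟩ : ∃ i j k, w = Sum.elim i (Sum.elim j k) :=
    ⟨w ∘ Sum.inl, w ∘ Sum.inr ∘ Sum.inl, w ∘ Sum.inr ∘ Sum.inr, by
      ext x; rcases x with x | x | x <;> rfl⟩
  rw [Matrix.mulVec, dotProduct, sum_sumElim, sumU]
  change _ = (∑ u, g (i ()) u • (g * X u * gᵀ)) (j ()) (k ())
  rw [Matrix.sum_apply]
  refine Finset.sum_congr rfl fun x _ => ?_
  have h1 := congrFun (kp_a2 g (X x)) (Sum.elim j k)
  rw [Matrix.mulVec, dotProduct] at h1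
  rw [Matrix.smul_apply, smul_eq_mul]
  change _ = g (i ()) x * a2 (g * X x * gᵀ) (Sum.elim j k)
  rw [← h1, Finset.mul_sum]
  refine Finset.sum_congr rfl fun y _ => ?_
  rw [kp_sum, kp_unit, mul_assoc]
  rfl

lemma dk_a2 (X : Matrix ι ι ℂ) : dk (Unit ⊕ Unit) g *ᵥ a2 X = a2 (g * X + X * gᵀ) := by
  have h0 : ∀ Y : Matrix ι ι ℂ, mat (a2 Y) = Matrix.of fun i j : Unit → ι => Y (i ()) (j ()) :=
    fun Y => rfl
  have h1 := mat_dk (κ := Unit) (l := Unit) g (a2 X)
  have h2 : mat (dk (Unit ⊕ Unit) g *ᵥ a2 X) = mat (a2 (g * X + X * gᵀ)) := by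
    rw [h1, h0, h0]
    ext i j
    rw [Matrix.add_apply, Matrix.mul_apply, Matrix.mul_apply, sumU, sumU]
    simp only [dk_unit, Matrix.of_apply, Matrix.transpose_apply]
    rw [Matrix.add_apply, Matrix.mul_apply, Matrix.mul_apply]
    rfl
  rw [← arr_mat (dk (Unit ⊕ Unit) g *ᵥ a2 X), h2, arr_mat]

lemma dk_a3 (X : ι → Matrix ι ι ℂ) : dk (Unit ⊕ (Unit ⊕ Unit)) g *ᵥ a3 X =
    a3 fun i => (∑ u, g i u • X u) + (g * X i + X i * gᵀ) := by
  have h1 := mat_dk (κ := Unit) (l := Unit ⊕ Unit) g (a3 X)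
  have h2 : mat (dk (Unit ⊕ (Unit ⊕ Unit)) g *ᵥ a3 X) =
      mat (a3 fun i => (∑ u, g i u • X u) + (g * X i + X i * gᵀ)) := by
    rw [h1]
    ext i w
    rw [Matrix.add_apply, Matrix.mul_apply, sumU]
    have h3 : (mat (a3 X) * (dk (Unit ⊕ Unit) g)ᵀ) i w =
        (dk (Unit ⊕ Unit) g *ᵥ a2 (X (i ()))) w := by
      rw [Matrix.mul_apply, Matrix.mulVec, dotProduct]
      refine Finset.sum_congr rfl fun v _ => ?_
      rw [Matrix.transpose_apply, mul_comm]
      rfl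
    rw [h3, dk_a2]
    simp only [dk_unit]
    change _ = ((∑ u, g (i ()) u • X u) + (g * X (i ()) + X (i ()) * gᵀ))
      (w (Sum.inl ())) (w (Sum.inr ()))
    rw [Matrix.add_apply, Matrix.sum_apply]
    congr 1
  rw [← arr_mat (dk (Unit ⊕ (Unit ⊕ Unit)) g *ᵥ a3 X), h2, arr_mat]

end Arr

section Exp

variable {s m n : Type} [Fintype s] [DecidableEq s] [Fintype m] [DecidableEq m] [Fintype n]
  [DecidableEq n]

open scoped Nat in
lemma exp_inter {p q : Type} [Fintype p] [DecidableEq p] [Fintype q] [DecidableEq q]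
    {M : Matrix p p ℂ} {X : Matrix q q ℂ} {J : Matrix p q ℂ} (h : M * J = J * X) :
    NormedSpace.exp M * J = J * NormedSpace.exp X := by
  have hp : ∀ k : ℕ, M ^ k * J = J * X ^ k := by
    intro k
    induction k with
    | zero => rw [pow_zero, pow_zero, Matrix.one_mul, Matrix.mul_one]
    | succ k ih =>
      rw [pow_succ, pow_succ, Matrix.mul_assoc, h, ← Matrix.mul_assoc, ih, Matrix.mul_assoc]
  ext i j
  have h1 : HasSum (fun k : ℕ => ∑ l, ((k ! : ℂ)⁻¹ * (M ^ k) i l) * J l j)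
      (∑ l, NormedSpace.exp M i l * J l j) :=
    hasSum_sum fun l _ => (hasSum_exp_apply M i l).mul_right (J l j)
  have h2 : HasSum (fun k : ℕ => ∑ l, J i l * ((k ! : ℂ)⁻¹ * (X ^ k) l j))
      (∑ l, J i l * NormedSpace.exp X l j) :=
    hasSum_sum fun l _ => (hasSum_exp_apply X l j).mul_left (J i l)
  have h3 : (fun k : ℕ => ∑ l, ((k ! : ℂ)⁻¹ * (M ^ k) i l) * J l j) =
      fun k : ℕ => ∑ l, J i l * ((k ! : ℂ)⁻¹ * (X ^ k) l j) := by
    funext k
    have h4 := congrFun (congrFun (hp k) i) j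
    rw [Matrix.mul_apply, Matrix.mul_apply] at h4
    have h5 : ∑ l, ((k ! : ℂ)⁻¹ * (M ^ k) i l) * J l j =
        (k ! : ℂ)⁻¹ * ∑ l, (M ^ k) i l * J l j := by
      rw [Finset.mul_sum]
      exact Finset.sum_congr rfl fun l _ => mul_assoc _ _ _
    rw [h5, h4, Finset.mul_sum]
    exact Finset.sum_congr rfl fun l _ => by ring
  rw [h3] at h1
  exact h1.unique h2

/-- The matrix of a linear map between spaces of vectors. -/
def mtx {p q : Type} [DecidableEq q] (f : (q → ℂ) → (p → ℂ)) : Matrix p q ℂ :=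
  Matrix.of fun i j => f (Pi.single j 1) i

lemma mtx_iS : ∀ v, mtx (p := s ⊕ (m ⊕ n)) (q := s) iS *ᵥ v = iS v := by
  intro v
  ext i
  rw [Matrix.mulVec, dotProduct]
  rcases i with i | i | i
  · simp [mtx, iS, Pi.single_apply]
  · simp [mtx, iS]
  · simp [mtx, iS]

lemma mtx_iT : ∀ v, mtx (p := s ⊕ (m ⊕ n)) (q := m) iT *ᵥ v = iT v := by
  intro v
  ext i
  rw [Matrix.mulVec, dotProduct]
  rcases i with i | i | i
  · simp [mtx, iT]
  · simp [mtx, iT, Pi.single_apply]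
  · simp [mtx, iT]

lemma mtx_iV : ∀ v, mtx (p := s ⊕ (m ⊕ n)) (q := n) iV *ᵥ v = iV v := by
  intro v
  ext i
  rw [Matrix.mulVec, dotProduct]
  rcases i with i | i | i
  · simp [mtx, iV]
  · simp [mtx, iV]
  · simp [mtx, iV, Pi.single_apply]

lemma exp_blk (x : Matrix m m ℂ) (y : Matrix n n ℂ) :
    NormedSpace.exp (blk (0 : Matrix s s ℂ) x y) =
      blk 1 (NormedSpace.exp x) (NormedSpace.exp y) := by
  refine blk_ext (fun v => ?_) (fun v => ?_) (fun v => ?_)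
  · rw [Matrix.one_mulVec]
    apply exp_ker
    rw [blk_iS, Matrix.zero_mulVec]
    ext i
    rcases i with i | i | i <;> simp [iS]
  · have h1 : blk (0 : Matrix s s ℂ) x y * (mtx iT : Matrix (s ⊕ (m ⊕ n)) m ℂ) =
        (mtx iT : Matrix (s ⊕ (m ⊕ n)) m ℂ) * x := by
      refine ext_vec fun v => ?_
      rw [← Matrix.mulVec_mulVec, ← Matrix.mulVec_mulVec, mtx_iT, mtx_iT, blk_iT]
    have h2 := congrArg (fun M => M *ᵥ v) (exp_inter h1)
    simp only [← Matrix.mulVec_mulVec, mtx_iT] at h2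
    exact h2
  · have h1 : blk (0 : Matrix s s ℂ) x y * (mtx iV : Matrix (s ⊕ (m ⊕ n)) n ℂ) =
        (mtx iV : Matrix (s ⊕ (m ⊕ n)) n ℂ) * y := by
      refine ext_vec fun v => ?_
      rw [← Matrix.mulVec_mulVec, ← Matrix.mulVec_mulVec, mtx_iV, mtx_iV, blk_iV]
    have h2 := congrArg (fun M => M *ᵥ v) (exp_inter h1)
    simp only [← Matrix.mulVec_mulVec, mtx_iV] at h2
    exact h2

end Exp

end Run7.h38.KS
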