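import Pool.Agent.Run7.h38.KS.Br6
import Pool.Agent.N996.BP.PHS2

/-!
# Construction of the Hodge structure from its three parts
-/

set_option linter.unusedSectionVars false

namespace Run7.h38.KS

open Matrix ComplexConjugate Pool.Agent.N996.BP Pool.Agent.N996.FP

variable {s m n : Type} [Fintype s] [DecidableEq s] [Fintype m] [DecidableEq m] [Fintype n]
    [DecidableEq n]

/-- A polarised Hodge structure of weight one in coordinates. -/
structure VD (n : Type) [Fintype n] [DecidableEq n] where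
  /-- the form -/
  Qv : Matrix n n ℚ
  /-- the inverse form -/
  Qvi : Matrix n n ℚ
  /-- the projector -/
  E : Matrix n n ℂ
  hQ : Qv * Qvi = 1
  hQt : Qvᵀ = -Qv
  hE : E * E = E
  hEc : E.map cj = 1 - E
  hEQ : Eᵀ * cq Qv = cq Qv * (1 - E)
  pos : ∀ u : n → ℝ, u ≠ 0 → ∃ ρ : ℝ, 0 < ρ ∧
    (fun i => (u i : ℂ)) ⬝ᵥ (cq Qv *ᵥ ((Complex.I • E + Complex.I⁻¹ • (1 - E)) *ᵥ
      fun i => (u i : ℂ))) = ρ

lemma cq_neg {p q : Type} (M : Matrix p q ℚ) : cq (-M) = -cq M := by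
  ext i j; simp [cq]

namespace KD

variable (D : KD m n)

/-- The value of the form on the period. -/
noncomputable def β : ℂ := D.b D.ω (sv cj D.ω)

lemma β_ne : D.β ≠ 0 := D.ne

lemma sv_cj_cj (x : m → ℂ) : sv cj (sv cj x) = x := by
  ext i; simp [sv, cj_apply]

lemma conj_β : conj D.β = D.β := by
  have h := D.b_sv cj D.ω (sv cj D.ω)
  rw [sv_cj_cj, D.b_symm, cj_apply] at h
  exact h.symm

/-- The first projector. -/
noncomputable def P1 : Matrix m m ℂ :=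
  D.β⁻¹ • Matrix.vecMulVec D.ω (cq D.B *ᵥ sv cj D.ω)

/-- The second projector. -/
noncomputable def P2 : Matrix m m ℂ :=
  D.β⁻¹ • Matrix.vecMulVec (sv cj D.ω) (cq D.B *ᵥ D.ω)

lemma P1_vec (x : m → ℂ) : D.P1 *ᵥ x = (D.β⁻¹ * D.b (sv cj D.ω) x) • D.ω := by
  rw [P1, Matrix.smul_mulVec, D.vmv, smul_smul]

lemma P2_vec (x : m → ℂ) : D.P2 *ᵥ x = (D.β⁻¹ * D.b D.ω x) • sv cj D.ω := by
  rw [P2, Matrix.smul_mulVec, D.vmv, smul_smul]

lemma ω'ω' : D.b (sv cj D.ω) (sv cj D.ω) = 0 := by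
  rw [D.b_sv, D.ωω, map_zero]

lemma ω'ω : D.b (sv cj D.ω) D.ω = D.β := by
  rw [D.b_symm]
  rfl

lemma P11 : D.P1 * D.P1 = D.P1 := by
  refine ext_vec fun v => ?_
  rw [← Matrix.mulVec_mulVec, P1_vec, P1_vec, map_smul, ω'ω, smul_eq_mul]
  congr 1
  have := D.β_ne
  field_simp

lemma P22 : D.P2 * D.P2 = D.P2 := by
  refine ext_vec fun v => ?_
  rw [← Matrix.mulVec_mulVec, P2_vec, P2_vec, map_smul, smul_eq_mul]
  change (D.β⁻¹ * (D.β⁻¹ * D.b D.ω v * D.β)) • _ = _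
  congr 1
  have := D.β_ne
  field_simp

lemma P12 : D.P1 * D.P2 = 0 := by
  refine ext_vec fun v => ?_
  rw [← Matrix.mulVec_mulVec, P1_vec, P2_vec, map_smul, ω'ω', smul_zero, mul_zero, zero_smul,
    Matrix.zero_mulVec]

lemma P21 : D.P2 * D.P1 = 0 := by
  refine ext_vec fun v => ?_
  rw [← Matrix.mulVec_mulVec, P2_vec, P1_vec, map_smul, D.ωω, smul_zero, mul_zero, zero_smul,
    Matrix.zero_mulVec]

lemma cqB_t : (cq D.B)ᵀ = cq D.B := by
  conv_rhs => rw [← D.hB]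
  rfl

lemma P1_conj : D.P1.map cj = D.P2 := by
  refine ext_vec fun v => ?_
  have h1 : v = sv cj (sv cj v) := (sv_cj_cj v).symm
  conv_lhs => rw [h1]
  rw [map_mul_vec, P1_vec, P2_vec, sv_smul, map_mul, ← D.b_sv, sv_cj_cj, sv_cj_cj, map_inv₀,
    cj_apply, conj_β]

lemma P2_conj : D.P2.map cj = D.P1 := by
  rw [← P1_conj, Matrix.map_map]
  ext i j
  simp [cj_apply]

lemma P1_B : D.P1ᵀ * cq D.B = cq D.B * D.P2 := by
  refine ext_vec fun v => ?_
  rw [← Matrix.mulVec_mulVec, ← Matrix.mulVec_mulVec, P2_vec, P1, Matrix.transpose_smul,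
    Matrix.transpose_vecMulVec, Matrix.smul_mulVec, Matrix.vecMulVec_mulVec, Matrix.mulVec_smul,
    op_smul_eq_smul, smul_smul, bfm_apply]

lemma P2_B : D.P2ᵀ * cq D.B = cq D.B * D.P1 := by
  have h1 := congrArg Matrix.transpose D.P1_B
  rw [Matrix.transpose_mul, Matrix.transpose_mul, Matrix.transpose_transpose, cqB_t] at h1
  exact h1.symm

lemma exists_Bi : ∃ Bi : Matrix m m ℚ, D.B * Bi = 1 := by
  refine ⟨D.B⁻¹, Matrix.mul_nonsing_inv _ ?_⟩
  rw [isUnit_iff_ne_zero]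
  intro h0
  obtain ⟨v, hv, h⟩ := Matrix.exists_mulVec_eq_zero_iff.2 h0
  apply hv
  have h1 : (fun i => ((v i : ℚ) : ℂ)) = 0 := by
    apply D.nondeg
    intro y
    rw [D.b_symm, bfm_apply]
    have h2 : cq D.B *ᵥ (fun i => ((v i : ℚ) : ℂ)) = 0 := by
      funext i
      have h3 := congrFun h i
      rw [Matrix.mulVec, dotProduct, Pi.zero_apply] at h3 ⊢
      have h4 : ((∑ j, D.B i j * v j : ℚ) : ℂ) = 0 := by rw [h3]; simp
      rw [Rat.cast_sum] at h4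
      simpa [cq] using h4
    rw [h2, dotProduct_zero]
  funext i
  have h2 := congrFun h1 i
  change ((v i : ℚ) : ℂ) = 0 at h2
  exact Rat.cast_eq_zero.1 h2

end KD

/-- The positivity of the second part. -/
def PosT (D : KD m n) : Prop := ∀ u : m → ℝ, u ≠ 0 → ∃ ρ : ℝ, 0 < ρ ∧
  (fun i => (u i : ℂ)) ⬝ᵥ (cq D.B *ᵥ ((1 - (2 : ℂ) • D.P1 - (2 : ℂ) • D.P2) *ᵥ
    fun i => (u i : ℂ))) = ρ

section Build

variable (D : KD m n) (V : VD n)

/-- The cocharacter on the second part. -/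
noncomputable def LT2 (t : ℂ) : Matrix m m ℂ := 1 + (t ^ 2 - 1) • D.P1 + ((t ^ 2)⁻¹ - 1) • D.P2

/-- The cocharacter on the third part. -/
noncomputable def LV2 (t : ℂ) : Matrix n n ℂ := t • V.E + t⁻¹ • (1 - V.E)

/-- The projectors. -/
noncomputable def prs (s : Type) [Fintype s] [DecidableEq s] (k : ℤ) :
    Matrix (s ⊕ (m ⊕ n)) (s ⊕ (m ⊕ n)) ℂ :=
  if k = 2 then blk 0 D.P1 0 else if k = -2 then blk 0 D.P2 0 else if k = 1 then blk 0 0 V.E
  else if k = -1 then blk 0 0 (1 - V.E) else if k = 0 then blk 1 (1 - D.P1 - D.P2) 0 else 0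

lemma Icc_two : Finset.Icc (-((2 : ℕ) : ℤ)) ((2 : ℕ) : ℤ) = {-2, -1, 0, 1, 2} := by decide

lemma lt_prs {t : ℂ} : lt 2 (prs D V s) t = blk 1 (LT2 D t) (LV2 V t) := by
  rw [lt, Icc_two]
  rw [Finset.sum_insert (by decide), Finset.sum_insert (by decide), Finset.sum_insert (by decide),
    Finset.sum_insert (by decide), Finset.sum_singleton]
  have h1 : prs D V s (-2) = blk 0 D.P2 0 := by simp [prs]
  have h2 : prs D V s (-1) = blk 0 0 (1 - V.E) := by simp [prs]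
  have h3 : prs D V s 0 = blk 1 (1 - D.P1 - D.P2) 0 := by simp [prs]
  have h4 : prs D V s 1 = blk 0 0 V.E := by simp [prs]
  have h5 : prs D V s 2 = blk 0 D.P1 0 := by simp [prs]
  rw [h1, h2, h3, h4, h5, blk_smul, blk_smul, blk_smul, blk_smul, blk_smul, blk_add, blk_add,
    blk_add, blk_add]
  have e1 : t ^ (-2 : ℤ) = (t ^ 2)⁻¹ := by rw [_root_.zpow_neg]; norm_cast
  have e2 : t ^ (-1 : ℤ) = t⁻¹ := by rw [_root_.zpow_neg, _root_.zpow_one]
  have e3 : t ^ (2 : ℤ) = t ^ 2 := by norm_cast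
  rw [e1, e2, e3, _root_.zpow_zero, _root_.zpow_one]
  congr 1
  · simp
  · simp only [smul_zero, zero_add, one_smul, LT2, sub_smul]
    abel
  · simp only [smul_zero, zero_add, LV2, add_zero]
    abel

lemma LT2_mul {t u : ℂ} (ht : t ≠ 0) (hu : u ≠ 0) : LT2 D t * LT2 D u = LT2 D (t * u) := by
  have h1 := D.P11
  have h2 := D.P22
  have h3 := D.P12
  have h4 := D.P21
  rw [LT2, LT2, LT2]
  simp only [add_mul, mul_add, Matrix.smul_mul, Matrix.mul_smul, one_mul, mul_one, h1, h2, h3,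
    h4, smul_zero, add_zero, smul_smul]
  have e1 : ((t * u) ^ 2 - 1 : ℂ) = (u ^ 2 - 1) + (t ^ 2 - 1) + (t ^ 2 - 1) * (u ^ 2 - 1) := by
    ring
  have e2 : (((t * u) ^ 2)⁻¹ - 1 : ℂ) = ((u ^ 2)⁻¹ - 1) + ((t ^ 2)⁻¹ - 1) +
      ((t ^ 2)⁻¹ - 1) * ((u ^ 2)⁻¹ - 1) := by
    rw [mul_pow, mul_inv]; ring
  rw [e1, e2]
  module

lemma LV2_mul {t u : ℂ} (ht : t ≠ 0) (hu : u ≠ 0) : LV2 V t * LV2 V u = LV2 V (t * u) := by
  have h1 := V.hE
  have h2 : V.E * (1 - V.E) = 0 := by rw [mul_sub, mul_one, h1, sub_self]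
  have h3 : (1 - V.E) * V.E = 0 := by rw [sub_mul, one_mul, h1, sub_self]
  have h4 : (1 - V.E) * (1 - V.E) = 1 - V.E := by rw [mul_sub, mul_one, h3, sub_zero]
  rw [LV2, LV2, LV2]
  simp only [add_mul, mul_add, Matrix.smul_mul, Matrix.mul_smul, h1, h2, h3, h4, smul_zero,
    add_zero, zero_add, smul_smul, mul_inv]
  rw [mul_comm t u, mul_comm t⁻¹ u⁻¹]

lemma LT2_one : LT2 D 1 = 1 := by rw [LT2]; simp
lemma LV2_one : LV2 V 1 = 1 := by rw [LV2]; simp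

lemma LT2_B {t : ℂ} : (LT2 D t)ᵀ * cq D.B = cq D.B * LT2 D t⁻¹ := by
  rw [LT2, LT2, Matrix.transpose_add, Matrix.transpose_add, Matrix.transpose_smul,
    Matrix.transpose_smul, Matrix.transpose_one, Matrix.add_mul, Matrix.add_mul, Matrix.smul_mul,
    Matrix.smul_mul, D.P1_B, D.P2_B, Matrix.mul_add, Matrix.mul_add, Matrix.mul_smul,
    Matrix.mul_smul, Matrix.one_mul, Matrix.mul_one, inv_pow, inv_inv]
  abel

lemma LV2_Q {t : ℂ} : (LV2 V t)ᵀ * cq V.Qv = cq V.Qv * LV2 V t⁻¹ := by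
  have h1 : (1 - V.E)ᵀ * cq V.Qv = cq V.Qv * V.E := by
    rw [Matrix.transpose_sub, Matrix.transpose_one, Matrix.sub_mul, V.hEQ, Matrix.one_mul,
      Matrix.mul_sub, Matrix.mul_one]
    abel
  rw [LV2, LV2, Matrix.transpose_add, Matrix.transpose_smul, Matrix.transpose_smul,
    Matrix.add_mul, Matrix.smul_mul, Matrix.smul_mul, V.hEQ, h1, Matrix.mul_add, Matrix.mul_smul,
    Matrix.mul_smul, inv_inv]
  abel

end Build

end Run7.h38.KS
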