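import Pool.Agent.Run7.h38.KS.Exp
import Pool.Agent.W437.HD.Fixed

/-!
# Quadratic spaces of type K3 with Clifford multiplication
-/

set_option linter.unusedSectionVars false

namespace Run7.h38.KS

open Matrix ComplexConjugate

variable {m n : Type} [Fintype m] [DecidableEq m] [Fintype n] [DecidableEq n]

/-- The rational matrix as a complex matrix. -/
def cq {p q : Type} (M : Matrix p q ℚ) : Matrix p q ℂ := M.map (fun x : ℚ => (x : ℂ))

lemma cq_mul {p q r : Type} [Fintype q] (M : Matrix p q ℚ) (N : Matrix q r ℚ) :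
    cq (M * N) = cq M * cq N := by
  ext i j
  simp [cq, Matrix.mul_apply]

lemma cq_one {p : Type} [DecidableEq p] : cq (1 : Matrix p p ℚ) = 1 := by
  ext i j
  rw [cq, Matrix.map_apply, Matrix.one_apply, Matrix.one_apply]
  split_ifs <;> simp

lemma cq_add {p q : Type} (M N : Matrix p q ℚ) : cq (M + N) = cq M + cq N := by
  ext i j
  simp [cq]

lemma cq_smul {p q : Type} (c : ℚ) (M : Matrix p q ℚ) : cq (c • M) = (c : ℂ) • cq M := by
  ext i j
  simp [cq]

/-- The automorphism of the coefficients applied to a vector. -/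
def sv {p : Type} (σ : ℂ ≃+* ℂ) (x : p → ℂ) : p → ℂ := fun i => σ (x i)

lemma sv_add {p : Type} (σ : ℂ ≃+* ℂ) (x y : p → ℂ) : sv σ (x + y) = sv σ x + sv σ y := by
  ext i; simp [sv]

lemma sv_sub {p : Type} (σ : ℂ ≃+* ℂ) (x y : p → ℂ) : sv σ (x - y) = sv σ x - sv σ y := by
  ext i; simp [sv]

lemma sv_smul {p : Type} (σ : ℂ ≃+* ℂ) (c : ℂ) (x : p → ℂ) : sv σ (c • x) = σ c • sv σ x := by
  ext i; simp [sv]

lemma sv_zero {p : Type} (σ : ℂ ≃+* ℂ) : sv σ (0 : p → ℂ) = 0 := by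
  ext i; simp [sv]

lemma sv_symm {p : Type} (σ : ℂ ≃+* ℂ) (x : p → ℂ) : sv σ (sv σ.symm x) = x := by
  ext i; simp [sv]

lemma symm_sv {p : Type} (σ : ℂ ≃+* ℂ) (x : p → ℂ) : sv σ.symm (sv σ x) = x := by
  ext i; simp [sv]

/-- Complex conjugation as an automorphism. -/
noncomputable def cj : ℂ ≃+* ℂ := starRingAut

lemma cj_apply (z : ℂ) : cj z = conj z := rfl

/-- Pairs of matrices. -/
abbrev Pr (m n : Type) : Type := Matrix m m ℂ × Matrix n n ℂ

/-- The bilinear form given by a rational matrix. -/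
noncomputable def bfm (B : Matrix m m ℚ) : LinearMap.BilinForm ℂ (m → ℂ) :=
  Matrix.toBilin' (cq B)

lemma bfm_apply (B : Matrix m m ℚ) (x y : m → ℂ) : bfm B x y = x ⬝ᵥ (cq B *ᵥ y) := by
  rw [bfm, Matrix.toBilin'_apply']

lemma bfm_sv (B : Matrix m m ℚ) (σ : ℂ ≃+* ℂ) (x y : m → ℂ) :
    bfm B (sv σ x) (sv σ y) = σ (bfm B x y) := by
  rw [bfm_apply, bfm_apply, dotProduct, dotProduct, map_sum]
  refine Finset.sum_congr rfl fun i _ => ?_
  rw [map_mul, Matrix.mulVec, dotProduct, Matrix.mulVec, dotProduct, map_sum]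
  congr 1
  refine Finset.sum_congr rfl fun j _ => ?_
  rw [map_mul, cq, Matrix.map_apply, map_ratCast]
  rfl

/-- A polarised Hodge structure of type K3 without rational classes of type zero (`B` is the form,
`ω` spans the first step of the Hodge filtration), and a Clifford multiplication `K`. -/
structure KD (m n : Type) [Fintype m] [DecidableEq m] [Fintype n] [DecidableEq n] where
  /-- the form -/
  B : Matrix m m ℚ
  /-- the multiplication -/
  K : m → Matrix n n ℚ
  /-- the constant -/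
  c : ℚ
  /-- the period -/
  ω : m → ℂ
  hB : Bᵀ = B
  hc : c ≠ 0
  hK : ∀ i j, K i * K j + K j * K i = (2 * c * B i j) • (1 : Matrix n n ℚ)
  ωω : bfm B ω ω = 0
  ne : bfm B ω (sv cj ω) ≠ 0
  an : ∀ x : m → ℂ, bfm B ω x = 0 → bfm B (sv cj ω) x = 0 → bfm B x (sv cj x) = 0 → x = 0
  tr : ∀ t : m → ℚ, bfm B ω (fun i => (t i : ℂ)) = 0 → t = 0

namespace KD

variable (D : KD m n)

/-- The form. -/
noncomputable abbrev b : LinearMap.BilinForm ℂ (m → ℂ) := bfm D.B

lemma b_symm (x y : m → ℂ) : D.b x y = D.b y x := by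
  rw [bfm_apply, bfm_apply, dotProduct_comm, ← Matrix.dotProduct_transpose_mulVec]
  have h1 : (cq D.B)ᵀ = cq D.B := by
    conv_rhs => rw [← D.hB]
    rfl
  rw [h1, dotProduct_comm]

lemma b_sv (σ : ℂ ≃+* ℂ) (x y : m → ℂ) : D.b (sv σ x) (sv σ y) = σ (D.b x y) := bfm_sv _ _ _ _

/-- The Clifford multiplication. -/
noncomputable def kap : (m → ℂ) →ₗ[ℂ] Matrix n n ℂ where
  toFun x := ∑ i, x i • cq (D.K i)
  map_add' x y := by
    rw [← Finset.sum_add_distrib]
    exact Finset.sum_congr rfl fun i _ => by rw [Pi.add_apply, add_smul]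
  map_smul' c x := by
    rw [RingHom.id_apply, Finset.smul_sum]
    exact Finset.sum_congr rfl fun i _ => by rw [Pi.smul_apply, smul_eq_mul, mul_smul]

lemma kap_apply (x : m → ℂ) : D.kap x = ∑ i, x i • cq (D.K i) := rfl

lemma kap_sv (σ : ℂ ≃+* ℂ) (x : m → ℂ) : D.kap (sv σ x) = (D.kap x).map σ := by
  ext i j
  rw [kap_apply, Matrix.map_apply, kap_apply, Matrix.sum_apply, Matrix.sum_apply, map_sum]
  refine Finset.sum_congr rfl fun k _ => ?_
  rw [Matrix.smul_apply, Matrix.smul_apply, smul_eq_mul, smul_eq_mul, map_mul, cq,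
    Matrix.map_apply, map_ratCast]
  rfl

lemma hc' : (D.c : ℂ) ≠ 0 := by exact_mod_cast D.hc

/-- The Clifford relation. -/
lemma cliff (x y : m → ℂ) :
    D.kap x * D.kap y + D.kap y * D.kap x = (2 * D.c * D.b x y) • (1 : Matrix n n ℂ) := by
  have h1 : ∀ i j, cq (D.K i) * cq (D.K j) + cq (D.K j) * cq (D.K i) =
      (2 * D.c * cq D.B i j : ℂ) • (1 : Matrix n n ℂ) := by
    intro i j
    rw [← cq_mul, ← cq_mul, ← cq_add, D.hK, cq_smul, cq_one]
    congr 1
    simp [cq]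
  rw [kap_apply, kap_apply, Finset.sum_mul_sum, Finset.sum_mul_sum]
  rw [Finset.sum_comm (f := fun i j => y i • cq (D.K i) * x j • cq (D.K j)),
    ← Finset.sum_add_distrib, bfm_apply, dotProduct, Finset.mul_sum, Finset.sum_smul]
  refine Finset.sum_congr rfl fun i _ => ?_
  rw [← Finset.sum_add_distrib, Matrix.mulVec, dotProduct, Finset.mul_sum, Finset.mul_sum,
    Finset.sum_smul]
  refine Finset.sum_congr rfl fun j _ => ?_
  rw [smul_mul_smul_comm, smul_mul_smul_comm, mul_comm (y j) (x i), ← smul_add, h1, smul_smul]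
  congr 1
  ring

lemma kap_sq (x : m → ℂ) : D.kap x * D.kap x = (D.c * D.b x x) • (1 : Matrix n n ℂ) := by
  have h1 := D.cliff x x
  have h2 : D.kap x * D.kap x + D.kap x * D.kap x = (2 : ℂ) • (D.kap x * D.kap x) :=
    (two_smul ℂ _).symm
  rw [h2] at h1
  have h3 : (2 : ℂ) ≠ 0 := two_ne_zero
  have h4 := congrArg (fun M => (2 : ℂ)⁻¹ • M) h1
  simp only [smul_smul, inv_mul_cancel₀ h3, one_smul] at h4
  rw [h4]
  congr 1
  field_simp

lemma kap_swap (x y : m → ℂ) : D.kap x * D.kap y =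
    (2 * D.c * D.b x y) • (1 : Matrix n n ℂ) - D.kap y * D.kap x :=
  eq_sub_of_add_eq (D.cliff x y)

/-- Orthogonal vectors anticommute. -/
lemma kap_anti {x y : m → ℂ} (h : D.b x y = 0) : D.kap x * D.kap y = -(D.kap y * D.kap x) := by
  rw [kap_swap, h, mul_zero, zero_smul, zero_sub]

/-- The derivations `x ∧ y`. -/
noncomputable def R (x y : m → ℂ) : Pr m n :=
  (Matrix.vecMulVec x (cq D.B *ᵥ y) - Matrix.vecMulVec y (cq D.B *ᵥ x),
    (4 * D.c : ℂ)⁻¹ • (D.kap x * D.kap y - D.kap y * D.kap x))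

lemma vmv (x y t : m → ℂ) : Matrix.vecMulVec x (cq D.B *ᵥ y) *ᵥ t = D.b y t • x := by
  rw [Matrix.vecMulVec_mulVec, D.b_symm, bfm_apply, op_smul_eq_smul, dotProduct_comm]

lemma R_one (x y t : m → ℂ) : (D.R x y).1 *ᵥ t = D.b y t • x - D.b x t • y := by
  rw [R, Matrix.sub_mulVec, D.vmv, D.vmv]

lemma R_two (x y : m → ℂ) : (D.R x y).2 =
    (4 * D.c : ℂ)⁻¹ • (D.kap x * D.kap y - D.kap y * D.kap x) := rfl

lemma ext_one {M N : Matrix m m ℂ} (h : ∀ v, M *ᵥ v = N *ᵥ v) : M = N := by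
  apply Matrix.toLin'.injective
  apply LinearMap.ext
  intro v
  rw [Matrix.toLin'_apply, Matrix.toLin'_apply, h]

lemma R_add_left (x x' y : m → ℂ) : D.R (x + x') y = D.R x y + D.R x' y := by
  refine Prod.ext (ext_one fun t => ?_) ?_
  · rw [Prod.fst_add, Matrix.add_mulVec, R_one, R_one, R_one, map_add, LinearMap.add_apply,
      smul_add, add_smul]
    abel
  · rw [Prod.snd_add, R_two, R_two, R_two, ← smul_add, map_add, add_mul, mul_add]
    congr 1
    abel

lemma R_smul_left (c : ℂ) (x y : m → ℂ) : D.R (c • x) y = c • D.R x y := by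
  refine Prod.ext (ext_one fun t => ?_) ?_
  · rw [Prod.smul_fst, Matrix.smul_mulVec, R_one, R_one, map_smul, LinearMap.smul_apply,
      smul_sub, smul_smul, smul_smul, smul_eq_mul, mul_comm c (D.b y t), smul_smul]
  · rw [Prod.smul_snd, R_two, R_two, map_smul, smul_mul_assoc, mul_smul_comm, ← smul_sub,
      smul_comm]

lemma R_swap (x y : m → ℂ) : D.R x y = -D.R y x := by
  refine Prod.ext (ext_one fun t => ?_) ?_
  · rw [Prod.fst_neg, Matrix.neg_mulVec, R_one, R_one, neg_sub]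
  · rw [Prod.snd_neg, R_two, R_two, ← smul_neg, neg_sub]

lemma R_add_right (x y y' : m → ℂ) : D.R x (y + y') = D.R x y + D.R x y' := by
  rw [D.R_swap, R_add_left, neg_add, ← D.R_swap, ← D.R_swap]

lemma R_smul_right (c : ℂ) (x y : m → ℂ) : D.R x (c • y) = c • D.R x y := by
  rw [D.R_swap, R_smul_left, ← smul_neg, ← D.R_swap]

lemma R_sub_left (x x' y : m → ℂ) : D.R (x - x') y = D.R x y - D.R x' y := by
  rw [sub_eq_add_neg, ← neg_one_smul ℂ x', R_add_left, R_smul_left, neg_one_smul,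
    ← sub_eq_add_neg]

lemma R_sub_right (x y y' : m → ℂ) : D.R x (y - y') = D.R x y - D.R x y' := by
  rw [sub_eq_add_neg, ← neg_one_smul ℂ y', R_add_right, R_smul_right, neg_one_smul,
    ← sub_eq_add_neg]

lemma R_neg_left (x y : m → ℂ) : D.R (-x) y = -D.R x y := by
  rw [← neg_one_smul ℂ x, R_smul_left, neg_one_smul]

lemma R_neg_right (x y : m → ℂ) : D.R x (-y) = -D.R x y := by
  rw [← neg_one_smul ℂ y, R_smul_right, neg_one_smul]

lemma R_self (x : m → ℂ) : D.R x x = 0 := by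
  refine Prod.ext (ext_one fun t => ?_) ?_
  · rw [R_one, sub_self, Prod.fst_zero, Matrix.zero_mulVec]
  · rw [R_two, sub_self, smul_zero]
    rfl

/-- The automorphism of the coefficients applied to a pair. -/
def sp (σ : ℂ ≃+* ℂ) (z : Pr m n) : Pr m n := (z.1.map σ, z.2.map σ)

lemma map_mul_vec {p q : Type} [Fintype q] (σ : ℂ ≃+* ℂ) (M : Matrix p q ℂ) (v : q → ℂ) :
    (M.map σ) *ᵥ (sv σ v) = sv σ (M *ᵥ v) := by
  ext i
  rw [sv, Matrix.mulVec, dotProduct, Matrix.mulVec, dotProduct, map_sum]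
  exact Finset.sum_congr rfl fun j _ => by rw [map_mul]; rfl

lemma map_mul_mat {p q r : Type} [Fintype q] (σ : ℂ ≃+* ℂ) (M : Matrix p q ℂ)
    (N : Matrix q r ℂ) : (M * N).map σ = M.map σ * N.map σ := by
  ext i j
  rw [Matrix.map_apply, Matrix.mul_apply, Matrix.mul_apply, map_sum]
  exact Finset.sum_congr rfl fun j _ => by rw [map_mul]; rfl

lemma map_sub_mat {p q : Type} (σ : ℂ ≃+* ℂ) (M N : Matrix p q ℂ) :
    (M - N).map σ = M.map σ - N.map σ := by
  ext i j
  simp

lemma map_smul_mat {p q : Type} (σ : ℂ ≃+* ℂ) (c : ℂ) (M : Matrix p q ℂ) :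
    (c • M).map σ = σ c • M.map σ := by
  ext i j
  simp

lemma R_sv (σ : ℂ ≃+* ℂ) (x y : m → ℂ) : D.R (sv σ x) (sv σ y) = sp σ (D.R x y) := by
  refine Prod.ext (ext_one fun t => ?_) ?_
  · have h1 : t = sv σ (sv σ.symm t) := (sv_symm σ t).symm
    rw [R_one]
    conv_rhs => rw [h1]
    rw [sp]
    change _ = ((D.R x y).1.map σ) *ᵥ _
    rw [map_mul_vec, R_one, sv_sub, sv_smul, sv_smul, ← b_sv, ← b_sv, sv_symm]
  · rw [sp]
    change _ = ((D.R x y).2.map σ)
    rw [R_two, R_two, map_smul_mat, map_sub_mat, map_mul_mat, map_mul_mat, kap_sv, kap_sv]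
    congr 1
    rw [map_inv₀, map_mul, map_ratCast]
    congr 2
    exact (map_ofNat σ 4).symm

/-- Derivations of the form and of the multiplication. -/
def IsZ (z : Pr m n) : Prop :=
  (∀ u v, D.b (z.1 *ᵥ u) v + D.b u (z.1 *ᵥ v) = 0) ∧
    ∀ t, z.2 * D.kap t - D.kap t * z.2 = D.kap (z.1 *ᵥ t)

variable {D}

lemma R_isZ (x y : m → ℂ) : D.IsZ (D.R x y) := by
  constructor
  · intro u v
    rw [R_one, R_one, map_sub, LinearMap.sub_apply, map_smul, map_smul, LinearMap.smul_apply,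
      LinearMap.smul_apply, map_sub, map_smul, map_smul, D.b_symm u x, D.b_symm u y]
    simp only [smul_eq_mul]
    ring
  · intro t
    have h1 : ∀ a b : m → ℂ, D.kap a * D.kap b * D.kap t - D.kap t * (D.kap a * D.kap b) =
        (2 * D.c * D.b b t) • D.kap a - (2 * D.c * D.b a t) • D.kap b := by
      intro a b
      rw [mul_assoc, D.kap_swap b t, mul_sub, ← mul_assoc, ← mul_assoc, D.kap_swap a t, sub_mul,
        mul_smul_comm, smul_mul_assoc, mul_one, one_mul]
      abel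
    have h2 : D.kap x * D.kap y * D.kap t - D.kap y * D.kap x * D.kap t -
        (D.kap t * (D.kap x * D.kap y) - D.kap t * (D.kap y * D.kap x)) =
        (4 * D.c : ℂ) • (D.b y t • D.kap x - D.b x t • D.kap y) := by
      have h3 : D.kap x * D.kap y * D.kap t - D.kap y * D.kap x * D.kap t -
        (D.kap t * (D.kap x * D.kap y) - D.kap t * (D.kap y * D.kap x)) =
        (D.kap x * D.kap y * D.kap t - D.kap t * (D.kap x * D.kap y)) -
        (D.kap y * D.kap x * D.kap t - D.kap t * (D.kap y * D.kap x)) := by abel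
      rw [h3, h1, h1, smul_sub, smul_smul, smul_smul]
      have e1 : (4 * D.c : ℂ) * D.b y t = 2 * D.c * D.b y t + 2 * D.c * D.b y t := by ring
      have e2 : (4 * D.c : ℂ) * D.b x t = 2 * D.c * D.b x t + 2 * D.c * D.b x t := by ring
      rw [e1, e2, add_smul, add_smul]
      abel
    have h4 : (4 * D.c : ℂ) ≠ 0 := mul_ne_zero (by norm_num) D.hc'
    rw [R_two, R_one, smul_mul_assoc, mul_smul_comm, ← smul_sub, sub_mul, mul_sub, h2, smul_smul,
      inv_mul_cancel₀ h4, one_smul, map_sub, map_smul, map_smul]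

/-- The bracket with `x ∧ y`. -/
lemma br_R {z : Pr m n} (hz : D.IsZ z) (u v : m → ℂ) :
    z * D.R u v - D.R u v * z = D.R (z.1 *ᵥ u) v + D.R u (z.1 *ᵥ v) := by
  refine Prod.ext (ext_one fun t => ?_) ?_
  · have h1 : ∀ a b, D.b (z.1 *ᵥ a) b = - D.b a (z.1 *ᵥ b) := fun a b =>
      eq_neg_of_add_eq_zero_left (hz.1 a b)
    rw [Prod.fst_sub, Prod.fst_mul, Prod.fst_mul, Prod.fst_add, Matrix.sub_mulVec,
      Matrix.add_mulVec, ← Matrix.mulVec_mulVec, ← Matrix.mulVec_mulVec, R_one, R_one, R_one,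
      R_one, Matrix.mulVec_sub, Matrix.mulVec_smul, Matrix.mulVec_smul, h1, h1]
    simp only [neg_smul]
    abel
  · rw [Prod.snd_sub, Prod.snd_mul, Prod.snd_mul, Prod.snd_add, R_two, R_two, R_two,
      mul_smul_comm, smul_mul_assoc, ← smul_sub, ← smul_add]
    congr 1
    rw [← hz.2 u, ← hz.2 v]
    noncomm_ring

lemma IsZ.sub {z w : Pr m n} (hz : D.IsZ z) (hw : D.IsZ w) : D.IsZ (z - w) := by
  constructor
  · intro u v
    have h1 := hz.1 u v
    have h2 := hw.1 u v
    rw [Prod.fst_sub, Matrix.sub_mulVec, Matrix.sub_mulVec, map_sub, LinearMap.sub_apply,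
      map_sub]
    linear_combination h1 - h2
  · intro t
    rw [Prod.fst_sub, Prod.snd_sub, Matrix.sub_mulVec, map_sub, ← hz.2, ← hw.2]
    noncomm_ring

variable (D) in
/-- The form is nondegenerate. -/
lemma nondeg {x : m → ℂ} (h : ∀ y, D.b x y = 0) : x = 0 := by
  refine D.an x ?_ ?_ (h _)
  · rw [D.b_symm, h]
  · rw [D.b_symm, h]

lemma kap_inj {x : m → ℂ} (hn : Nonempty n) (h : D.kap x = 0) : x = 0 := by
  apply D.nondeg
  intro y
  have h1 := D.cliff x y
  rw [h, zero_mul, mul_zero, add_zero] at h1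
  obtain ⟨i⟩ := hn
  have h2 := congrFun (congrFun h1 i) i
  rw [Matrix.zero_apply, Matrix.smul_apply, Matrix.one_apply_eq, smul_eq_mul, mul_one] at h2
  have h3 : (2 * D.c : ℂ) ≠ 0 := mul_ne_zero (by norm_num) D.hc'
  exact (mul_eq_zero.1 h2.symm).resolve_left h3

end KD

end Run7.h38.KS
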