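import Pool.Agent.Run7.h38.KS.Hyp

/-!
# The blocks of the Lie algebra
-/

set_option linter.unusedSectionVars false

namespace Run7.h38.KS

open Matrix ComplexConjugate

variable {m n : Type} [Fintype m] [DecidableEq m] [Fintype n] [DecidableEq n]

/-- The image of a subspace under an automorphism of the coefficients. -/
def svS (σ : ℂ ≃+* ℂ) (N : Submodule ℂ (m → ℂ)) : Submodule ℂ (m → ℂ) where
  carrier := {x | sv σ.symm x ∈ N}
  add_mem' {x y} hx hy := by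
    change sv σ.symm (x + y) ∈ N
    rw [sv_add]
    exact N.add_mem hx hy
  zero_mem' := by
    change sv σ.symm 0 ∈ N
    rw [sv_zero]
    exact N.zero_mem
  smul_mem' c x hx := by
    change sv σ.symm (c • x) ∈ N
    rw [sv_smul]
    exact N.smul_mem _ hx

lemma mem_svS {σ : ℂ ≃+* ℂ} {N : Submodule ℂ (m → ℂ)} {x : m → ℂ} :
    x ∈ svS σ N ↔ sv σ.symm x ∈ N := Iff.rfl

lemma sv_mem_svS {σ : ℂ ≃+* ℂ} {N : Submodule ℂ (m → ℂ)} {x : m → ℂ} (hx : x ∈ N) :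
    sv σ x ∈ svS σ N := by
  rw [mem_svS, symm_sv]
  exact hx

namespace KD.LG

variable {D : KD m n} (Λ : LG D)

/-- Blocks of orthogonal type. -/
structure BlkA (N : Submodule ℂ (m → ℂ)) : Prop where
  nd : ∀ x ∈ N, (∀ y ∈ N, D.b x y = 0) → x = 0
  mem : ∀ x ∈ N, ∀ y ∈ N, D.R x y ∈ Λ.L
  stab : ∀ z ∈ Λ.L, ∀ x ∈ N, z.1 *ᵥ x ∈ N

/-- Blocks of unitary type. -/
structure BlkB (W W' : Submodule ℂ (m → ℂ)) : Prop where
  iso : ∀ x ∈ W, ∀ y ∈ W, D.b x y = 0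
  iso' : ∀ x ∈ W', ∀ y ∈ W', D.b x y = 0
  nd : ∀ x ∈ W, (∀ y ∈ W', D.b x y = 0) → x = 0
  nd' : ∀ y ∈ W', (∀ x ∈ W, D.b x y = 0) → y = 0
  mem : ∀ x ∈ W, ∀ y ∈ W', D.R x y ∈ Λ.L
  stab : ∀ z ∈ Λ.L, ∀ x ∈ W, z.1 *ᵥ x ∈ W
  stab' : ∀ z ∈ Λ.L, ∀ x ∈ W', z.1 *ᵥ x ∈ W'

variable {Λ}

lemma BlkA.sv {N : Submodule ℂ (m → ℂ)} (h : Λ.BlkA N) (σ : ℂ ≃+* ℂ) : Λ.BlkA (svS σ N) where
  nd x hx h0 := by
    have h1 := h.nd _ hx fun y hy => by
      have h2 := h0 _ (sv_mem_svS hy)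
      have h3 : D.b (KS.sv σ.symm x) (KS.sv σ.symm (KS.sv σ y)) = σ.symm (D.b x (KS.sv σ y)) :=
        D.b_sv _ _ _
      rw [symm_sv, h2, map_zero] at h3
      exact h3
    have h4 := congrArg (KS.sv σ) h1
    rwa [sv_symm, sv_zero] at h4
  mem x hx y hy := by
    have h1 := Λ.gal σ _ (h.mem _ hx _ hy)
    rw [← D.R_sv, sv_symm, sv_symm] at h1
    exact h1
  stab z hz x hx := by
    have h1 := h.stab _ (Λ.gal σ.symm _ hz) _ hx
    rw [mem_svS]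
    have h2 : (sp σ.symm z).1 *ᵥ (KS.sv σ.symm x) = KS.sv σ.symm (z.1 *ᵥ x) := map_mul_vec _ _ _
    rwa [h2] at h1

lemma BlkB.sv {W W' : Submodule ℂ (m → ℂ)} (h : Λ.BlkB W W') (σ : ℂ ≃+* ℂ) :
    Λ.BlkB (svS σ W) (svS σ W') where
  iso x hx y hy := by
    have h1 := h.iso _ hx _ hy
    have h2 : D.b (KS.sv σ.symm x) (KS.sv σ.symm y) = σ.symm (D.b x y) := D.b_sv _ _ _
    rw [h1] at h2
    exact (map_eq_zero σ.symm).1 h2.symm
  iso' x hx y hy := by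
    have h1 := h.iso' _ hx _ hy
    have h2 : D.b (KS.sv σ.symm x) (KS.sv σ.symm y) = σ.symm (D.b x y) := D.b_sv _ _ _
    rw [h1] at h2
    exact (map_eq_zero σ.symm).1 h2.symm
  nd x hx h0 := by
    have h1 := h.nd _ hx fun y hy => by
      have h2 := h0 _ (sv_mem_svS hy)
      have h3 : D.b (KS.sv σ.symm x) (KS.sv σ.symm (KS.sv σ y)) = σ.symm (D.b x (KS.sv σ y)) :=
        D.b_sv _ _ _
      rw [symm_sv, h2, map_zero] at h3
      exact h3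
    have h4 := congrArg (KS.sv σ) h1
    rwa [sv_symm, sv_zero] at h4
  nd' y hy h0 := by
    have h1 := h.nd' _ hy fun x hx => by
      have h2 := h0 _ (sv_mem_svS hx)
      have h3 : D.b (KS.sv σ.symm (KS.sv σ x)) (KS.sv σ.symm y) = σ.symm (D.b (KS.sv σ x) y) :=
        D.b_sv _ _ _
      rw [symm_sv, h2, map_zero] at h3
      exact h3
    have h4 := congrArg (KS.sv σ) h1
    rwa [sv_symm, sv_zero] at h4
  mem x hx y hy := by
    have h1 := Λ.gal σ _ (h.mem _ hx _ hy)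
    rw [← D.R_sv, sv_symm, sv_symm] at h1
    exact h1
  stab z hz x hx := by
    have h1 := h.stab _ (Λ.gal σ.symm _ hz) _ hx
    rw [mem_svS]
    have h2 : (sp σ.symm z).1 *ᵥ (KS.sv σ.symm x) = KS.sv σ.symm (z.1 *ᵥ x) := map_mul_vec _ _ _
    rwa [h2] at h1
  stab' z hz x hx := by
    have h1 := h.stab' _ (Λ.gal σ.symm _ hz) _ hx
    rw [mem_svS]
    have h2 : (sp σ.symm z).1 *ᵥ (KS.sv σ.symm x) = KS.sv σ.symm (z.1 *ᵥ x) := map_mul_vec _ _ _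
    rwa [h2] at h1

/-- The second vector of the basic hyperbolic pair. -/
noncomputable def be (D : KD m n) : m → ℂ := (D.b D.ω (sv cj D.ω))⁻¹ • sv cj D.ω

lemma cj_cj (x : m → ℂ) : sv cj (sv cj x) = x := by
  ext i
  exact Complex.conj_conj _

lemma cj_symm : cj.symm = cj := by
  ext x
  apply cj.injective
  rw [RingEquiv.apply_symm_apply]
  exact (Complex.conj_conj x).symm

lemma hyp_be : Λ.Hyp D.ω (be D) where
  αα := D.ωω
  ββ := by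
    rw [be, map_smul, map_smul, LinearMap.smul_apply, D.b_sv, D.ωω, map_zero, smul_zero,
      smul_zero]
  αβ := by
    rw [be, map_smul, smul_eq_mul, inv_mul_cancel₀ D.ne]
  mem := by
    rw [be, D.R_smul_right]
    exact Λ.L.smul_mem _ Λ.mem

lemma b_be {x : m → ℂ} : D.b (be D) x = 0 ↔ D.b (sv cj D.ω) x = 0 := by
  rw [be, map_smul, LinearMap.smul_apply, smul_eq_mul, mul_eq_zero]
  exact ⟨fun h => h.resolve_left (inv_ne_zero D.ne), Or.inr⟩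

lemma R_be {x : m → ℂ} : D.R (be D) x ∈ Λ.L ↔ D.R (sv cj D.ω) x ∈ Λ.L := by
  rw [be, D.R_smul_left]
  refine ⟨fun h => ?_, fun h => Λ.L.smul_mem _ h⟩
  have h1 := Λ.L.smul_mem (D.b D.ω (sv cj D.ω)) h
  rwa [smul_smul, mul_inv_cancel₀ D.ne, one_smul] at h1

lemma U_conj {u : m → ℂ} (hu : u ∈ Λ.U D.ω (be D)) : sv cj u ∈ Λ.U (be D) D.ω := by
  obtain ⟨h1, h2, h3⟩ := hu
  rw [b_be] at h2
  refine ⟨?_, ?_, ?_⟩
  · rw [b_be, D.b_sv, h1, map_zero]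
  · have h4 := D.b_sv cj (sv cj D.ω) u
    rwa [cj_cj, h2, map_zero] at h4
  · rw [R_be, D.R_sv]
    exact Λ.gal _ _ h3

lemma U_conj' {u : m → ℂ} (hu : u ∈ Λ.U (be D) D.ω) : sv cj u ∈ Λ.U D.ω (be D) := by
  obtain ⟨h1, h2, h3⟩ := hu
  rw [b_be] at h1
  rw [R_be] at h3
  refine ⟨?_, ?_, ?_⟩
  · have h4 := D.b_sv cj (sv cj D.ω) u
    rwa [cj_cj, h1, map_zero] at h4
  · rw [b_be, D.b_sv, h2, map_zero]
  · have h4 := Λ.gal cj _ h3
    rwa [← D.R_sv, cj_cj] at h4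

lemma an_U {u : m → ℂ} (hu : u ∈ Λ.U D.ω (be D)) (h : D.b u (sv cj u) = 0) : u = 0 :=
  D.an u hu.1 (b_be.1 hu.2.1) h

lemma an_U' {u : m → ℂ} (hu : u ∈ Λ.U (be D) D.ω) (h : D.b u (sv cj u) = 0) : u = 0 :=
  D.an u hu.2.1 (b_be.1 hu.1) h

/-- The first case. -/
lemma exists_blkA (h : ∃ u ∈ Λ.U D.ω (be D), ∃ u' ∈ Λ.U D.ω (be D), D.b u u' ≠ 0) :
    ∃ N, Λ.BlkA N ∧ D.ω ∈ N := by
  obtain ⟨u₀, hu₀, u₁, hu₁, h01⟩ := h
  obtain ⟨β, hβ⟩ : ∃ β, β = be D := ⟨_, rfl⟩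
  have hyp : Λ.Hyp D.ω β := by rw [hβ]; exact hyp_be
  have hle : ∀ w ∈ Λ.U β D.ω, w ∈ Λ.U D.ω β := by
    intro w hw
    subst hβ
    have h1 := hyp.three hu₀ hu₁ hw
    have h2 := (Λ.U D.ω (be D)).smul_mem (D.b u₀ u₁)⁻¹ h1
    rwa [smul_smul, inv_mul_cancel₀ h01, one_smul] at h2
  have hle' : ∀ w ∈ Λ.U D.ω β, w ∈ Λ.U β D.ω := by
    intro w hw
    subst hβ
    have h1 := hyp.symm.three (U_conj hu₀) (U_conj hu₁) hw
    have h01' : D.b (sv cj u₀) (sv cj u₁) ≠ 0 := by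
      rw [D.b_sv]
      exact (map_ne_zero cj).2 h01
    have h2 := (Λ.U (be D) D.ω).smul_mem (D.b (sv cj u₀) (sv cj u₁))⁻¹ h1
    rwa [smul_smul, inv_mul_cancel₀ h01', one_smul] at h2
  -- the block
  let N : Submodule ℂ (m → ℂ) := Submodule.span ℂ {D.ω, β} ⊔ Λ.U D.ω β
  have hmemN : ∀ x, x ∈ N ↔ ∃ a b : ℂ, ∃ u ∈ Λ.U D.ω β, x = a • D.ω + b • β + u := by
    intro x
    constructor
    · intro hx
      obtain ⟨y, hy, u, hu, rfl⟩ := Submodule.mem_sup.1 hx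
      obtain ⟨a, b, rfl⟩ := Submodule.mem_span_pair.1 hy
      exact ⟨a, b, u, hu, rfl⟩
    · rintro ⟨a, b, u, hu, rfl⟩
      exact Submodule.add_mem_sup (Submodule.mem_span_pair.2 ⟨a, b, rfl⟩) hu
  have hωN : D.ω ∈ N := (hmemN _).2 ⟨1, 0, 0, Submodule.zero_mem _, by simp⟩
  have hβN : β ∈ N := (hmemN _).2 ⟨0, 1, 0, Submodule.zero_mem _, by simp⟩
  have hUN : ∀ u ∈ Λ.U D.ω β, u ∈ N := fun u hu => (hmemN _).2 ⟨0, 0, u, hu, by simp⟩
  have hmem : ∀ x ∈ N, ∀ y ∈ N, D.R x y ∈ Λ.L := by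
    -- one argument in the basic set
    have h1 : ∀ y ∈ N, D.R D.ω y ∈ Λ.L := by
      intro y hy
      obtain ⟨a, b, u, hu, rfl⟩ := (hmemN _).1 hy
      rw [D.R_add_right, D.R_add_right, D.R_smul_right, D.R_smul_right, D.R_self]
      exact Λ.L.add_mem (Λ.L.add_mem (Λ.L.smul_mem _ Λ.L.zero_mem) (Λ.L.smul_mem _ hyp.mem))
        hu.2.2
    have h2 : ∀ y ∈ N, D.R β y ∈ Λ.L := by
      intro y hy
      obtain ⟨a, b, u, hu, rfl⟩ := (hmemN _).1 hy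
      rw [D.R_add_right, D.R_add_right, D.R_smul_right, D.R_smul_right, D.R_self]
      exact Λ.L.add_mem (Λ.L.add_mem (Λ.L.smul_mem _ hyp.symm.mem) (Λ.L.smul_mem _ Λ.L.zero_mem))
        (hle' _ hu).2.2
    have h3 : ∀ u ∈ Λ.U D.ω β, ∀ y ∈ N, D.R u y ∈ Λ.L := by
      intro u hu y hy
      obtain ⟨a, b, w, hw, rfl⟩ := (hmemN _).1 hy
      rw [D.R_add_right, D.R_add_right, D.R_smul_right, D.R_smul_right]
      refine Λ.L.add_mem (Λ.L.add_mem (Λ.L.smul_mem _ ?_) (Λ.L.smul_mem _ ?_))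
        (hyp.mem_uw hu (hle' _ hw))
      · rw [D.R_swap]; exact Λ.L.neg_mem hu.2.2
      · rw [D.R_swap]; exact Λ.L.neg_mem (hle' _ hu).2.2
    intro x hx y hy
    obtain ⟨a, b, u, hu, rfl⟩ := (hmemN _).1 hx
    rw [D.R_add_left, D.R_add_left, D.R_smul_left, D.R_smul_left]
    exact Λ.L.add_mem (Λ.L.add_mem (Λ.L.smul_mem _ (h1 _ hy)) (Λ.L.smul_mem _ (h2 _ hy)))
      (h3 _ hu _ hy)
  refine ⟨N, ⟨?_, hmem, ?_⟩, hωN⟩
  · -- nondegenerate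
    intro x hx h0
    obtain ⟨a, b, u, hu, rfl⟩ := (hmemN _).1 hx
    have e1 := h0 _ hβN
    have e2 := h0 _ hωN
    have hu1 := hu.1
    have hu2 := hu.2.1
    rw [map_add, map_add, map_smul, map_smul] at e1 e2
    simp only [LinearMap.add_apply, LinearMap.smul_apply, smul_eq_mul] at e1 e2
    rw [hyp.αβ, hyp.ββ, D.b_symm u β, hu2] at e1
    rw [hyp.αα, hyp.symm.αβ, D.b_symm u D.ω, hu1] at e2
    have ha : a = 0 := by simpa using e1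
    have hb : b = 0 := by simpa using e2
    subst hβ
    have hcu : sv cj u ∈ N := hUN _ (hle _ (U_conj hu))
    have e3 := h0 _ hcu
    rw [ha, hb, zero_smul, zero_smul, zero_add, zero_add] at e3 ⊢
    exact an_U hu e3
  · -- stable
    have hRN : ∀ x ∈ N, ∀ y ∈ N, ∀ t, (D.R x y).1 *ᵥ t ∈ N := by
      intro x hx y hy t
      rw [D.R_one]
      exact N.sub_mem (N.smul_mem _ hx) (N.smul_mem _ hy)
    intro z hz
    have hzω : z.1 *ᵥ D.ω ∈ N := by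
      have h1 := (hyp.image hz).2
      have ha : D.b (z.1 *ᵥ D.ω) D.ω = 0 := by
        have h1 := (Λ.isZ z hz).1 D.ω D.ω
        rw [D.b_symm D.ω (z.1 *ᵥ D.ω)] at h1
        exact self_eq_neg.1 (eq_neg_of_add_eq_zero_left h1)
      have h2 := pj_eq (D := D) (α := D.ω) (β := β) (z.1 *ᵥ D.ω)
      rw [h2]
      exact N.add_mem (N.add_mem (N.smul_mem _ hωN) (N.smul_mem _ hβN)) (hUN _ (hle _ h1))
    have hzβ : z.1 *ᵥ β ∈ N := by
      have h1 := (hyp.image hz).1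
      have h2 := pj_eq (D := D) (α := D.ω) (β := β) (z.1 *ᵥ β)
      rw [h2]
      exact N.add_mem (N.add_mem (N.smul_mem _ hωN) (N.smul_mem _ hβN)) (hUN _ h1)
    intro x hx
    obtain ⟨a, b, u, hu, rfl⟩ := (hmemN _).1 hx
    rw [Matrix.mulVec_add, Matrix.mulVec_add, Matrix.mulVec_smul, Matrix.mulVec_smul]
    refine N.add_mem (N.add_mem (N.smul_mem _ hzω) (N.smul_mem _ hzβ)) ?_
    have hu3 : u = (D.R u β).1 *ᵥ D.ω := by
      rw [D.R_one, hyp.symm.αβ, one_smul, D.b_symm u D.ω, hu.1, zero_smul, sub_zero]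
    have h4 := br_R (Λ.isZ z hz) u β
    have h5 : z.1 *ᵥ ((D.R u β).1 *ᵥ D.ω) = (D.R u β).1 *ᵥ (z.1 *ᵥ D.ω) +
        (z * D.R u β - D.R u β * z).1 *ᵥ D.ω := by
      rw [Prod.fst_sub, Prod.fst_mul, Prod.fst_mul, Matrix.sub_mulVec, ← Matrix.mulVec_mulVec,
        ← Matrix.mulVec_mulVec]
      abel
    rw [hu3, h5]
    refine N.add_mem (hRN _ (hUN _ hu) _ hβN _) ?_
    -- the bracket is in the Lie algebra, so it maps the period to the block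
    have h6 : z * D.R u β - D.R u β * z ∈ Λ.L := Λ.br _ hz _ (hmem _ (hUN _ hu) _ hβN)
    have h7 := (hyp.image h6).2
    have h8 := pj_eq (D := D) (α := D.ω) (β := β) ((z * D.R u β - D.R u β * z).1 *ᵥ D.ω)
    rw [h8]
    exact N.add_mem (N.add_mem (N.smul_mem _ hωN) (N.smul_mem _ hβN)) (hUN _ (hle _ h7))

/-- Half of the second case. -/
lemma Hyp.stabW {α β : m → ℂ} (hyp : Λ.Hyp α β)
    (h0 : ∀ u ∈ Λ.U β α, ∀ u' ∈ Λ.U β α, D.b u u' = 0) {W : Submodule ℂ (m → ℂ)}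
    (hW : ∀ x, x ∈ W ↔ ∃ a : ℂ, ∃ u ∈ Λ.U β α, x = a • α + u) {z : Pr m n} (hz : z ∈ Λ.L)
    {x : m → ℂ} (hx : x ∈ W) : z.1 *ᵥ x ∈ W := by
  have hα : ∀ z ∈ Λ.L, z.1 *ᵥ α ∈ W := by
    intro z hz
    have h1 := (hyp.image hz).2
    have ha : D.b (z.1 *ᵥ α) α = 0 := by
      have h1 := (Λ.isZ z hz).1 α α
      rw [D.b_symm α (z.1 *ᵥ α)] at h1
      exact self_eq_neg.1 (eq_neg_of_add_eq_zero_left h1)
    have h2 := pj_eq (D := D) (α := α) (β := β) (z.1 *ᵥ α)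
    rw [ha, zero_smul, add_zero] at h2
    exact (hW _).2 ⟨_, _, h1, h2⟩
  obtain ⟨a, u, hu, rfl⟩ := (hW _).1 hx
  rw [Matrix.mulVec_add, Matrix.mulVec_smul]
  refine W.add_mem (W.smul_mem _ (hα z hz)) ?_
  have hu3 : u = (D.R u β).1 *ᵥ α := by
    rw [D.R_one, hyp.symm.αβ, one_smul, D.b_symm u α, hu.2.1, zero_smul, sub_zero]
  have hmem : D.R u β ∈ Λ.L := by
    rw [D.R_swap]; exact Λ.L.neg_mem hu.2.2
  have h5 : z.1 *ᵥ ((D.R u β).1 *ᵥ α) = (D.R u β).1 *ᵥ (z.1 *ᵥ α) +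
      (z * D.R u β - D.R u β * z).1 *ᵥ α := by
    rw [Prod.fst_sub, Prod.fst_mul, Prod.fst_mul, Matrix.sub_mulVec, ← Matrix.mulVec_mulVec,
      ← Matrix.mulVec_mulVec]
    abel
  rw [hu3, h5]
  refine W.add_mem ?_ (hα _ (Λ.br _ hz _ hmem))
  obtain ⟨a', u', hu', h6⟩ := (hW _).1 (hα z hz)
  rw [h6, D.R_one, map_add, map_smul, map_add, map_smul, hyp.symm.αβ, hu'.1, D.b_symm u α,
    hu.2.1, h0 _ hu _ hu']
  simp only [smul_zero, add_zero, zero_smul, sub_zero]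
  exact W.smul_mem _ ((hW _).2 ⟨0, u, hu, by simp⟩)

/-- The second case. -/
lemma exists_blkB (h : ∀ u ∈ Λ.U D.ω (be D), ∀ u' ∈ Λ.U D.ω (be D), D.b u u' = 0) :
    ∃ W W', Λ.BlkB W W' ∧ D.ω ∈ W := by
  have hyp : Λ.Hyp D.ω (be D) := hyp_be
  have h' : ∀ u ∈ Λ.U (be D) D.ω, ∀ u' ∈ Λ.U (be D) D.ω, D.b u u' = 0 := by
    intro u hu u' hu'
    have h1 := h _ (U_conj' hu) _ (U_conj' hu')
    rw [D.b_sv] at h1
    exact (map_eq_zero cj).1 h1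
  let W : Submodule ℂ (m → ℂ) := Submodule.span ℂ {D.ω} ⊔ Λ.U (be D) D.ω
  let W' : Submodule ℂ (m → ℂ) := Submodule.span ℂ {be D} ⊔ Λ.U D.ω (be D)
  have hW : ∀ x, x ∈ W ↔ ∃ a : ℂ, ∃ u ∈ Λ.U (be D) D.ω, x = a • D.ω + u := by
    intro x
    constructor
    · intro hx
      obtain ⟨y, hy, u, hu, rfl⟩ := Submodule.mem_sup.1 hx
      obtain ⟨a, rfl⟩ := Submodule.mem_span_singleton.1 hy
      exact ⟨a, u, hu, rfl⟩
    · rintro ⟨a, u, hu, rfl⟩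
      exact Submodule.add_mem_sup (Submodule.mem_span_singleton.2 ⟨a, rfl⟩) hu
  have hW' : ∀ x, x ∈ W' ↔ ∃ a : ℂ, ∃ u ∈ Λ.U D.ω (be D), x = a • be D + u := by
    intro x
    constructor
    · intro hx
      obtain ⟨y, hy, u, hu, rfl⟩ := Submodule.mem_sup.1 hx
      obtain ⟨a, rfl⟩ := Submodule.mem_span_singleton.1 hy
      exact ⟨a, u, hu, rfl⟩
    · rintro ⟨a, u, hu, rfl⟩
      exact Submodule.add_mem_sup (Submodule.mem_span_singleton.2 ⟨a, rfl⟩) hu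
  have hω : D.ω ∈ W := (hW _).2 ⟨1, 0, Submodule.zero_mem _, by simp⟩
  have hβ : be D ∈ W' := (hW' _).2 ⟨1, 0, Submodule.zero_mem _, by simp⟩
  refine ⟨W, W', ⟨?_, ?_, ?_, ?_, ?_, ?_, ?_⟩, hω⟩
  · intro x hx y hy
    obtain ⟨a, u, hu, rfl⟩ := (hW _).1 hx
    obtain ⟨b, v, hv, rfl⟩ := (hW _).1 hy
    simp only [map_add, map_smul, LinearMap.add_apply, LinearMap.smul_apply, smul_eq_mul]
    rw [hyp.αα, D.b_symm u D.ω, hu.2.1, hv.2.1, h' _ hu _ hv]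
    ring
  · intro x hx y hy
    obtain ⟨a, u, hu, rfl⟩ := (hW' _).1 hx
    obtain ⟨b, v, hv, rfl⟩ := (hW' _).1 hy
    simp only [map_add, map_smul, LinearMap.add_apply, LinearMap.smul_apply, smul_eq_mul]
    rw [hyp.ββ, D.b_symm u (be D), hu.2.1, hv.2.1, h _ hu _ hv]
    ring
  · intro x hx h0
    obtain ⟨a, u, hu, rfl⟩ := (hW _).1 hx
    have e1 := h0 _ hβ
    simp only [map_add, map_smul, LinearMap.add_apply, LinearMap.smul_apply, smul_eq_mul] at e1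
    rw [hyp.αβ, D.b_symm u (be D), hu.1] at e1
    have ha : a = 0 := by simpa using e1
    rw [ha, zero_smul, zero_add] at h0 ⊢
    exact an_U' hu (h0 _ ((hW' _).2 ⟨0, sv cj u, U_conj' hu, by simp⟩))
  · intro y hy h0
    obtain ⟨a, u, hu, rfl⟩ := (hW' _).1 hy
    have e1 := h0 _ hω
    simp only [map_add, map_smul, smul_eq_mul] at e1
    rw [hyp.αβ, hu.1] at e1
    have ha : a = 0 := by simpa using e1
    rw [ha, zero_smul, zero_add] at h0 ⊢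
    have e2 := h0 (sv cj u) ((hW _).2 ⟨0, sv cj u, U_conj hu, by simp⟩)
    rw [D.b_symm] at e2
    exact an_U hu e2
  · intro x hx y hy
    obtain ⟨a, u, hu, rfl⟩ := (hW _).1 hx
    obtain ⟨b, v, hv, rfl⟩ := (hW' _).1 hy
    rw [D.R_add_left, D.R_add_right, D.R_add_right, D.R_smul_left, D.R_smul_left,
      D.R_smul_right, D.R_smul_right]
    refine Λ.L.add_mem (Λ.L.add_mem (Λ.L.smul_mem _ (Λ.L.smul_mem _ hyp.mem))
      (Λ.L.smul_mem _ hv.2.2)) (Λ.L.add_mem (Λ.L.smul_mem _ ?_) ?_)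
    · rw [D.R_swap]; exact Λ.L.neg_mem hu.2.2
    · rw [D.R_swap]; exact Λ.L.neg_mem (hyp.mem_uw hv hu)
  · intro z hz x hx
    exact hyp.stabW h' hW hz hx
  · intro z hz x hx
    exact hyp.symm.stabW h hW' hz hx

end KD.LG

end Run7.h38.KS
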