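import Pool.Agent.Run7.h38.KS.Blk

/-!
# Blocks of orthogonal type
-/

set_option linter.unusedSectionVars false

namespace Run7.h38.KS

open Matrix ComplexConjugate

variable {m n : Type} [Fintype m] [DecidableEq m] [Fintype n] [DecidableEq n]

namespace KD

variable {D : KD m n}

/-! ### Orthonormal bases -/

lemma exists_onb (D : KD m n) (N : Submodule ℂ (m → ℂ))
    (nd : ∀ x ∈ N, (∀ y ∈ N, D.b x y = 0) → x = 0) :
    ∃ (d : ℕ) (e : Fin d → (m → ℂ)), (∀ i, e i ∈ N) ∧
      (∀ i j, D.b (e i) (e j) = if i = j then 1 else 0) ∧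
      ∀ x ∈ N, x = ∑ i, D.b (e i) x • e i := by
  classical
  let B : LinearMap.BilinForm ℂ N := D.b.restrict N
  have hB : ∀ x y : N, B x y = D.b x y := fun x y => rfl
  have hsymm : LinearMap.IsSymm B := ⟨fun x y => by
    change D.b x y = D.b y x
    exact D.b_symm _ _⟩
  have : Invertible (2 : ℂ) := invertibleOfNonzero two_ne_zero
  obtain ⟨v, hv⟩ := LinearMap.BilinForm.exists_orthogonal_basis hsymm
  have hv' : ∀ i j, i ≠ j → D.b (v i) (v j) = 0 := fun i j hij => hv hij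
  have hne : ∀ i, D.b (v i) (v i) ≠ 0 := by
    intro i h0
    have h1 : ∀ y : N, D.b (v i) y = 0 := by
      intro y
      rw [← v.sum_repr y, AddSubmonoidClass.coe_finsetSum, map_sum]
      refine Finset.sum_eq_zero fun j _ => ?_
      rw [Submodule.coe_smul, map_smul]
      by_cases hij : i = j
      · subst hij; rw [h0, smul_zero]
      · rw [hv' i j hij, smul_zero]
    have h2 := nd (v i) (v i).2 fun y hy => h1 ⟨y, hy⟩
    exact v.ne_zero i (Subtype.ext h2)
  choose s hs using fun i => IsSquare.exists_mul_self (a := D.b (v i) (v i))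
    (IsAlgClosed.exists_eq_mul_self _)
  have hs0 : ∀ i, s i ≠ 0 := by
    intro i h0
    apply hne i
    rw [hs i, h0, mul_zero]
  refine ⟨_, fun i => (s i)⁻¹ • (v i : m → ℂ), fun i => N.smul_mem _ (v i).2, ?_, ?_⟩
  · intro i j
    simp only [map_smul, LinearMap.smul_apply, smul_eq_mul]
    by_cases hij : i = j
    · subst hij
      rw [if_pos rfl, hs i]
      have := hs0 i
      field_simp
    · rw [if_neg hij, hv' i j hij, mul_zero, mul_zero]
  · intro x hx
    have h1 := congrArg (Subtype.val) (v.sum_repr ⟨x, hx⟩)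
    rw [AddSubmonoidClass.coe_finsetSum] at h1
    have h2 : ∀ i, D.b (v i) x = D.b (v i) (v i) * v.repr ⟨x, hx⟩ i := by
      intro i
      conv_lhs => rw [← show ∑ j, ((v.repr ⟨x, hx⟩ j • v j : N) : m → ℂ) = x from h1]
      rw [map_sum, Finset.sum_eq_single i]
      · rw [Submodule.coe_smul, map_smul, smul_eq_mul, mul_comm]
      · intro j _ hj
        rw [Submodule.coe_smul, map_smul, hv' i j (Ne.symm hj), smul_zero]
      · intro h; exact absurd (Finset.mem_univ _) h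
    conv_lhs => rw [← show ∑ j, ((v.repr ⟨x, hx⟩ j • v j : N) : m → ℂ) = x from h1]
    refine Finset.sum_congr rfl fun i _ => ?_
    rw [Submodule.coe_smul, map_smul, LinearMap.smul_apply, smul_eq_mul, h2, smul_smul, hs i]
    congr 1
    have := hs0 i
    field_simp

/-! ### Volume elements -/

/-- The product of the vectors of a list. -/
noncomputable def vol (D : KD m n) (l : List (m → ℂ)) : Matrix n n ℂ := (l.map D.kap).prod

lemma vol_cons (a : m → ℂ) (l : List (m → ℂ)) : D.vol (a :: l) = D.kap a * D.vol l := by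
  rw [vol, List.map_cons, List.prod_cons]
  rfl

lemma vol_orth {l : List (m → ℂ)} {t : m → ℂ} (h : ∀ x ∈ l, D.b x t = 0) :
    D.vol l * D.kap t = ((-1 : ℂ) ^ l.length) • (D.kap t * D.vol l) := by
  induction l with
  | nil => simp [vol]
  | cons a l ih =>
    rw [vol_cons, mul_assoc, ih fun x hx => h x (List.mem_cons_of_mem _ hx), mul_smul_comm,
      ← mul_assoc, D.kap_anti (h a List.mem_cons_self), List.length_cons, pow_succ,
      neg_mul, mul_neg_one, neg_smul, smul_neg, mul_assoc]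

lemma vol_mem {l : List (m → ℂ)} (hl : l.Pairwise fun x y => D.b x y = 0) {t : m → ℂ}
    (h : t ∈ l) : D.vol l * D.kap t = (-(-1 : ℂ) ^ l.length) • (D.kap t * D.vol l) := by
  induction l with
  | nil => exact absurd h List.not_mem_nil
  | cons a l ih =>
    rw [List.pairwise_cons] at hl
    rcases List.mem_cons.1 h with rfl | h'
    · rw [vol_cons, mul_assoc, vol_orth fun x hx => by rw [D.b_symm]; exact hl.1 x hx,
        mul_smul_comm, List.length_cons, pow_succ, mul_neg_one, neg_neg]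
    · rw [vol_cons, mul_assoc, ih hl.2 h', mul_smul_comm, ← mul_assoc,
        D.kap_anti (hl.1 t h'), List.length_cons, pow_succ, mul_neg_one, neg_neg, neg_mul,
        neg_smul, smul_neg, neg_neg, mul_assoc]

lemma vol_inv {l : List (m → ℂ)} (h : ∀ x ∈ l, D.b x x = 1) :
    ∃ M : Matrix n n ℂ, D.vol l * M = 1 := by
  induction l with
  | nil => exact ⟨1, by simp [vol]⟩
  | cons a l ih =>
    obtain ⟨M, hM⟩ := ih fun x hx => h x (List.mem_cons_of_mem _ hx)
    refine ⟨M * ((D.c : ℂ)⁻¹ • D.kap a), ?_⟩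
    rw [vol_cons, mul_assoc, ← mul_assoc (D.vol l), hM, one_mul, mul_smul_comm, D.kap_sq,
      h a List.mem_cons_self, mul_one, smul_smul, inv_mul_cancel₀ D.hc', one_smul]

lemma IsP.vol {p : Pr m n} (hp : D.IsP p) (l : List (m → ℂ)) :
    p.2 * D.vol l = D.vol (l.map fun x => p.1 *ᵥ x) * p.2 := by
  induction l with
  | nil => simp [KD.vol]
  | cons a l ih =>
    rw [vol_cons, List.map_cons, vol_cons, ← mul_assoc, hp.kap, mul_assoc, ih, mul_assoc]

lemma IsP.inv' {p : Pr m n} (hp : D.IsP p) : ∃ q : Matrix n n ℂ, p.2 * q = 1 ∧ q * p.2 = 1 := by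
  obtain ⟨q, hq⟩ := hp.inv
  exact ⟨q, hq, mul_eq_one_comm.1 hq⟩

lemma IsP.mul {p q : Pr m n} (hp : D.IsP p) (hq : D.IsP q) : D.IsP (p * q) where
  orth u v := by
    rw [Prod.fst_mul, ← Matrix.mulVec_mulVec, ← Matrix.mulVec_mulVec, hp.orth, hq.orth]
  kap t := by
    rw [Prod.fst_mul, Prod.snd_mul, mul_assoc, hq.kap, ← mul_assoc, hp.kap, mul_assoc,
      Matrix.mulVec_mulVec]
  inv := by
    obtain ⟨a, ha⟩ := hp.inv
    obtain ⟨b, hb⟩ := hq.inv
    refine ⟨b * a, ?_⟩
    rw [Prod.snd_mul, mul_assoc, ← mul_assoc q.2, hb, one_mul, ha]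

/-- Elements which commute with the generators commute with the algebra. -/
lemma comm_AA {Z : Matrix n n ℂ} (h : ∀ σ : ℂ ≃+* ℂ,
    Z * (D.R (sv σ D.ω) (sv σ (sv cj D.ω))).2 = (D.R (sv σ D.ω) (sv σ (sv cj D.ω))).2 * Z)
    {X : Matrix n n ℂ} (hX : X ∈ D.AA) : Z * X = X * Z := by
  have h1 : D.AA ≤ Subalgebra.centralizer ℂ {Z} := by
    refine Algebra.adjoin_le ?_
    rintro _ ⟨σ, rfl⟩
    rw [SetLike.mem_coe, Subalgebra.mem_centralizer_iff]
    intro g hg
    rw [Set.mem_singleton_iff.1 hg]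
    exact h σ
  exact (Subalgebra.mem_centralizer_iff ℂ).1 (h1 hX) Z (Set.mem_singleton _)

/-- The component in a subspace with an orthonormal basis. -/
noncomputable def prN (D : KD m n) {d : ℕ} (e : Fin d → (m → ℂ)) (x : m → ℂ) : m → ℂ :=
  ∑ i, D.b (e i) x • e i

lemma prN_orth {d : ℕ} {e : Fin d → (m → ℂ)}
    (he : ∀ i j, D.b (e i) (e j) = if i = j then 1 else 0) (x : m → ℂ) (j : Fin d) :
    D.b (e j) (x - D.prN e x) = 0 := by
  rw [map_sub, prN, map_sum, Finset.sum_eq_single j]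
  · rw [map_smul, he, if_pos rfl, smul_eq_mul, mul_one, sub_self]
  · intro i _ hi
    rw [map_smul, he, if_neg (Ne.symm hi), smul_zero]
  · intro h; exact absurd (Finset.mem_univ _) h

end KD

open KD

namespace KD.LG

variable {D : KD m n} {Λ : LG D}

/-- Hyperbolic pairs are contained in the block or orthogonal to it. -/
lemma dich {N : Submodule ℂ (m → ℂ)} {d : ℕ} {e : Fin d → (m → ℂ)} (heN : ∀ i, e i ∈ N)
    (he : ∀ i j, D.b (e i) (e j) = if i = j then 1 else 0)
    (hN : ∀ x ∈ N, x = ∑ i, D.b (e i) x • e i) (stab : ∀ z ∈ Λ.L, ∀ x ∈ N, z.1 *ᵥ x ∈ N)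
    {α β : m → ℂ} (h : Λ.Hyp α β) :
    (α ∈ N ∧ β ∈ N) ∨ ((∀ i, D.b (e i) α = 0) ∧ ∀ i, D.b (e i) β = 0) := by
  classical
  have hpr : ∀ x, D.prN e x ∈ N := fun x => N.sum_mem fun i _ => N.smul_mem _ (heN i)
  have horth : ∀ x, ∀ y ∈ N, D.b (x - D.prN e x) y = 0 := by
    intro x y hy
    rw [hN y hy, map_sum]
    refine Finset.sum_eq_zero fun i _ => ?_
    rw [map_smul, D.b_symm (x - D.prN e x), D.prN_orth he, smul_zero]
  -- the components orthogonal to the block
  have key : ∀ x ∈ N, D.b β x • (α - D.prN e α) = D.b α x • (β - D.prN e β) := by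
    intro x hx
    have h1 : D.b β x • α - D.b α x • β ∈ N := by
      rw [← D.R_one]
      exact stab _ h.mem x hx
    have h2 : D.b β x • (α - D.prN e α) - D.b α x • (β - D.prN e β) ∈ N := by
      have h3 : D.b β x • (α - D.prN e α) - D.b α x • (β - D.prN e β) =
          (D.b β x • α - D.b α x • β) - (D.b β x • D.prN e α - D.b α x • D.prN e β) := by
        rw [smul_sub, smul_sub]; abel
      rw [h3]
      exact N.sub_mem h1 (N.sub_mem (N.smul_mem _ (hpr _)) (N.smul_mem _ (hpr _)))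
    have h4 := hN _ h2
    have h5 : ∀ i, D.b (e i) (D.b β x • (α - D.prN e α) - D.b α x • (β - D.prN e β)) = 0 := by
      intro i
      rw [map_sub, map_smul, map_smul, D.prN_orth he, D.prN_orth he, smul_zero, smul_zero,
        sub_self]
    rw [Finset.sum_eq_zero fun i _ => by rw [h5, zero_smul]] at h4
    exact sub_eq_zero.1 h4
  by_cases hα : ∀ i, D.b (e i) α = 0
  · by_cases hβ : ∀ i, D.b (e i) β = 0
    · exact Or.inr ⟨hα, hβ⟩
    · exfalso
      push Not at hβ
      obtain ⟨i, hi⟩ := hβ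
      have h1 := key _ (heN i)
      rw [D.b_symm α (e i), hα i, zero_smul, D.b_symm β (e i)] at h1
      have h2 : α - D.prN e α = 0 := (smul_eq_zero.1 h1).resolve_left hi
      have h3 : D.prN e α = 0 := Finset.sum_eq_zero fun i _ => by rw [hα i, zero_smul]
      rw [h3, sub_zero] at h2
      have h4 := h.αβ
      rw [h2, map_zero, LinearMap.zero_apply] at h4
      exact zero_ne_one h4
  · push Not at hα
    obtain ⟨i, hi⟩ := hα
    left
    -- β - pr β is a multiple of α - pr α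
    obtain ⟨μ, hμ⟩ : ∃ μ : ℂ, β - D.prN e β = μ • (α - D.prN e α) := by
      have h1 := key _ (heN i)
      refine ⟨(D.b α (e i))⁻¹ * D.b β (e i), ?_⟩
      rw [mul_smul, h1, smul_smul, D.b_symm α (e i), inv_mul_cancel₀ hi, one_smul]
    by_cases h0 : α - D.prN e α = 0
    · rw [h0, smul_zero] at hμ
      rw [sub_eq_zero] at h0 hμ
      exact ⟨h0 ▸ hpr _, hμ ▸ hpr _⟩
    · exfalso
      -- then `b β x = μ b α x` on the block
      have h1 : ∀ x ∈ N, D.b β x = μ * D.b α x := by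
        intro x hx
        have h2 := key x hx
        rw [hμ, smul_smul, ← sub_eq_zero, ← sub_smul] at h2
        have h3 := (smul_eq_zero.1 h2).resolve_right h0
        rw [sub_eq_zero] at h3
        rw [h3, mul_comm]
      have h2 : D.prN e β = μ • D.prN e α := by
        rw [prN, prN, Finset.smul_sum]
        refine Finset.sum_congr rfl fun j _ => ?_
        rw [smul_smul, D.b_symm (e j) β, h1 _ (heN j), D.b_symm (e j) α]
      have h3 : β = μ • α := by
        have h4 : β = (β - D.prN e β) + D.prN e β := by abel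
        rw [h4, hμ, h2, ← smul_add]
        congr 1
        abel
      have h4 := h.αβ
      rw [h3, map_smul, h.αα, smul_zero] at h4
      exact zero_ne_one h4

/-- The first move. -/
lemma move1 {N : Submodule ℂ (m → ℂ)} (mem : ∀ x ∈ N, ∀ y ∈ N, D.R x y ∈ Λ.L) {x f : m → ℂ}
    (hx : x ∈ N) (hf : f ∈ N) (hxx : D.b x x = 1) (hff : D.b f f = 1) (hxf : D.b x f ≠ -1) :
    ∃ r ∈ Λ.G, r.1 *ᵥ x = f ∧ ∀ t, D.b x t = 0 → D.b f t = 0 → r.1 *ᵥ t = t := by
  by_cases h1 : D.b x f = 1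
  · have h1' : D.b f x = 1 := by rw [D.b_symm, h1]
    refine ⟨_, Λ.exp _ (mem _ (N.sub_mem hf hx) _ hx), ?_, ?_⟩
    · have e1 : (D.R (f - x) x).1 *ᵥ x = f - x := by
        rw [D.R_one, hxx, one_smul, map_sub, LinearMap.sub_apply, h1', hxx, sub_self, zero_smul,
          sub_zero]
      have e2 : (D.R (f - x) x).1 *ᵥ ((D.R (f - x) x).1 *ᵥ x) = 0 := by
        rw [e1, D.R_one]
        simp only [map_sub, LinearMap.sub_apply]
        rw [h1, h1', hxx, hff]
        simp
      change NormedSpace.exp (D.R (f - x) x).1 *ᵥ x = f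
      rw [exp_nil e2, e1]
      abel
    · intro t h3 h4
      change NormedSpace.exp (D.R (f - x) x).1 *ᵥ t = t
      apply exp_ker
      rw [D.R_one, h3, map_sub, LinearMap.sub_apply, h3, h4, sub_self, zero_smul, zero_smul,
        sub_self]
  · obtain ⟨c, hc⟩ : ∃ c, c = D.b x f := ⟨_, rfl⟩
    have hc1 : c ≠ 1 := by rw [hc]; exact h1
    have hc2 : c ≠ -1 := by rw [hc]; exact hxf
    have hcs : 1 - c * c ≠ 0 := by
      intro h0
      have h2 : (1 - c) * (1 + c) = 0 := by linear_combination h0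
      rcases mul_eq_zero.1 h2 with h3 | h3
      · exact hc1 (by linear_combination -h3)
      · exact hc2 (by linear_combination h3)
    obtain ⟨s, hs⟩ := IsAlgClosed.exists_eq_mul_self (1 - c * c)
    have hs0 : s ≠ 0 := by
      rintro rfl
      exact hcs (by rw [hs, mul_zero])
    obtain ⟨g, hg⟩ : ∃ g, g = s⁻¹ • (f - c • x) := ⟨_, rfl⟩
    have hgN : g ∈ N := by rw [hg]; exact N.smul_mem _ (N.sub_mem hf (N.smul_mem _ hx))
    have hfx : D.b f x = c := by rw [D.b_symm, hc]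
    have hxg : D.b x g = 0 := by
      rw [hg, map_smul, map_sub, map_smul, hxx, ← hc]
      simp
    have hgx : D.b g x = 0 := by rw [D.b_symm, hxg]
    have hgg : D.b g g = 1 := by
      rw [hg]
      simp only [map_smul, map_sub, LinearMap.smul_apply, LinearMap.sub_apply, smul_eq_mul]
      rw [hff, hfx, hxx, ← hc]
      field_simp
      linear_combination hs
    obtain ⟨w, hw⟩ : ∃ w, w = c + Complex.I * s := ⟨_, rfl⟩
    have hww : w * (c - Complex.I * s) = 1 := by
      rw [hw]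
      linear_combination (-1 : ℂ) * hs - s * s * Complex.I_mul_I
    have hw0 : w ≠ 0 := left_ne_zero_of_mul_eq_one hww
    obtain ⟨μ, hμ⟩ : ∃ μ : ℂ, Complex.exp μ = w := ⟨Complex.log w, Complex.exp_log hw0⟩
    have hμ' : Complex.exp (-μ) = c - Complex.I * s := by
      rw [Complex.exp_neg, hμ]
      exact (eq_inv_of_mul_eq_one_right hww).symm
    have hmem : (-(Complex.I * μ)) • D.R g x ∈ Λ.L := Λ.L.smul_mem _ (mem _ hgN _ hx)
    refine ⟨_, Λ.exp _ hmem, ?_, ?_⟩
    · have hRx : (D.R g x).1 *ᵥ x = g := by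
        rw [D.R_one, hxx, hgx, one_smul, zero_smul, sub_zero]
      have hRg : (D.R g x).1 *ᵥ g = -x := by
        rw [D.R_one, hxg, hgg, one_smul, zero_smul, zero_sub]
      have e1 : ((-(Complex.I * μ)) • D.R g x).1 *ᵥ (x + Complex.I • g) =
          (-μ) • (x + Complex.I • g) := by
        rw [Prod.smul_fst, Matrix.smul_mulVec, Matrix.mulVec_add, Matrix.mulVec_smul, hRx, hRg]
        have e : (-(Complex.I * μ)) • (g + Complex.I • -x) =
            (-(Complex.I * μ)) • g + (Complex.I * μ * Complex.I) • x := by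
          rw [smul_add, smul_smul, smul_neg, ← neg_smul]
          congr 2
          ring
        rw [e, smul_add, smul_smul]
        have e' : Complex.I * μ * Complex.I = -μ := by
          linear_combination μ * Complex.I_mul_I
        have e'' : -(Complex.I * μ) = -μ * Complex.I := by ring
        rw [e', e'']
        abel
      have e2 : ((-(Complex.I * μ)) • D.R g x).1 *ᵥ (x - Complex.I • g) =
          μ • (x - Complex.I • g) := by
        rw [Prod.smul_fst, Matrix.smul_mulVec, Matrix.mulVec_sub, Matrix.mulVec_smul, hRx, hRg]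
        have e : (-(Complex.I * μ)) • (g - Complex.I • -x) =
            (-(Complex.I * μ)) • g + (-(Complex.I * μ * Complex.I)) • x := by
          rw [smul_sub, smul_smul, smul_neg, ← neg_smul, sub_eq_add_neg, ← neg_smul]
          congr 2
          ring
        rw [e, smul_sub, smul_smul]
        have e' : -(Complex.I * μ * Complex.I) = μ := by
          linear_combination (-μ) * Complex.I_mul_I
        have e'' : -(Complex.I * μ) = -(μ * Complex.I) := by ring
        rw [e', e'', neg_smul]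
        abel
      have e3 := exp_eig e1
      have e4 := exp_eig e2
      have e5 : x = (2 : ℂ)⁻¹ • ((x + Complex.I • g) + (x - Complex.I • g)) := by
        rw [add_add_sub_cancel, ← two_smul ℂ x, smul_smul, inv_mul_cancel₀ two_ne_zero, one_smul]
      change NormedSpace.exp ((-(Complex.I * μ)) • D.R g x).1 *ᵥ x = f
      obtain ⟨E, hE⟩ : ∃ E, E = NormedSpace.exp ((-(Complex.I * μ)) • D.R g x).1 := ⟨_, rfl⟩
      rw [← hE] at e3 e4 ⊢
      conv_lhs => rw [e5]
      rw [Matrix.mulVec_smul, Matrix.mulVec_add, e3, e4, hμ, hμ', hw]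
      have e6 : f = c • x + s • g := by
        rw [hg, smul_smul, mul_inv_cancel₀ hs0, one_smul]
        abel
      rw [e6]
      ext i
      simp only [Pi.smul_apply, Pi.add_apply, Pi.sub_apply, smul_eq_mul]
      linear_combination (-(s * g i)) * Complex.I_mul_I
    · intro t h3 h4
      change NormedSpace.exp ((-(Complex.I * μ)) • D.R g x).1 *ᵥ t = t
      apply exp_ker
      have h5 : D.b g t = 0 := by
        rw [hg, map_smul, LinearMap.smul_apply, map_sub, LinearMap.sub_apply, map_smul,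
          LinearMap.smul_apply, h3, h4, smul_zero, sub_zero, smul_zero]
      rw [Prod.smul_fst, Matrix.smul_mulVec, D.R_one, h3, h5, zero_smul, zero_smul, sub_self,
        smul_zero]

/-- The second move. -/
lemma move2 {N : Submodule ℂ (m → ℂ)} (mem : ∀ x ∈ N, ∀ y ∈ N, D.R x y ∈ Λ.L) {x f g : m → ℂ}
    (hx : x ∈ N) (hf : f ∈ N) (hg : g ∈ N) (hxx : D.b x x = 1) (hff : D.b f f = 1)
    (hgg : D.b g g = 1) (hxg : D.b x g = 0) :
    ∃ r ∈ Λ.G, r.1 *ᵥ x = f ∧ ∀ t, D.b x t = 0 → D.b f t = 0 → D.b g t = 0 →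
      r.1 *ᵥ t = t := by
  by_cases h : D.b x f = -1
  · have hgx : D.b g x = 0 := by rw [D.b_symm, hxg]
    obtain ⟨r₁, hr₁, h1, h1'⟩ := move1 mem hx hg hxx hgg (by rw [hxg]; norm_num)
    obtain ⟨r₂, hr₂, h2, h2'⟩ := move1 mem hg (N.neg_mem hx) hgg
      (by rw [map_neg, map_neg, LinearMap.neg_apply, hxx, neg_neg])
      (by rw [map_neg, hgx]; norm_num)
    obtain ⟨r₃, hr₃, h3, h3'⟩ := move1 mem (N.neg_mem hx) hf
      (by rw [map_neg, map_neg, LinearMap.neg_apply, hxx, neg_neg]) hff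
      (by rw [map_neg, LinearMap.neg_apply, h]; norm_num)
    refine ⟨r₃ * (r₂ * r₁), Λ.G.mul_mem hr₃ (Λ.G.mul_mem hr₂ hr₁), ?_, ?_⟩
    · rw [Prod.fst_mul, Prod.fst_mul, ← Matrix.mulVec_mulVec, ← Matrix.mulVec_mulVec, h1, h2, h3]
    · intro t ht1 ht2 ht3
      have ht4 : D.b (-x) t = 0 := by rw [map_neg, LinearMap.neg_apply, ht1, neg_zero]
      rw [Prod.fst_mul, Prod.fst_mul, ← Matrix.mulVec_mulVec, ← Matrix.mulVec_mulVec,
        h1' t ht1 ht3, h2' t ht3 ht4, h3' t ht4 ht2]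
  · obtain ⟨r, hr, h1, h2⟩ := move1 mem hx hf hxx hff h
    exact ⟨r, hr, h1, fun t h3 h4 _ => h2 t h3 h4⟩

/-- The volume element commutes with the algebra. -/
lemma vol_comm {N : Submodule ℂ (m → ℂ)} {d : ℕ} {e : Fin d → (m → ℂ)} (heN : ∀ i, e i ∈ N)
    (he : ∀ i j, D.b (e i) (e j) = if i = j then 1 else 0)
    (hN : ∀ x ∈ N, x = ∑ i, D.b (e i) x • e i) (stab : ∀ z ∈ Λ.L, ∀ x ∈ N, z.1 *ᵥ x ∈ N) :
    (∀ x ∈ N, D.vol (List.ofFn e) * D.kap x =
      (-(-1 : ℂ) ^ d) • (D.kap x * D.vol (List.ofFn e))) ∧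
    (∀ x, (∀ i, D.b (e i) x = 0) → D.vol (List.ofFn e) * D.kap x =
      ((-1 : ℂ) ^ d) • (D.kap x * D.vol (List.ofFn e))) ∧
    ∀ X ∈ D.AA, D.vol (List.ofFn e) * X = X * D.vol (List.ofFn e) := by
  have hpw : (List.ofFn e).Pairwise fun x y => D.b x y = 0 := by
    rw [List.pairwise_ofFn]
    intro i j hij
    rw [he, if_neg hij.ne]
  have h1 : ∀ x ∈ N, D.vol (List.ofFn e) * D.kap x =
      (-(-1 : ℂ) ^ d) • (D.kap x * D.vol (List.ofFn e)) := by
    intro x hx
    rw [hN x hx, map_sum, Finset.mul_sum, Finset.sum_mul, Finset.smul_sum]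
    refine Finset.sum_congr rfl fun i _ => ?_
    have h2 := vol_mem hpw (t := e i) (by rw [List.mem_ofFn]; exact ⟨i, rfl⟩)
    rw [List.length_ofFn] at h2
    rw [map_smul, mul_smul_comm, h2, smul_mul_assoc, smul_comm]
  have h2 : ∀ x, (∀ i, D.b (e i) x = 0) → D.vol (List.ofFn e) * D.kap x =
      ((-1 : ℂ) ^ d) • (D.kap x * D.vol (List.ofFn e)) := by
    intro x hx
    have h3 := vol_orth (D := D) (l := List.ofFn e) (t := x) fun y hy => by
      obtain ⟨i, rfl⟩ := List.mem_ofFn.1 hy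
      exact hx i
    rwa [List.length_ofFn] at h3
  refine ⟨h1, h2, fun X hX => comm_AA (fun σ => ?_) hX⟩
  obtain ⟨K, hK⟩ : ∃ K, K = D.vol (List.ofFn e) := ⟨_, rfl⟩
  rw [← hK] at h1 h2 ⊢
  have hyp : Λ.Hyp (KS.sv σ D.ω) (KS.sv σ (be D)) :=
    { αα := by rw [D.b_sv, D.ωω, map_zero]
      ββ := by rw [D.b_sv, (hyp_be (Λ := Λ)).ββ, map_zero]
      αβ := by rw [D.b_sv, (hyp_be (Λ := Λ)).αβ, map_one]
      mem := by rw [D.R_sv]; exact Λ.gal _ _ (hyp_be (Λ := Λ)).mem }
  -- commutation with products of two elements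
  have hcomm : ∀ (ε : ℂ) (x y : m → ℂ), ε * ε = 1 → K * D.kap x = ε • (D.kap x * K) →
      K * D.kap y = ε • (D.kap y * K) → K * (D.kap x * D.kap y) = D.kap x * D.kap y * K := by
    intro ε x y hε hx hy
    rw [← mul_assoc, hx, smul_mul_assoc, mul_assoc, hy, mul_smul_comm, smul_smul, hε, one_smul,
      mul_assoc]
  have hR : ∀ (ε : ℂ) (x y : m → ℂ), ε * ε = 1 → K * D.kap x = ε • (D.kap x * K) →
      K * D.kap y = ε • (D.kap y * K) → K * (D.R x y).2 = (D.R x y).2 * K := by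
    intro ε x y hε hx hy
    rw [D.R_two, mul_smul_comm, smul_mul_assoc, mul_sub, sub_mul, hcomm ε x y hε hx hy,
      hcomm ε y x hε hy hx]
  have hε : ((-1 : ℂ) ^ d) * (-1 : ℂ) ^ d = 1 := by
    rw [← mul_pow, neg_one_mul, neg_neg, one_pow]
  have hfin : K * (D.R (KS.sv σ D.ω) (KS.sv σ (be D))).2 =
      (D.R (KS.sv σ D.ω) (KS.sv σ (be D))).2 * K := by
    rcases dich heN he hN stab hyp with ⟨ha, hb⟩ | ⟨ha, hb⟩
    · exact hR _ _ _ (by rw [neg_mul_neg]; exact hε) (h1 _ ha) (h1 _ hb)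
    · exact hR _ _ _ hε (h2 _ ha) (h2 _ hb)
  have hbe : KS.sv σ (sv cj D.ω) = σ (D.b D.ω (sv cj D.ω)) • KS.sv σ (be D) := by
    rw [be, sv_smul, smul_smul, ← map_mul, mul_inv_cancel₀ D.ne, map_one, one_smul]
  rw [hbe, D.R_smul_right, Prod.smul_snd, mul_smul_comm, hfin, smul_mul_assoc]

/-- Transformations preserve the blocks of orthogonal type. -/
lemma presA [Nonempty n] {N : Submodule ℂ (m → ℂ)} {d : ℕ} {e : Fin d → (m → ℂ)}
    (heN : ∀ i, e i ∈ N) (he : ∀ i j, D.b (e i) (e j) = if i = j then 1 else 0)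
    (hN : ∀ x ∈ N, x = ∑ i, D.b (e i) x • e i) (stab : ∀ z ∈ Λ.L, ∀ x ∈ N, z.1 *ᵥ x ∈ N)
    {p : Pr m n} (hp : D.IsP p) (hpA : p.2 ∈ D.AA) {x : m → ℂ} (hx : x ∈ N) :
    p.1 *ᵥ x ∈ N := by
  obtain ⟨h1, h2, h3⟩ := vol_comm heN he hN stab
  have hKi := vol_inv (D := D) (l := List.ofFn e) fun y hy => by
    obtain ⟨i, rfl⟩ := List.mem_ofFn.1 hy
    rw [he, if_pos rfl]
  obtain ⟨K, hK⟩ : ∃ K, K = D.vol (List.ofFn e) := ⟨_, rfl⟩
  rw [← hK] at h1 h2 h3 hKi
  obtain ⟨Ki, hKi⟩ := hKi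
  obtain ⟨q, hq, hq'⟩ := hp.inv'
  obtain ⟨ε, hε⟩ : ∃ ε : ℂ, ε = (-1) ^ d := ⟨_, rfl⟩
  rw [← hε] at h1 h2
  have hε0 : ε ≠ 0 := by rw [hε]; exact pow_ne_zero _ (neg_ne_zero.2 one_ne_zero)
  have hpr : D.prN e (p.1 *ᵥ x) ∈ N := N.sum_mem fun i _ => N.smul_mem _ (heN i)
  have h4 : K * D.kap (p.1 *ᵥ x) = (-ε) • (D.kap (p.1 *ᵥ x) * K) := by
    have h5 : D.kap (p.1 *ᵥ x) = p.2 * D.kap x * q := by
      rw [hp.kap, mul_assoc, hq, mul_one]
    have h6 : q * K = K * q := by
      calc q * K = q * (K * p.2) * q := by rw [mul_assoc, mul_assoc, hq, mul_one]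
        _ = q * (p.2 * K) * q := by rw [h3 _ hpA]
        _ = K * q := by rw [← mul_assoc q, hq', one_mul]
    rw [h5]
    calc K * (p.2 * D.kap x * q) = (K * p.2) * D.kap x * q := by simp only [mul_assoc]
      _ = p.2 * (K * D.kap x) * q := by rw [h3 _ hpA]; simp only [mul_assoc]
      _ = (-ε) • (p.2 * D.kap x * (K * q)) := by
          rw [h1 x hx]; simp only [mul_smul_comm, smul_mul_assoc, mul_assoc]
      _ = _ := by rw [← h6]; simp only [mul_assoc]
  have h5 := h1 _ hpr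
  have h6 := h2 (p.1 *ᵥ x - D.prN e (p.1 *ᵥ x)) (D.prN_orth he _)
  have h7 : D.kap (p.1 *ᵥ x) = D.kap (D.prN e (p.1 *ᵥ x)) +
      D.kap (p.1 *ᵥ x - D.prN e (p.1 *ᵥ x)) := by
    rw [← map_add, add_sub_cancel]
  obtain ⟨y, hy⟩ : ∃ y, y = p.1 *ᵥ x - D.prN e (p.1 *ᵥ x) := ⟨_, rfl⟩
  rw [← hy] at h6 h7
  rw [h7, mul_add, h5, h6, add_mul, smul_add] at h4
  have h8 : (2 * ε) • (D.kap y * K) = 0 := by
    have h9 := add_left_cancel h4
    rw [neg_smul, ← sub_eq_zero, sub_neg_eq_add, ← two_smul ℂ, smul_smul] at h9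
    exact h9
  have h9 : D.kap y * K = 0 :=
    (smul_eq_zero.1 h8).resolve_left (mul_ne_zero two_ne_zero hε0)
  have h10 : D.kap y = 0 := by
    have := congrArg (fun M => M * Ki) h9
    simp only [zero_mul, mul_assoc, hKi, mul_one] at this
    exact this
  have h11 : y = 0 := kap_inj inferInstance h10
  rw [h11, eq_comm, sub_eq_zero] at hy
  rw [hy]
  exact hpr

/-- **Blocks of orthogonal type.** -/
theorem BlkA.move [Nonempty n] {N : Submodule ℂ (m → ℂ)} (h : Λ.BlkA N) {p : Pr m n}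
    (hp : D.IsP p) (hpA : p.2 ∈ D.AA) : (∀ x ∈ N, p.1 *ᵥ x ∈ N) ∧
      ∃ r ∈ Λ.G, (∀ x ∈ N, r.1 *ᵥ x = p.1 *ᵥ x) ∧
        ∀ x, (∀ y ∈ N, D.b y x = 0) → r.1 *ᵥ x = x := by
  obtain ⟨d, e, heN, he, hN⟩ := D.exists_onb N h.nd
  have hpres : ∀ q : Pr m n, D.IsP q → q.2 ∈ D.AA → ∀ x ∈ N, q.1 *ᵥ x ∈ N :=
    fun q hq hqA x hx => presA heN he hN h.stab hq hqA hx
  refine ⟨hpres p hp hpA, ?_⟩
  -- moving the first basis vectors
  have key : ∀ k, k + 1 ≤ d → ∃ r ∈ Λ.G, (∀ i : Fin d, (i : ℕ) < k → r.1 *ᵥ e i = p.1 *ᵥ e i) ∧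
      ∀ x, (∀ y ∈ N, D.b y x = 0) → r.1 *ᵥ x = x := by
    intro k
    induction k with
    | zero =>
      intro _
      refine ⟨1, Λ.G.one_mem, fun i hi => absurd hi (Nat.not_lt_zero _), fun x _ => ?_⟩
      rw [Prod.fst_one, Matrix.one_mulVec]
    | succ k ih =>
      intro hk
      obtain ⟨r, hr, h1, h2⟩ := ih (by omega)
      obtain ⟨r', hr', hrr⟩ := Λ.inv r hr
      have hrr' : r' * r = 1 := by
        refine Prod.ext ?_ ?_
        · exact mul_eq_one_comm.1 (congrArg Prod.fst hrr)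
        · exact mul_eq_one_comm.1 (congrArg Prod.snd hrr)
      have ha : D.IsP (r' * p) := (Λ.isP r' hr').mul hp
      have haA : (r' * p).2 ∈ D.AA := by
        rw [Prod.snd_mul]
        exact D.AA.mul_mem (Λ.alg r' hr') hpA
      have hfix : ∀ i : Fin d, (i : ℕ) < k → (r' * p).1 *ᵥ e i = e i := by
        intro i hi
        rw [Prod.fst_mul, ← Matrix.mulVec_mulVec, ← h1 i hi, Matrix.mulVec_mulVec,
          ← Prod.fst_mul, hrr', Prod.fst_one, Matrix.one_mulVec]
      obtain ⟨i₀, hi₀⟩ : ∃ i₀ : Fin d, (i₀ : ℕ) = k := ⟨⟨k, by omega⟩, rfl⟩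
      obtain ⟨i₁, hi₁⟩ : ∃ i₁ : Fin d, (i₁ : ℕ) = k + 1 := ⟨⟨k + 1, by omega⟩, rfl⟩
      have h01 : i₀ ≠ i₁ := by
        intro h
        rw [h] at hi₀
        omega
      obtain ⟨s, hs, hs1, hs2⟩ := move2 h.mem (heN i₀) (hpres _ ha haA _ (heN i₀)) (heN i₁)
        (by rw [he, if_pos rfl]) (by rw [ha.orth, he, if_pos rfl]) (by rw [he, if_pos rfl])
        (by rw [he, if_neg h01])
      refine ⟨r * s, Λ.G.mul_mem hr hs, ?_, ?_⟩
      · intro i hi
        rw [Prod.fst_mul, ← Matrix.mulVec_mulVec]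
        by_cases hik : (i : ℕ) < k
        · have hi0 : i₀ ≠ i := by intro h; rw [h] at hi₀; omega
          have hi1 : i₁ ≠ i := by intro h; rw [h] at hi₁; omega
          rw [hs2 (e i) (by rw [he, if_neg hi0]) ?_ (by rw [he, if_neg hi1]), h1 i hik]
          rw [← hfix i hik, ha.orth, he, if_neg hi0]
        · have hii : i = i₀ := by
            apply Fin.ext
            omega
          rw [hii, hs1, Matrix.mulVec_mulVec, ← Prod.fst_mul, ← mul_assoc, hrr, one_mul]
      · intro x hx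
        rw [Prod.fst_mul, ← Matrix.mulVec_mulVec, hs2 x (hx _ (heN i₀))
          (hx _ (hpres _ ha haA _ (heN i₀))) (hx _ (heN i₁)), h2 x hx]
  rcases Nat.eq_zero_or_pos d with hd | hd
  · subst hd
    refine ⟨1, Λ.G.one_mem, fun x hx => ?_, fun x _ => ?_⟩
    · have h1 := hN x hx
      rw [Finset.univ_eq_empty, Finset.sum_empty] at h1
      rw [h1, Matrix.mulVec_zero, Matrix.mulVec_zero]
    · rw [Prod.fst_one, Matrix.one_mulVec]
  obtain ⟨k, rfl⟩ : ∃ k, d = k + 1 := ⟨d - 1, by omega⟩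
  obtain ⟨r, hr, h1, h2⟩ := key k le_rfl
  obtain ⟨r', hr', hrr⟩ := Λ.inv r hr
  have hrr' : r' * r = 1 := by
    refine Prod.ext ?_ ?_
    · exact mul_eq_one_comm.1 (congrArg Prod.fst hrr)
    · exact mul_eq_one_comm.1 (congrArg Prod.snd hrr)
  have ha : D.IsP (r' * p) := (Λ.isP r' hr').mul hp
  have haA : (r' * p).2 ∈ D.AA := by
    rw [Prod.snd_mul]
    exact D.AA.mul_mem (Λ.alg r' hr') hpA
  have hfix : ∀ i : Fin k, (r' * p).1 *ᵥ e i.castSucc = e i.castSucc := by
    intro i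
    rw [Prod.fst_mul, ← Matrix.mulVec_mulVec, ← h1 i.castSucc i.2, Matrix.mulVec_mulVec,
      ← Prod.fst_mul, hrr', Prod.fst_one, Matrix.one_mulVec]
  obtain ⟨a, haa⟩ : ∃ a, a = r' * p := ⟨_, rfl⟩
  rw [← haa] at ha haA hfix
  -- the last vector
  obtain ⟨μ, hμ⟩ : ∃ μ : ℂ, a.1 *ᵥ e (Fin.last k) = μ • e (Fin.last k) := by
    have h3 := hN _ (hpres a ha haA _ (heN (Fin.last k)))
    refine ⟨D.b (e (Fin.last k)) (a.1 *ᵥ e (Fin.last k)), ?_⟩
    conv_lhs => rw [h3]
    rw [Fin.sum_univ_castSucc, Finset.sum_eq_zero, zero_add]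
    intro i _
    have h4 : D.b (e i.castSucc) (a.1 *ᵥ e (Fin.last k)) = 0 := by
      rw [← hfix i, ha.orth, he, if_neg (Fin.castSucc_lt_last i).ne]
    rw [h4, zero_smul]
  have hμ1 : μ = 1 := by
    have hvol : D.vol ((List.ofFn e).map fun x => a.1 *ᵥ x) = μ • D.vol (List.ofFn e) := by
      rw [List.map_ofFn, List.ofFn_succ', List.ofFn_succ', List.concat_eq_append,
        List.concat_eq_append, vol, vol, List.map_append, List.map_append, List.prod_append,
        List.prod_append]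
      have h5 : (List.ofFn fun i : Fin k => ((fun x => a.1 *ᵥ x) ∘ e) i.castSucc) =
          List.ofFn fun i : Fin k => e i.castSucc := by
        congr 1
        funext i
        exact hfix i
      rw [h5]
      simp only [Function.comp_apply, List.map_cons, List.map_nil, List.prod_cons,
        List.prod_nil, mul_one]
      rw [hμ, map_smul, mul_smul_comm]
    have h6 := ha.vol (List.ofFn e)
    rw [hvol, ← (vol_comm heN he hN h.stab).2.2 _ haA, smul_mul_assoc] at h6
    obtain ⟨q, hq⟩ := ha.inv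
    obtain ⟨Ki, hKi⟩ := vol_inv (D := D) (l := List.ofFn e) fun y hy => by
      obtain ⟨i, rfl⟩ := List.mem_ofFn.1 hy
      rw [he, if_pos rfl]
    have h7 : D.vol (List.ofFn e) = μ • D.vol (List.ofFn e) := by
      have h8 := congrArg (fun M => M * q) h6
      simp only [smul_mul_assoc, mul_assoc, hq, mul_one] at h8
      exact h8
    have h9 := congrArg (fun M => M * Ki) h7
    simp only [smul_mul_assoc, hKi] at h9
    obtain ⟨i⟩ := (inferInstance : Nonempty n)
    have h10 := congrFun (congrFun h9 i) i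
    rw [Matrix.smul_apply, Matrix.one_apply_eq, smul_eq_mul, mul_one] at h10
    exact h10.symm
  have hid : ∀ i : Fin (k + 1), a.1 *ᵥ e i = e i := by
    intro i
    refine Fin.lastCases ?_ (fun i => hfix i) i
    rw [hμ, hμ1, one_smul]
  refine ⟨r, hr, fun x hx => ?_, h2⟩
  have hax : a.1 *ᵥ x = x := by
    rw [hN x hx, Matrix.mulVec_sum]
    exact Finset.sum_congr rfl fun i _ => by rw [Matrix.mulVec_smul, hid]
  have hra : r * a = p := by rw [haa, ← mul_assoc, hrr, one_mul]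
  rw [← hra, Prod.fst_mul, ← Matrix.mulVec_mulVec, hax]

end KD.LG

end Run7.h38.KS
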