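import Pool.Agent.Run7.h38.KS.BlkA

/-!
# Blocks of unitary type
-/

set_option linter.unusedSectionVars false

namespace Run7.h38.KS

open Matrix ComplexConjugate

variable {m n : Type} [Fintype m] [DecidableEq m] [Fintype n] [DecidableEq n]

open KD

namespace KD.LG

variable {D : KD m n} {Λ : LG D}

/-- Dual bases. -/
lemma exists_dual {W W' : Submodule ℂ (m → ℂ)}
    (nd : ∀ x ∈ W, (∀ y ∈ W', D.b x y = 0) → x = 0)
    (nd' : ∀ y ∈ W', (∀ x ∈ W, D.b x y = 0) → y = 0) :
    ∃ (d : ℕ) (w w' : Fin d → (m → ℂ)), (∀ i, w i ∈ W) ∧ (∀ i, w' i ∈ W') ∧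
      (∀ i j, D.b (w i) (w' j) = if i = j then 1 else 0) ∧
      (∀ x ∈ W, x = ∑ i, D.b (w' i) x • w i) ∧ ∀ y ∈ W', y = ∑ i, D.b (w i) y • w' i := by
  classical
  let f : W' →ₗ[ℂ] (W →ₗ[ℂ] ℂ) :=
    { toFun := fun y => (D.b (y : m → ℂ)) ∘ₗ W.subtype
      map_add' := fun x y => by ext z; simp
      map_smul' := fun c x => by ext z; simp }
  have hf : ∀ (y : W') (x : W), f y x = D.b y x := fun y x => rfl
  let g : W →ₗ[ℂ] (W' →ₗ[ℂ] ℂ) :=
    { toFun := fun y => (D.b (y : m → ℂ)) ∘ₗ W'.subtype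
      map_add' := fun x y => by ext z; simp
      map_smul' := fun c x => by ext z; simp }
  have hg : ∀ (y : W) (x : W'), g y x = D.b y x := fun y x => rfl
  have hfi : Function.Injective f := by
    rw [injective_iff_map_eq_zero]
    intro y hy
    apply Subtype.ext
    refine nd' y y.2 fun x hx => ?_
    have h1 := LinearMap.congr_fun hy ⟨x, hx⟩
    rw [hf] at h1
    rw [D.b_symm]
    exact h1
  have hgi : Function.Injective g := by
    rw [injective_iff_map_eq_zero]
    intro y hy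
    apply Subtype.ext
    refine nd y y.2 fun x hx => ?_
    have h1 := LinearMap.congr_fun hy ⟨x, hx⟩
    rw [hg] at h1
    exact h1
  have h1 := LinearMap.finrank_le_finrank_of_injective hfi
  have h2 := LinearMap.finrank_le_finrank_of_injective hgi
  rw [Subspace.dual_finrank_eq] at h1 h2
  have hfs : Function.Surjective f :=
    (LinearMap.injective_iff_surjective_of_finrank_eq_finrank (by
      rw [Subspace.dual_finrank_eq]; omega)).1 hfi
  let v := Module.finBasis ℂ W
  choose v' hv' using fun i => hfs (v.coord i)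
  have hvv : ∀ i j, D.b (v i) (v' j) = if i = j then 1 else 0 := by
    intro i j
    have h3 := LinearMap.congr_fun (hv' j) (v i)
    rw [hf, Module.Basis.coord_apply, Module.Basis.repr_self, Finsupp.single_apply] at h3
    rw [D.b_symm]
    exact h3
  have hx : ∀ x ∈ W, x = ∑ i, D.b (v' i) x • (v i : m → ℂ) := by
    intro x hx
    have h3 := congrArg Subtype.val (v.sum_repr ⟨x, hx⟩)
    rw [AddSubmonoidClass.coe_finsetSum] at h3
    refine h3.symm.trans (Finset.sum_congr rfl fun i _ => ?_)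
    rw [Submodule.coe_smul]
    congr 1
    have h4 := LinearMap.congr_fun (hv' i) ⟨x, hx⟩
    rw [hf, Module.Basis.coord_apply] at h4
    exact h4.symm
  refine ⟨_, fun i => v i, fun i => v' i, fun i => (v i).2, fun i => (v' i).2, hvv, hx, ?_⟩
  intro y hy
  rw [← sub_eq_zero]
  refine nd' _ (W'.sub_mem hy (W'.sum_mem fun i _ => W'.smul_mem _ (v' i).2)) fun x hxW => ?_
  have h5 : ∀ j, D.b (v j) (y - ∑ i, D.b (v i) y • (v' i : m → ℂ)) = 0 := by
    intro j
    rw [map_sub, map_sum, Finset.sum_eq_single j]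
    · rw [map_smul, hvv, if_pos rfl, smul_eq_mul, mul_one, sub_self]
    · intro i _ hi
      rw [map_smul, hvv, if_neg (Ne.symm hi), smul_zero]
    · intro h; exact absurd (Finset.mem_univ _) h
  rw [hx x hxW, map_sum, LinearMap.sum_apply]
  refine Finset.sum_eq_zero fun j _ => ?_
  rw [map_smul, LinearMap.smul_apply, h5, smul_zero]

/-- **Blocks of unitary type.** -/
theorem BlkB.move [Nonempty n] {W W' : Submodule ℂ (m → ℂ)} (h : Λ.BlkB W W') {p : Pr m n}
    (hp : D.IsP p) (hpA : p.2 ∈ D.AA) : (∀ x ∈ W ⊔ W', p.1 *ᵥ x ∈ W ⊔ W') ∧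
      ∃ r ∈ Λ.G, (∀ x ∈ W ⊔ W', r.1 *ᵥ x = p.1 *ᵥ x) ∧
        ∀ x, (∀ y ∈ W ⊔ W', D.b y x = 0) → r.1 *ᵥ x = x := by
  classical
  obtain ⟨d, w, w', hw, hw', hww, hW, hW'⟩ := exists_dual h.nd h.nd'
  have hww' : ∀ i j, D.b (w' i) (w j) = if i = j then 1 else 0 := by
    intro i j
    rw [D.b_symm, hww]
    simp only [eq_comm]
  -- the central element
  obtain ⟨Z, hZ⟩ : ∃ Z, Z = ∑ i, D.R (w i) (w' i) := ⟨_, rfl⟩
  have hZL : Z ∈ Λ.L := by
    rw [hZ]
    exact Λ.L.sum_mem fun i _ => h.mem _ (hw i) _ (hw' i)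
  have hZZ := Λ.isZ Z hZL
  have hZt : ∀ t, Z.1 *ᵥ t = (∑ i, D.b (w' i) t • w i) - ∑ i, D.b (w i) t • w' i := by
    intro t
    rw [hZ, Prod.fst_sum, Matrix.sum_mulVec, ← Finset.sum_sub_distrib]
    exact Finset.sum_congr rfl fun i _ => D.R_one _ _ _
  have hZW : ∀ t ∈ W, Z.1 *ᵥ t = t := by
    intro t ht
    rw [hZt, ← hW t ht, Finset.sum_eq_zero fun i _ => by
      rw [h.iso _ (hw i) _ ht, zero_smul], sub_zero]
  have hZW' : ∀ t ∈ W', Z.1 *ᵥ t = -t := by
    intro t ht
    rw [hZt, ← hW' t ht, Finset.sum_eq_zero fun i _ => by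
      rw [h.iso' _ (hw' i) _ ht, zero_smul], zero_sub]
  have hcen : ∀ z ∈ Λ.L, z * Z = Z * z := by
    intro z hz
    have hz' := Λ.isZ z hz
    rw [← sub_eq_zero, hZ, Finset.mul_sum, Finset.sum_mul, ← Finset.sum_sub_distrib]
    rw [Finset.sum_congr rfl fun i _ => br_R hz' (w i) (w' i), Finset.sum_add_distrib]
    have e1 : ∑ i, D.R (z.1 *ᵥ w i) (w' i) =
        ∑ i, ∑ j, D.b (w' j) (z.1 *ᵥ w i) • D.R (w j) (w' i) := by
      refine Finset.sum_congr rfl fun i _ => ?_
      have h1 := hW _ (h.stab z hz _ (hw i))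
      conv_lhs => rw [h1]
      clear h1
      have h2 : ∀ (s : Finset (Fin d)) (f : Fin d → ℂ),
          D.R (∑ j ∈ s, f j • w j) (w' i) = ∑ j ∈ s, f j • D.R (w j) (w' i) := by
        intro s f
        induction s using Finset.induction_on with
        | empty =>
          rw [Finset.sum_empty, Finset.sum_empty]
          have := D.R_smul_left 0 0 (w' i)
          rwa [zero_smul, zero_smul] at this
        | insert a s ha ih =>
          rw [Finset.sum_insert ha, Finset.sum_insert ha, D.R_add_left, D.R_smul_left, ih]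
      exact h2 _ _
    have e2 : ∑ i, D.R (w i) (z.1 *ᵥ w' i) =
        ∑ i, ∑ j, D.b (w j) (z.1 *ᵥ w' i) • D.R (w i) (w' j) := by
      refine Finset.sum_congr rfl fun i _ => ?_
      have h1 := hW' _ (h.stab' z hz _ (hw' i))
      conv_lhs => rw [h1]
      clear h1
      have h2 : ∀ (s : Finset (Fin d)) (f : Fin d → ℂ),
          D.R (w i) (∑ j ∈ s, f j • w' j) = ∑ j ∈ s, f j • D.R (w i) (w' j) := by
        intro s f
        induction s using Finset.induction_on with
        | empty =>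
          rw [Finset.sum_empty, Finset.sum_empty]
          have := D.R_smul_right 0 (w i) 0
          rwa [zero_smul, zero_smul] at this
        | insert a s ha ih =>
          rw [Finset.sum_insert ha, Finset.sum_insert ha, D.R_add_right, D.R_smul_right, ih]
      exact h2 _ _
    rw [e1, e2, Finset.sum_comm (f := fun i j => D.b (w j) (z.1 *ᵥ w' i) • D.R (w i) (w' j)),
      ← Finset.sum_add_distrib]
    refine Finset.sum_eq_zero fun i _ => ?_
    rw [← Finset.sum_add_distrib]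
    refine Finset.sum_eq_zero fun j _ => ?_
    have h3 := hz'.1 (w i) (w' j)
    rw [D.b_symm (z.1 *ᵥ w i)] at h3
    rw [← add_smul, h3, zero_smul]
  have hZA : ∀ X ∈ D.AA, Z.2 * X = X * Z.2 := fun X hX => comm_AA (fun σ => by
    have h1 := hcen _ (Λ.gal σ _ Λ.mem)
    rw [← D.R_sv] at h1
    exact (congrArg Prod.snd h1).symm) hX
  -- transformations commute with the central element
  have hcomm : ∀ q : Pr m n, D.IsP q → q.2 ∈ D.AA → ∀ x, Z.1 *ᵥ (q.1 *ᵥ x) =
      q.1 *ᵥ (Z.1 *ᵥ x) := by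
    intro q hq hqA x
    obtain ⟨u, hu, hu'⟩ := hq.inv'
    have h1 : ∀ y, D.kap (q.1 *ᵥ y) = q.2 * D.kap y * u := by
      intro y
      rw [hq.kap, mul_assoc, hu, mul_one]
    have h2 : u * Z.2 = Z.2 * u := by
      calc u * Z.2 = u * (Z.2 * q.2) * u := by rw [mul_assoc, mul_assoc, hu, mul_one]
        _ = u * (q.2 * Z.2) * u := by rw [hZA _ hqA]
        _ = Z.2 * u := by rw [← mul_assoc u, hu', one_mul]
    rw [← sub_eq_zero]
    apply kap_inj (D := D) inferInstance
    rw [map_sub, sub_eq_zero, ← hZZ.2, h1, h1, ← hZZ.2]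
    calc Z.2 * (q.2 * D.kap x * u) - q.2 * D.kap x * u * Z.2 =
        (Z.2 * q.2) * D.kap x * u - q.2 * D.kap x * (u * Z.2) := by simp only [mul_assoc]
      _ = (q.2 * Z.2) * D.kap x * u - q.2 * D.kap x * (Z.2 * u) := by rw [hZA _ hqA, h2]
      _ = _ := by noncomm_ring
  have hpW : ∀ q : Pr m n, D.IsP q → q.2 ∈ D.AA → ∀ x ∈ W, q.1 *ᵥ x ∈ W := by
    intro q hq hqA x hx
    obtain ⟨v, hv⟩ : ∃ v, v = q.1 *ᵥ x := ⟨_, rfl⟩
    have h1 : Z.1 *ᵥ v = v := by rw [hv, hcomm q hq hqA, hZW x hx]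
    obtain ⟨a, ha⟩ : ∃ a, a = ∑ i, D.b (w' i) v • w i := ⟨_, rfl⟩
    obtain ⟨a', ha'⟩ : ∃ a', a' = ∑ i, D.b (w i) v • w' i := ⟨_, rfl⟩
    have haW : a ∈ W := by rw [ha]; exact W.sum_mem fun i _ => W.smul_mem _ (hw i)
    have haW' : a' ∈ W' := by rw [ha']; exact W'.sum_mem fun i _ => W'.smul_mem _ (hw' i)
    have h2 : v = a - a' := by
      have := hZt v
      rw [h1, ← ha, ← ha'] at this
      exact this
    have h3 : Z.1 *ᵥ v = a + a' := by
      rw [h2, Matrix.mulVec_sub, hZW a haW, hZW' a' haW', sub_neg_eq_add]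
    rw [h1, h2, sub_eq_add_neg] at h3
    have h4 : -a' = a' := add_left_cancel h3
    have h5 : a' = 0 := self_eq_neg.1 h4.symm
    rw [h5, sub_zero] at h2
    rw [← hv, h2]
    exact haW
  have hpW' : ∀ q : Pr m n, D.IsP q → q.2 ∈ D.AA → ∀ x ∈ W', q.1 *ᵥ x ∈ W' := by
    intro q hq hqA x hx
    obtain ⟨v, hv⟩ : ∃ v, v = q.1 *ᵥ x := ⟨_, rfl⟩
    have h1 : Z.1 *ᵥ v = -v := by
      rw [hv, hcomm q hq hqA, hZW' x hx, Matrix.mulVec_neg]
    obtain ⟨a, ha⟩ : ∃ a, a = ∑ i, D.b (w' i) v • w i := ⟨_, rfl⟩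
    obtain ⟨a', ha'⟩ : ∃ a', a' = ∑ i, D.b (w i) v • w' i := ⟨_, rfl⟩
    have haW : a ∈ W := by rw [ha]; exact W.sum_mem fun i _ => W.smul_mem _ (hw i)
    have haW' : a' ∈ W' := by rw [ha']; exact W'.sum_mem fun i _ => W'.smul_mem _ (hw' i)
    have h2 : v = a' - a := by
      have := hZt v
      rw [h1, ← ha, ← ha'] at this
      rw [← neg_neg v, this, neg_sub]
    have h3 : Z.1 *ᵥ v = -a' - a := by
      rw [h2, Matrix.mulVec_sub, hZW a haW, hZW' a' haW']
    rw [h1, h2, neg_sub, sub_eq_add_neg, sub_eq_add_neg, add_comm] at h3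
    have h4 : a = -a := add_left_cancel h3
    have h5 : a = 0 := self_eq_neg.1 h4
    rw [h5, sub_zero] at h2
    rw [← hv, h2]
    exact haW'
  have hpres : ∀ q : Pr m n, D.IsP q → q.2 ∈ D.AA → ∀ x ∈ W ⊔ W', q.1 *ᵥ x ∈ W ⊔ W' := by
    intro q hq hqA x hx
    obtain ⟨y, hy, z, hz, rfl⟩ := Submodule.mem_sup.1 hx
    rw [Matrix.mulVec_add]
    exact Submodule.add_mem_sup (hpW q hq hqA y hy) (hpW' q hq hqA z hz)
  refine ⟨hpres p hp hpA, ?_⟩
  -- the general linear group
  have key : ∀ M : Matrix (Fin d) (Fin d) ℂ, M.det ≠ 0 → ∃ r ∈ Λ.G,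
      (∀ j, r.1 *ᵥ w j = ∑ i, M i j • w i) ∧
      ∀ x, (∀ y ∈ W ⊔ W', D.b y x = 0) → r.1 *ᵥ x = x := by
    intro M hM
    refine Matrix.diagonal_transvection_induction_of_det_ne_zero (fun M => ∃ r ∈ Λ.G,
      (∀ j, r.1 *ᵥ w j = ∑ i, M i j • w i) ∧
      ∀ x, (∀ y ∈ W ⊔ W', D.b y x = 0) → r.1 *ᵥ x = x) M hM ?_ ?_ ?_
    · intro δ hδ
      have hδ0 : ∀ i, δ i ≠ 0 := by
        intro i h0
        apply hδ
        rw [Matrix.det_diagonal]
        exact Finset.prod_eq_zero (Finset.mem_univ i) h0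
      have hz : (∑ i, Complex.log (δ i) • D.R (w i) (w' i)) ∈ Λ.L :=
        Λ.L.sum_mem fun i _ => Λ.L.smul_mem _ (h.mem _ (hw i) _ (hw' i))
      have hact : ∀ t, (∑ i, Complex.log (δ i) • D.R (w i) (w' i)).1 *ᵥ t =
          ∑ i, Complex.log (δ i) • (D.b (w' i) t • w i - D.b (w i) t • w' i) := by
        intro t
        rw [Prod.fst_sum, Matrix.sum_mulVec]
        refine Finset.sum_congr rfl fun i _ => ?_
        rw [Prod.smul_fst, Matrix.smul_mulVec, D.R_one]
      refine ⟨_, Λ.exp _ hz, fun j => ?_, fun x hx => ?_⟩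
      · change NormedSpace.exp (∑ i, Complex.log (δ i) • D.R (w i) (w' i)).1 *ᵥ w j = _
        have h1 : (∑ i, Complex.log (δ i) • D.R (w i) (w' i)).1 *ᵥ w j =
            Complex.log (δ j) • w j := by
          rw [hact, Finset.sum_eq_single j]
          · rw [hww', if_pos rfl, h.iso _ (hw j) _ (hw j), one_smul, zero_smul, sub_zero]
          · intro i _ hi
            rw [hww', if_neg hi, h.iso _ (hw i) _ (hw j), zero_smul, zero_smul, sub_self,
              smul_zero]
          · intro h; exact absurd (Finset.mem_univ _) h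
        rw [exp_eig h1, Complex.exp_log (hδ0 j), Finset.sum_eq_single j]
        · rw [Matrix.diagonal_apply_eq]
        · intro i _ hi
          rw [Matrix.diagonal_apply_ne _ hi, zero_smul]
        · intro h; exact absurd (Finset.mem_univ _) h
      · change NormedSpace.exp (∑ i, Complex.log (δ i) • D.R (w i) (w' i)).1 *ᵥ x = _
        apply exp_ker
        rw [hact]
        refine Finset.sum_eq_zero fun i _ => ?_
        rw [hx _ (Submodule.mem_sup_right (hw' i)), hx _ (Submodule.mem_sup_left (hw i)),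
          zero_smul, zero_smul, sub_self, smul_zero]
    · rintro ⟨i, j, hij, c⟩
      have hz : c • D.R (w i) (w' j) ∈ Λ.L := Λ.L.smul_mem _ (h.mem _ (hw i) _ (hw' j))
      have hact : ∀ t, (c • D.R (w i) (w' j)).1 *ᵥ t =
          c • (D.b (w' j) t • w i - D.b (w i) t • w' j) := by
        intro t
        rw [Prod.smul_fst, Matrix.smul_mulVec, D.R_one]
      refine ⟨_, Λ.exp _ hz, fun k => ?_, fun x hx => ?_⟩
      · change NormedSpace.exp (c • D.R (w i) (w' j)).1 *ᵥ w k = _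
        have h1 : (c • D.R (w i) (w' j)).1 *ᵥ w k = (if j = k then c else 0) • w i := by
          rw [hact, hww', h.iso _ (hw i) _ (hw k), zero_smul, sub_zero]
          split_ifs <;> simp
        have h2 : (c • D.R (w i) (w' j)).1 *ᵥ ((c • D.R (w i) (w' j)).1 *ᵥ w k) = 0 := by
          rw [h1, Matrix.mulVec_smul, hact, hww', h.iso _ (hw i) _ (hw i), if_neg (Ne.symm hij)]
          simp
        rw [exp_nil h2, h1, Matrix.TransvectionStruct.toMatrix]
        simp only [Matrix.transvection, Matrix.add_apply, add_smul, Finset.sum_add_distrib]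
        congr 1
        · rw [Finset.sum_eq_single k]
          · rw [Matrix.one_apply_eq, one_smul]
          · intro l _ hl
            rw [Matrix.one_apply_ne hl, zero_smul]
          · intro h; exact absurd (Finset.mem_univ _) h
        · rw [Finset.sum_eq_single i]
          · by_cases hjk : j = k
            · rw [if_pos hjk, hjk, Matrix.single_apply_same]
            · rw [if_neg hjk, Matrix.single_apply_of_ne]
              exact fun h => hjk h.2
          · intro l _ hl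
            rw [Matrix.single_apply_of_ne, zero_smul]
            exact fun h => hl h.1.symm
          · intro h; exact absurd (Finset.mem_univ _) h
      · change NormedSpace.exp (c • D.R (w i) (w' j)).1 *ᵥ x = _
        apply exp_ker
        rw [hact, hx _ (Submodule.mem_sup_right (hw' j)), hx _ (Submodule.mem_sup_left (hw i)),
          zero_smul, zero_smul, sub_self, smul_zero]
    · rintro A B - - ⟨r, hr, h1, h2⟩ ⟨s, hs, h3, h4⟩
      refine ⟨r * s, Λ.G.mul_mem hr hs, fun j => ?_, fun x hx => ?_⟩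
      · rw [Prod.fst_mul, ← Matrix.mulVec_mulVec, h3, Matrix.mulVec_sum]
        have h5 : ∀ i, r.1 *ᵥ (B i j • w i) = ∑ k, (A k i * B i j) • w k := by
          intro i
          rw [Matrix.mulVec_smul, h1, Finset.smul_sum]
          exact Finset.sum_congr rfl fun k _ => by rw [smul_smul, mul_comm]
        rw [Finset.sum_congr rfl fun i _ => h5 i, Finset.sum_comm]
        refine Finset.sum_congr rfl fun k _ => ?_
        rw [← Finset.sum_smul, Matrix.mul_apply]
      · rw [Prod.fst_mul, ← Matrix.mulVec_mulVec, h4 x hx, h2 x hx]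
  obtain ⟨M, hM⟩ : ∃ M : Matrix (Fin d) (Fin d) ℂ, M = Matrix.of fun i j =>
    D.b (w' i) (p.1 *ᵥ w j) := ⟨_, rfl⟩
  have hpw : ∀ j, p.1 *ᵥ w j = ∑ i, M i j • w i := by
    intro j
    rw [hM]
    exact hW _ (hpW p hp hpA _ (hw j))
  have hdet : M.det ≠ 0 := by
    intro h0
    obtain ⟨v, hv, hMv⟩ := Matrix.exists_mulVec_eq_zero_iff.2 h0
    apply hv
    have h1 : p.1 *ᵥ (∑ j, v j • w j) = 0 := by
      rw [Matrix.mulVec_sum]
      have h2 : ∀ j, p.1 *ᵥ (v j • w j) = ∑ i, (M i j * v j) • w i := by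
        intro j
        rw [Matrix.mulVec_smul, hpw, Finset.smul_sum]
        exact Finset.sum_congr rfl fun k _ => by rw [smul_smul, mul_comm]
      rw [Finset.sum_congr rfl fun j _ => h2 j, Finset.sum_comm]
      refine Finset.sum_eq_zero fun i _ => ?_
      have h3 := congrFun hMv i
      rw [Matrix.mulVec, dotProduct, Pi.zero_apply] at h3
      rw [← Finset.sum_smul, h3, zero_smul]
    have h2 : (∑ j, v j • w j) = 0 := by
      apply D.nondeg
      intro y
      rw [← hp.orth, h1, map_zero, LinearMap.zero_apply]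
    funext i
    have h3 := congrArg (D.b (w' i)) h2
    rw [map_sum, map_zero, Finset.sum_eq_single i] at h3
    · rw [map_smul, hww', if_pos rfl, smul_eq_mul, mul_one] at h3
      exact h3
    · intro j _ hj
      rw [map_smul, hww', if_neg (Ne.symm hj), smul_zero]
    · intro h; exact absurd (Finset.mem_univ _) h
  obtain ⟨r, hr, h1, h2⟩ := key M hdet
  refine ⟨r, hr, fun x hx => ?_, h2⟩
  obtain ⟨r', hr', hrr⟩ := Λ.inv r hr
  have hrr' : r' * r = 1 := by
    refine Prod.ext ?_ ?_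
    · exact mul_eq_one_comm.1 (congrArg Prod.fst hrr)
    · exact mul_eq_one_comm.1 (congrArg Prod.snd hrr)
  obtain ⟨a, haa⟩ : ∃ a, a = r' * p := ⟨_, rfl⟩
  have ha : D.IsP a := by rw [haa]; exact (Λ.isP r' hr').mul hp
  have haA : a.2 ∈ D.AA := by
    rw [haa, Prod.snd_mul]
    exact D.AA.mul_mem (Λ.alg r' hr') hpA
  have hra : r * a = p := by rw [haa, ← mul_assoc, hrr, one_mul]
  have hrW : ∀ y ∈ W, r.1 *ᵥ y = p.1 *ᵥ y := by
    intro y hy
    rw [hW y hy, Matrix.mulVec_sum, Matrix.mulVec_sum]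
    exact Finset.sum_congr rfl fun i _ => by
      rw [Matrix.mulVec_smul, Matrix.mulVec_smul, h1, hpw]
  have haW : ∀ y ∈ W, a.1 *ᵥ y = y := by
    intro y hy
    rw [haa, Prod.fst_mul, ← Matrix.mulVec_mulVec, ← hrW y hy, Matrix.mulVec_mulVec,
      ← Prod.fst_mul, hrr', Prod.fst_one, Matrix.one_mulVec]
  have haW' : ∀ y ∈ W', a.1 *ᵥ y = y := by
    intro y hy
    rw [← sub_eq_zero]
    refine h.nd' _ (W'.sub_mem (hpW' a ha haA y hy) hy) fun x hx => ?_
    rw [map_sub]
    conv_lhs => rw [← haW x hx]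
    rw [ha.orth, haW x hx, sub_self]
  obtain ⟨y, hy, z, hz, rfl⟩ := Submodule.mem_sup.1 hx
  rw [← hra, Prod.fst_mul, ← Matrix.mulVec_mulVec, Matrix.mulVec_add a.1, haW y hy, haW' z hz]

end KD.LG

end Run7.h38.KS
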