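import Pool.Agent.Run7.h38.KS.Even
import Pool.Agent.N996.FP.Lie

/-!
# Block matrices and the Hodge structure in coordinates
-/

set_option linter.unusedSectionVars false

namespace Run7.h38.KS

open Matrix ComplexConjugate Pool.Agent.N996.BP Pool.Agent.N996.FP

section Blk

variable {s m n : Type} [Fintype s] [DecidableEq s] [Fintype m] [DecidableEq m] [Fintype n]
  [DecidableEq n] {R : Type*} [CommRing R]

/-- The block diagonal matrix. -/
def blk (u : Matrix s s R) (x : Matrix m m R) (y : Matrix n n R) :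
    Matrix (s ⊕ (m ⊕ n)) (s ⊕ (m ⊕ n)) R :=
  Matrix.fromBlocks u 0 0 (Matrix.fromBlocks x 0 0 y)

lemma blk_mul (u u' : Matrix s s R) (x x' : Matrix m m R) (y y' : Matrix n n R) :
    blk u x y * blk u' x' y' = blk (u * u') (x * x') (y * y') := by
  rw [blk, blk, Matrix.fromBlocks_multiply, Matrix.fromBlocks_multiply]
  simp [blk]

lemma blk_add (u u' : Matrix s s R) (x x' : Matrix m m R) (y y' : Matrix n n R) :
    blk u x y + blk u' x' y' = blk (u + u') (x + x') (y + y') := by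
  rw [blk, blk, Matrix.fromBlocks_add, Matrix.fromBlocks_add]
  simp [blk]

lemma blk_sub (u u' : Matrix s s R) (x x' : Matrix m m R) (y y' : Matrix n n R) :
    blk u x y - blk u' x' y' = blk (u - u') (x - x') (y - y') := by
  ext i j
  rcases i with i | i | i <;> rcases j with j | j | j <;> simp [blk]

lemma blk_smul (c : R) (u : Matrix s s R) (x : Matrix m m R) (y : Matrix n n R) :
    c • blk u x y = blk (c • u) (c • x) (c • y) := by
  rw [blk, Matrix.fromBlocks_smul, Matrix.fromBlocks_smul]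
  simp [blk]

lemma blk_one : blk (1 : Matrix s s R) (1 : Matrix m m R) (1 : Matrix n n R) = 1 := by
  rw [blk, Matrix.fromBlocks_one, Matrix.fromBlocks_one]

lemma blk_zero : blk (0 : Matrix s s R) (0 : Matrix m m R) (0 : Matrix n n R) = 0 := by
  rw [blk, Matrix.fromBlocks_zero, Matrix.fromBlocks_zero]

lemma blk_transpose (u : Matrix s s R) (x : Matrix m m R) (y : Matrix n n R) :
    (blk u x y)ᵀ = blk uᵀ xᵀ yᵀ := by
  rw [blk, Matrix.fromBlocks_transpose, Matrix.fromBlocks_transpose]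
  simp [blk]

lemma blk_inj {u u' : Matrix s s R} {x x' : Matrix m m R} {y y' : Matrix n n R}
    (h : blk u x y = blk u' x' y') : u = u' ∧ x = x' ∧ y = y' := by
  rw [blk, blk, Matrix.fromBlocks_inj, Matrix.fromBlocks_inj] at h
  exact ⟨h.1, h.2.2.2.1, h.2.2.2.2.2.2⟩

lemma blk_map {R' : Type*} [CommRing R'] {F : Type*} [FunLike F R R'] [RingHomClass F R R']
    (f : F) (u : Matrix s s R) (x : Matrix m m R) (y : Matrix n n R) :
    (blk u x y).map f = blk (u.map f) (x.map f) (y.map f) := by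
  rw [blk, Matrix.fromBlocks_map, Matrix.fromBlocks_map]
  simp [blk]

/-- The embedding of the first component. -/
def iS (x : s → R) : s ⊕ (m ⊕ n) → R := Sum.elim x 0

/-- The embedding of the second component. -/
def iT (x : m → R) : s ⊕ (m ⊕ n) → R := Sum.elim 0 (Sum.elim x 0)

/-- The embedding of the third component. -/
def iV (x : n → R) : s ⊕ (m ⊕ n) → R := Sum.elim 0 (Sum.elim 0 x)

lemma blk_iS (u : Matrix s s R) (x : Matrix m m R) (y : Matrix n n R) (v : s → R) :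
    blk u x y *ᵥ (iS v : s ⊕ (m ⊕ n) → R) = iS (u *ᵥ v) := by
  rw [blk, iS, Matrix.fromBlocks_mulVec]
  simp [iS]

lemma blk_iT (u : Matrix s s R) (x : Matrix m m R) (y : Matrix n n R) (v : m → R) :
    blk u x y *ᵥ (iT v : s ⊕ (m ⊕ n) → R) = iT (x *ᵥ v) := by
  rw [blk, iT, Matrix.fromBlocks_mulVec]
  simp [iT, Matrix.fromBlocks_mulVec]

lemma blk_iV (u : Matrix s s R) (x : Matrix m m R) (y : Matrix n n R) (v : n → R) :
    blk u x y *ᵥ (iV v : s ⊕ (m ⊕ n) → R) = iV (y *ᵥ v) := by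
  rw [blk, iV, Matrix.fromBlocks_mulVec]
  simp [iV, Matrix.fromBlocks_mulVec]

lemma i_sum (v : s ⊕ (m ⊕ n) → R) :
    v = iS (v ∘ Sum.inl) + iT (v ∘ Sum.inr ∘ Sum.inl) + iV (v ∘ Sum.inr ∘ Sum.inr) := by
  ext i
  rcases i with i | i | i <;> simp [iS, iT, iV]

lemma ext_vec {p q : Type} [Fintype q] [DecidableEq q] {M N : Matrix p q R}
    (h : ∀ v, M *ᵥ v = N *ᵥ v) : M = N := by
  ext i j
  have h1 := congrFun (h (Pi.single j 1)) i
  rwa [Matrix.mulVec_single_one, Matrix.mulVec_single_one] at h1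

/-- A matrix is determined by its values on the three components. -/
lemma blk_ext {M : Matrix (s ⊕ (m ⊕ n)) (s ⊕ (m ⊕ n)) R} {u : Matrix s s R}
    {x : Matrix m m R} {y : Matrix n n R} (h1 : ∀ v, M *ᵥ iS v = iS (u *ᵥ v))
    (h2 : ∀ v, M *ᵥ iT v = iT (x *ᵥ v)) (h3 : ∀ v, M *ᵥ iV v = iV (y *ᵥ v)) :
    M = blk u x y := by
  refine ext_vec fun v => ?_
  rw [i_sum v, Matrix.mulVec_add, Matrix.mulVec_add, Matrix.mulVec_add, Matrix.mulVec_add, h1,
    h2, h3, blk_iS, blk_iT, blk_iV]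

lemma iT_add (x y : m → R) : (iT (x + y) : s ⊕ (m ⊕ n) → R) = iT x + iT y := by
  ext i; rcases i with i | i | i <;> simp [iT]

lemma iT_smul (c : R) (x : m → R) : (iT (c • x) : s ⊕ (m ⊕ n) → R) = c • iT x := by
  ext i; rcases i with i | i | i <;> simp [iT]

lemma iV_add (x y : n → R) : (iV (x + y) : s ⊕ (m ⊕ n) → R) = iV x + iV y := by
  ext i; rcases i with i | i | i <;> simp [iV]

lemma iV_smul (c : R) (x : n → R) : (iV (c • x) : s ⊕ (m ⊕ n) → R) = c • iV x := by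
  ext i; rcases i with i | i | i <;> simp [iV]

end Blk

/-- A polarised Hodge structure which is the sum of a trivial one, of one of type K3 and of one of
weight one, with a Clifford multiplication. -/
structure HK (s m n : Type) [Fintype s] [DecidableEq s] [Fintype m] [DecidableEq m] [Fintype n]
    [DecidableEq n] where
  /-- the Hodge structure -/
  H : HData (s ⊕ (m ⊕ n))
  /-- the multiplication -/
  D : KD m n
  /-- the form on the first component -/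
  Qs : Matrix s s ℚ
  /-- the form on the third component -/
  Qv : Matrix n n ℚ
  hQr : H.Qr = blk Qs D.B Qv
  /-- the projector to the first step of the Hodge filtration -/
  E : Matrix n n ℂ
  hE : E * E = E
  hEc : E.map cj = 1 - E
  hEκ : E * D.kap D.ω = D.kap D.ω
  lS : ∀ t : ℂ, t ≠ 0 → ∀ x, H.l t *ᵥ iS x = iS x
  lω : ∀ t : ℂ, t ≠ 0 → H.l t *ᵥ iT D.ω = t ^ 2 • iT D.ω
  lω' : ∀ t : ℂ, t ≠ 0 → H.l t *ᵥ iT (sv cj D.ω) = (t ^ 2)⁻¹ • iT (sv cj D.ω)
  l0 : ∀ t : ℂ, t ≠ 0 → ∀ x, D.b D.ω x = 0 → D.b (sv cj D.ω) x = 0 → H.l t *ᵥ iT x = iT x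
  lF : ∀ t : ℂ, t ≠ 0 → ∀ x, E *ᵥ x = x → H.l t *ᵥ iV x = t • iV x
  lF' : ∀ t : ℂ, t ≠ 0 → ∀ x, E *ᵥ x = 0 → H.l t *ᵥ iV x = t⁻¹ • iV x

namespace HK

variable {s m n : Type} [Fintype s] [DecidableEq s] [Fintype m] [DecidableEq m] [Fintype n]
    [DecidableEq n] (A : HK s m n)

/-- The value of the form on the period. -/
noncomputable def β : ℂ := A.D.b A.D.ω (sv cj A.D.ω)

lemma β_ne : A.β ≠ 0 := A.D.ne

/-- The first projector. -/
noncomputable def P : Matrix m m ℂ :=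
  A.β⁻¹ • Matrix.vecMulVec A.D.ω (cq A.D.B *ᵥ sv cj A.D.ω)

/-- The second projector. -/
noncomputable def P' : Matrix m m ℂ :=
  A.β⁻¹ • Matrix.vecMulVec (sv cj A.D.ω) (cq A.D.B *ᵥ A.D.ω)

lemma P_vec (x : m → ℂ) : A.P *ᵥ x = (A.β⁻¹ * A.D.b (sv cj A.D.ω) x) • A.D.ω := by
  rw [P, Matrix.smul_mulVec, A.D.vmv, smul_smul]

lemma P'_vec (x : m → ℂ) : A.P' *ᵥ x = (A.β⁻¹ * A.D.b A.D.ω x) • sv cj A.D.ω := by
  rw [P', Matrix.smul_mulVec, A.D.vmv, smul_smul]

lemma ω'ω' : A.D.b (sv cj A.D.ω) (sv cj A.D.ω) = 0 := by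
  rw [A.D.b_sv, A.D.ωω, map_zero]

lemma ω'ω : A.D.b (sv cj A.D.ω) A.D.ω = A.β := by
  rw [A.D.b_symm]
  rfl

/-- The second component of the cocharacter. -/
noncomputable def LT (t : ℂ) : Matrix m m ℂ := 1 + (t ^ 2 - 1) • A.P + ((t ^ 2)⁻¹ - 1) • A.P'

/-- The third component of the cocharacter. -/
noncomputable def LV (t : ℂ) : Matrix n n ℂ := t • A.E + t⁻¹ • (1 - A.E)

/-- The cocharacter in blocks. -/
theorem hl {t : ℂ} (ht : t ≠ 0) : A.H.l t = blk 1 (A.LT t) (A.LV t) := by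
  have hβ := A.β_ne
  refine blk_ext (fun v => ?_) (fun v => ?_) (fun v => ?_)
  · rw [A.lS t ht, Matrix.one_mulVec]
  · obtain ⟨a, ha⟩ : ∃ a, a = A.β⁻¹ * A.D.b (sv cj A.D.ω) v := ⟨_, rfl⟩
    obtain ⟨a', ha'⟩ : ∃ a', a' = A.β⁻¹ * A.D.b A.D.ω v := ⟨_, rfl⟩
    obtain ⟨x, hx⟩ : ∃ x, x = v - a • A.D.ω - a' • sv cj A.D.ω := ⟨_, rfl⟩
    have hv : v = a • A.D.ω + a' • sv cj A.D.ω + x := by rw [hx]; abel
    have h1 : A.D.b A.D.ω x = 0 := by
      rw [hx, map_sub, map_sub, map_smul, map_smul, A.D.ωω, ha']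
      change _ - _ - _ • A.β = 0
      simp only [smul_eq_mul]
      field_simp
      ring
    have h2 : A.D.b (sv cj A.D.ω) x = 0 := by
      rw [hx, map_sub, map_sub, map_smul, map_smul, A.ω'ω', A.ω'ω, ha]
      simp only [smul_eq_mul]
      field_simp
      ring
    have h3 : A.LT t *ᵥ v = v + ((t ^ 2 - 1) * a) • A.D.ω + (((t ^ 2)⁻¹ - 1) * a') •
        sv cj A.D.ω := by
      rw [LT, Matrix.add_mulVec, Matrix.add_mulVec, Matrix.one_mulVec, Matrix.smul_mulVec,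
        Matrix.smul_mulVec, A.P_vec, A.P'_vec, ← ha, ← ha', smul_smul, smul_smul]
    rw [h3]
    conv_lhs => rw [hv]
    rw [iT_add, iT_add, iT_smul, iT_smul, Matrix.mulVec_add, Matrix.mulVec_add,
      Matrix.mulVec_smul, Matrix.mulVec_smul, A.lω t ht, A.lω' t ht, A.l0 t ht x h1 h2, ← iT_smul,
      ← iT_smul, ← iT_smul, ← iT_smul, ← iT_add, ← iT_add]
    congr 1
    conv_rhs => rw [hv]
    ext i
    simp only [Pi.add_apply, Pi.smul_apply, smul_eq_mul]
    ring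
  · have h1 : v = A.E *ᵥ v + (v - A.E *ᵥ v) := by abel
    have h2 : A.E *ᵥ (A.E *ᵥ v) = A.E *ᵥ v := by rw [Matrix.mulVec_mulVec, A.hE]
    have h3 : A.E *ᵥ (v - A.E *ᵥ v) = 0 := by rw [Matrix.mulVec_sub, h2, sub_self]
    conv_lhs => rw [h1]
    rw [iV_add, Matrix.mulVec_add, A.lF t ht _ h2, A.lF' t ht _ h3, LV, Matrix.add_mulVec,
      Matrix.smul_mulVec, Matrix.smul_mulVec, Matrix.sub_mulVec, Matrix.one_mulVec, ← iV_smul,
      ← iV_smul, ← iV_add]

/-- The projector in terms of the multiplication. -/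
theorem E_eq : A.E = (2 * A.D.c * A.β)⁻¹ • (A.D.kap A.D.ω * A.D.kap (sv cj A.D.ω)) := by
  have hc : (2 * A.D.c * A.β : ℂ) ≠ 0 := mul_ne_zero (mul_ne_zero two_ne_zero A.D.hc') A.β_ne
  obtain ⟨e, he⟩ : ∃ e, e = (2 * A.D.c * A.β)⁻¹ • (A.D.kap A.D.ω * A.D.kap (sv cj A.D.ω)) :=
    ⟨_, rfl⟩
  have h1 : A.E * e = e := by
    rw [he, mul_smul_comm, ← mul_assoc, A.hEκ]
  have h2 : (1 - A.E) * A.D.kap (sv cj A.D.ω) = A.D.kap (sv cj A.D.ω) := by
    rw [← A.hEc, A.D.kap_sv, ← KD.map_mul_mat, A.hEκ]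
  have h3 : 1 - e = (2 * A.D.c * A.β)⁻¹ • (A.D.kap (sv cj A.D.ω) * A.D.kap A.D.ω) := by
    have h4 := A.D.cliff A.D.ω (sv cj A.D.ω)
    change _ = (2 * A.D.c * A.β : ℂ) • _ at h4
    have h5 := congrArg (fun M => (2 * A.D.c * A.β : ℂ)⁻¹ • M) h4
    simp only [smul_smul, inv_mul_cancel₀ hc, one_smul, smul_add] at h5
    rw [← he] at h5
    rw [← h5, add_sub_cancel_left]
  have h4 : (1 - A.E) * (1 - e) = 1 - e := by
    rw [h3, mul_smul_comm, ← mul_assoc, h2]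
  have h5 : A.E * (1 - e) = 0 := by
    rw [sub_mul, one_mul] at h4
    exact sub_eq_self.1 h4
  rw [← he]
  rw [mul_sub, mul_one, h1, sub_eq_zero] at h5
  exact h5

/-- The derivative of the cocharacter on the third component. -/
theorem two_E : (2 : ℂ) • A.E - 1 = (2 * A.β⁻¹) • (A.D.R A.D.ω (sv cj A.D.ω)).2 := by
  have hc : (2 * A.D.c * A.β : ℂ) ≠ 0 := mul_ne_zero (mul_ne_zero two_ne_zero A.D.hc') A.β_ne
  have h4 := A.D.cliff A.D.ω (sv cj A.D.ω)
  change _ = (2 * A.D.c * A.β : ℂ) • _ at h4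
  have h5 := congrArg (fun M => (2 * A.D.c * A.β : ℂ)⁻¹ • M) h4
  simp only [smul_smul, inv_mul_cancel₀ hc, one_smul, smul_add] at h5
  rw [← A.E_eq] at h5
  rw [A.D.R_two, ← h5, A.E_eq, smul_smul, smul_sub]
  have h6 : (2 * A.β⁻¹ * (4 * A.D.c : ℂ)⁻¹) = (2 * A.D.c * A.β)⁻¹ := by
    have := A.D.hc'
    have := A.β_ne
    field_simp
    norm_num
  rw [smul_sub, smul_smul, smul_smul, h6, two_mul ((2 * A.D.c * A.β : ℂ)⁻¹), add_smul]
  abel

/-- The derivative of the cocharacter on the second component. -/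
theorem two_P : (2 : ℂ) • A.P - (2 : ℂ) • A.P' =
    (2 * A.β⁻¹) • (A.D.R A.D.ω (sv cj A.D.ω)).1 := by
  rw [KD.R, P, P', smul_smul, smul_smul, ← smul_sub]

end HK

end Run7.h38.KS
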