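import Pool.Agent.Run7.h38.KS.Br2

/-!
# Matrices fixing the basic arrays
-/

set_option linter.unusedSectionVars false

namespace Run7.h38.KS

open Matrix ComplexConjugate Pool.Agent.N996.BP Pool.Agent.N996.FP

variable {s m n : Type} [Fintype s] [DecidableEq s] [Fintype m] [DecidableEq m] [Fintype n]
    [DecidableEq n]

lemma cq_transpose {p q : Type} (M : Matrix p q ℚ) : (cq M)ᵀ = cq Mᵀ := rfl

lemma cq_blk (u : Matrix s s ℚ) (x : Matrix m m ℚ) (y : Matrix n n ℚ) :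
    cq (blk u x y) = blk (cq u) (cq x) (cq y) := blk_map (Rat.castHom ℂ) u x y

lemma cq_zero {p q : Type} : cq (0 : Matrix p q ℚ) = 0 := by
  ext i j; simp [cq]

lemma cq_inj {p q : Type} {M N : Matrix p q ℚ} (h : cq M = cq N) : M = N := by
  ext i j
  have h1 := congrFun (congrFun h i) j
  simp only [cq, Matrix.map_apply] at h1
  exact_mod_cast h1

namespace HK

variable (A : HK s m n)

/-- The inverse forms. -/
def Qsi : Matrix s s ℚ := A.H.Qir.toBlocks₁₁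
/-- The inverse forms. -/
def Bi : Matrix m m ℚ := A.H.Qir.toBlocks₂₂.toBlocks₁₁
/-- The inverse forms. -/
def Qvi : Matrix n n ℚ := A.H.Qir.toBlocks₂₂.toBlocks₂₂

lemma blk_invs : A.Qs * A.Qsi = 1 ∧ A.D.B * A.Bi = 1 ∧ A.Qv * A.Qvi = 1 := by
  have h1 := A.H.Qr_Qir
  rw [A.hQr, ← Matrix.fromBlocks_toBlocks A.H.Qir, ← Matrix.fromBlocks_toBlocks
    A.H.Qir.toBlocks₂₂, blk, Matrix.fromBlocks_multiply, Matrix.fromBlocks_multiply,
    ← Matrix.fromBlocks_one, Matrix.fromBlocks_inj] at h1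
  obtain ⟨h2, -, -, h3⟩ := h1
  simp only [Matrix.zero_mul, zero_add] at h3
  rw [← Matrix.fromBlocks_one, Matrix.fromBlocks_inj] at h3
  obtain ⟨h4, -, -, h5⟩ := h3
  simp only [Matrix.zero_mul, add_zero, zero_add] at h2 h4 h5
  exact ⟨h2, h4, h5⟩

lemma hQir : A.H.Qir = blk A.Qsi A.Bi A.Qvi := by
  obtain ⟨h1, h2, h3⟩ := A.blk_invs
  have h4 : A.H.Qr * blk A.Qsi A.Bi A.Qvi = 1 := by
    rw [A.hQr, blk_mul, h1, h2, h3, blk_one]
  have h5 := mul_eq_one_comm.1 A.H.Qr_Qir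
  calc A.H.Qir = A.H.Qir * (A.H.Qr * blk A.Qsi A.Bi A.Qvi) := by rw [h4, Matrix.mul_one]
    _ = _ := by rw [← Matrix.mul_assoc, h5, Matrix.one_mul]

lemma cB : cq A.D.B * cq A.Bi = 1 := by rw [← cq_mul, A.blk_invs.2.1, cq_one]
lemma cB' : cq A.Bi * cq A.D.B = 1 := mul_eq_one_comm.1 A.cB
lemma cV : cq A.Qv * cq A.Qvi = 1 := by rw [← cq_mul, A.blk_invs.2.2, cq_one]
lemma cV' : cq A.Qvi * cq A.Qv = 1 := mul_eq_one_comm.1 A.cV

lemma Bi_symm : (cq A.Bi)ᵀ = cq A.Bi := by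
  have h1 : (cq A.Bi)ᵀ * cq A.D.B = 1 := by
    have h2 := congrArg Matrix.transpose A.cB
    rw [Matrix.transpose_mul, Matrix.transpose_one, cq_transpose A.D.B, A.D.hB] at h2
    exact h2
  calc (cq A.Bi)ᵀ = (cq A.Bi)ᵀ * (cq A.D.B * cq A.Bi) := by rw [A.cB, Matrix.mul_one]
    _ = _ := by rw [← Matrix.mul_assoc, h1, Matrix.one_mul]

/-- The components of the class of the multiplication. -/
def KTm (i : m) : Matrix n n ℚ := ∑ i', A.Bi i i' • (A.D.K i' * A.Qvi)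

/-- The class of the multiplication. -/
def KT : s ⊕ (m ⊕ n) → Matrix (s ⊕ (m ⊕ n)) (s ⊕ (m ⊕ n)) ℚ :=
  Sum.elim (fun _ => 0) (Sum.elim (fun i => blk 0 0 (A.KTm i)) fun _ => 0)

/-- The components of the class of the multiplication. -/
noncomputable def Nc (i : m) : Matrix n n ℂ := cq (A.KTm i)

lemma sum_Nc (y : m → ℂ) : ∑ i, y i • A.Nc i = A.D.kap (cq A.Bi *ᵥ y) * cq A.Qvi := by
  have h1 : ∀ i, A.Nc i = ∑ i', cq A.Bi i i' • (cq (A.D.K i') * cq A.Qvi) := by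
    intro i
    rw [Nc, KTm]
    ext j k
    simp only [cq, Matrix.map_apply, Matrix.sum_apply, Matrix.smul_apply, Matrix.mul_apply,
      smul_eq_mul]
    push_cast
    rfl
  simp only [h1, Finset.smul_sum, smul_smul]
  rw [Finset.sum_comm, KD.kap_apply, Finset.sum_mul]
  refine Finset.sum_congr rfl fun i' _ => ?_
  rw [smul_mul_assoc, ← Finset.sum_smul]
  congr 1
  rw [Matrix.mulVec, dotProduct]
  refine Finset.sum_congr rfl fun i _ => ?_
  have h2 := congrFun (congrFun A.Bi_symm i) i'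
  rw [Matrix.transpose_apply] at h2
  rw [h2, mul_comm]

lemma sum_KT (f : s ⊕ (m ⊕ n) → ℂ)
    (F : Matrix (s ⊕ (m ⊕ n)) (s ⊕ (m ⊕ n)) ℂ →ₗ[ℂ] Matrix (s ⊕ (m ⊕ n)) (s ⊕ (m ⊕ n)) ℂ) :
    ∑ u, f u • F (cq (A.KT u)) = ∑ i : m, f (Sum.inr (Sum.inl i)) • F (blk 0 0 (A.Nc i)) := by
  rw [Fintype.sum_sum_type, Fintype.sum_sum_type]
  have h1 : ∑ u : s, f (Sum.inl u) • F (cq (A.KT (Sum.inl u))) = 0 := by
    refine Finset.sum_eq_zero fun u _ => ?_
    change f (Sum.inl u) • F (cq 0) = 0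
    rw [cq_zero, map_zero, smul_zero]
  have h2 : ∑ u : n, f (Sum.inr (Sum.inr u)) • F (cq (A.KT (Sum.inr (Sum.inr u)))) = 0 := by
    refine Finset.sum_eq_zero fun u _ => ?_
    change f (Sum.inr (Sum.inr u)) • F (cq 0) = 0
    rw [cq_zero, map_zero, smul_zero]
  rw [h1, h2, zero_add, add_zero]
  refine Finset.sum_congr rfl fun i _ => ?_
  change f _ • F (cq (blk 0 0 (A.KTm i))) = _
  rw [cq_blk, cq_zero, cq_zero]
  rfl

/-- The matrix fixes the basic arrays. -/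
structure FixA (g : Matrix (s ⊕ (m ⊕ n)) (s ⊕ (m ⊕ n)) ℂ) : Prop where
  f1 : ∀ i : s, g *ᵥ Pi.single (Sum.inl i) 1 = Pi.single (Sum.inl i) 1
  f2 : g * cq A.H.Qir * gᵀ = cq A.H.Qir
  fV : g * cq (blk 0 0 A.Qvi) * gᵀ = cq (blk 0 0 A.Qvi)
  f3 : ∀ i, ∑ u, g i u • (g * cq (A.KT u) * gᵀ) = cq (A.KT i)

variable {A}

lemma comm_of_fix {g x : Matrix (s ⊕ (m ⊕ n)) (s ⊕ (m ⊕ n)) ℂ}
    (h2 : g * cq A.H.Qir * gᵀ = cq A.H.Qir) (h : g * (x * cq A.H.Qir) * gᵀ = x * cq A.H.Qir) :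
    g * x = x * g := by
  have hQQ : cq A.H.Qr * cq A.H.Qir = 1 := by rw [← cq_mul, A.H.Qr_Qir, cq_one]
  have hQQ' : cq A.H.Qir * cq A.H.Qr = 1 := mul_eq_one_comm.1 hQQ
  have h3 : g * (cq A.H.Qir * gᵀ * cq A.H.Qr) = 1 := by
    calc g * (cq A.H.Qir * gᵀ * cq A.H.Qr) = (g * cq A.H.Qir * gᵀ) * cq A.H.Qr := by
          simp only [Matrix.mul_assoc]
      _ = 1 := by rw [h2, hQQ']
  have h4 : (cq A.H.Qir * gᵀ * cq A.H.Qr) * g = 1 := mul_eq_one_comm.1 h3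
  calc g * x = g * x * ((cq A.H.Qir * gᵀ * cq A.H.Qr) * g) := by rw [h4, Matrix.mul_one]
    _ = (g * (x * cq A.H.Qir) * gᵀ) * cq A.H.Qr * g := by simp only [Matrix.mul_assoc]
    _ = x * (cq A.H.Qir * cq A.H.Qr) * g := by rw [h]; simp only [Matrix.mul_assoc]
    _ = _ := by rw [hQQ', Matrix.mul_one]

lemma blk_of_comm {g : Matrix (s ⊕ (m ⊕ n)) (s ⊕ (m ⊕ n)) ℂ}
    (h1 : g * blk 1 0 0 = blk 1 0 0 * g) (h2 : g * blk 0 0 1 = blk 0 0 1 * g) :
    ∃ u x y, g = blk u x y := by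
  have k1 : (blk 1 0 0 : Matrix (s ⊕ (m ⊕ n)) (s ⊕ (m ⊕ n)) ℂ) =
      Matrix.diagonal (Sum.elim (fun _ => 1) fun _ => 0) := by
    ext i j
    rcases i with i | i | i <;> rcases j with j | j | j <;>
      simp [blk, Matrix.diagonal_apply, Matrix.one_apply]
  have k2 : (blk 0 0 1 : Matrix (s ⊕ (m ⊕ n)) (s ⊕ (m ⊕ n)) ℂ) =
      Matrix.diagonal (Sum.elim (fun _ => 0) (Sum.elim (fun _ => 0) fun _ => 1)) := by
    ext i j
    rcases i with i | i | i <;> rcases j with j | j | j <;>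
      simp [blk, Matrix.diagonal_apply, Matrix.one_apply]
  rw [k1] at h1
  rw [k2] at h2
  have e1 : ∀ i j, g i j * (Sum.elim (fun _ => 1) (fun _ => 0) j : ℂ) =
      (Sum.elim (fun _ => 1) (fun _ => 0) i : ℂ) * g i j := by
    intro i j
    have := congrFun (congrFun h1 i) j
    rwa [Matrix.mul_diagonal, Matrix.diagonal_mul] at this
  have e2 : ∀ i j, g i j * (Sum.elim (fun _ => 0) (Sum.elim (fun _ => 0) fun _ => 1) j : ℂ) =
      (Sum.elim (fun _ => 0) (Sum.elim (fun _ => 0) fun _ => 1) i : ℂ) * g i j := by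
    intro i j
    have := congrFun (congrFun h2 i) j
    rwa [Matrix.mul_diagonal, Matrix.diagonal_mul] at this
  refine ⟨g.toBlocks₁₁, g.toBlocks₂₂.toBlocks₁₁, g.toBlocks₂₂.toBlocks₂₂, ?_⟩
  ext i j
  rcases i with i | i | i <;> rcases j with j | j | j
  · rfl
  · simpa [blk] using (e1 (Sum.inl i) (Sum.inr (Sum.inl j))).symm
  · simpa [blk] using (e1 (Sum.inl i) (Sum.inr (Sum.inr j))).symm
  · simpa [blk] using e1 (Sum.inr (Sum.inl i)) (Sum.inl j)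
  · rfl
  · simpa [blk] using e2 (Sum.inr (Sum.inl i)) (Sum.inr (Sum.inr j))
  · simpa [blk] using e1 (Sum.inr (Sum.inr i)) (Sum.inl j)
  · simpa [blk] using (e2 (Sum.inr (Sum.inr i)) (Sum.inr (Sum.inl j))).symm
  · rfl

/-- **Matrices fixing the basic arrays.** -/
theorem FixA.exists {g : Matrix (s ⊕ (m ⊕ n)) (s ⊕ (m ⊕ n)) ℂ} (h : A.FixA g) :
    ∃ p : Pr m n, g = blk 1 p.1 p.2 ∧ A.D.IsP p ∧ p.2 * cq A.Qvi * p.2ᵀ = cq A.Qvi := by
  -- the projector to the first component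
  have hs : g * blk 1 0 0 = blk 1 0 0 := by
    refine ext_vec fun v => ?_
    rw [← Matrix.mulVec_mulVec]
    have h1 : (blk 1 0 0 : Matrix (s ⊕ (m ⊕ n)) (s ⊕ (m ⊕ n)) ℂ) *ᵥ v =
        ∑ i : s, v (Sum.inl i) • Pi.single (Sum.inl i) 1 := by
      rw [i_sum v, Matrix.mulVec_add, Matrix.mulVec_add, blk_iS, blk_iT, blk_iV,
        Matrix.one_mulVec, Matrix.zero_mulVec, Matrix.zero_mulVec]
      ext j
      rw [Finset.sum_apply]
      rcases j with j | j | j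
      · simp [iS, iT, iV, Pi.single_apply]
      · simp [iS, iT, iV]
      · simp [iS, iT, iV]
    rw [h1, Matrix.mulVec_sum]
    refine Finset.sum_congr rfl fun i _ => ?_
    rw [Matrix.mulVec_smul, h.f1]
  have hQc : cq A.H.Qir = blk (cq A.Qsi) (cq A.Bi) (cq A.Qvi) := by rw [A.hQir, cq_blk]
  have hc1 : g * blk 1 0 0 = blk 1 0 0 * g := by
    refine comm_of_fix h.f2 ?_
    have h1 : (blk 1 0 0 : Matrix (s ⊕ (m ⊕ n)) (s ⊕ (m ⊕ n)) ℂ) * cq A.H.Qir =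
        blk 1 0 0 * cq A.H.Qir * (blk 1 0 0)ᵀ := by
      rw [hQc, blk_mul, blk_transpose, blk_mul]
      simp
    calc g * (blk 1 0 0 * cq A.H.Qir) * gᵀ =
        g * (blk 1 0 0 * cq A.H.Qir * (blk 1 0 0)ᵀ) * gᵀ := by rw [← h1]
      _ = (g * blk 1 0 0) * cq A.H.Qir * (g * blk 1 0 0)ᵀ := by
          rw [Matrix.transpose_mul]; simp only [Matrix.mul_assoc]
      _ = blk 1 0 0 * cq A.H.Qir := by rw [hs, ← h1]
  have hc2 : g * blk 0 0 1 = blk 0 0 1 * g := by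
    refine comm_of_fix h.f2 ?_
    have h1 : (blk 0 0 1 : Matrix (s ⊕ (m ⊕ n)) (s ⊕ (m ⊕ n)) ℂ) * cq A.H.Qir =
        cq (blk 0 0 A.Qvi) := by
      rw [hQc, blk_mul, cq_blk, cq_zero, cq_zero]
      simp
    rw [h1]
    exact h.fV
  obtain ⟨u, a, c, rfl⟩ := blk_of_comm hc1 hc2
  have hu : u = 1 := by
    rw [blk_mul] at hs
    have := (blk_inj hs).1
    rwa [Matrix.mul_one] at this
  subst hu
  have h2 := h.f2
  rw [hQc, blk_transpose, blk_mul, blk_mul] at h2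
  obtain ⟨-, ha, hc⟩ := blk_inj h2
  -- the inverse of `c`
  have hcc : c * (cq A.Qvi * cᵀ * cq A.Qv) = 1 := by
    calc c * (cq A.Qvi * cᵀ * cq A.Qv) = (c * cq A.Qvi * cᵀ) * cq A.Qv := by
          simp only [Matrix.mul_assoc]
      _ = 1 := by rw [hc, A.cV']
  have hcc' : (cq A.Qvi * cᵀ * cq A.Qv) * c = 1 := mul_eq_one_comm.1 hcc
  have haa : a * (cq A.Bi * aᵀ * cq A.D.B) = 1 := by
    calc a * (cq A.Bi * aᵀ * cq A.D.B) = (a * cq A.Bi * aᵀ) * cq A.D.B := by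
          simp only [Matrix.mul_assoc]
      _ = 1 := by rw [ha, A.cB']
  have haa' : (cq A.Bi * aᵀ * cq A.D.B) * a = 1 := mul_eq_one_comm.1 haa
  refine ⟨(a, c), rfl, ⟨?_, ?_, ⟨_, hcc⟩⟩, hc⟩
  · intro x y
    rw [bfm_apply, bfm_apply]
    have h3 : aᵀ * cq A.D.B * a = cq A.D.B := by
      calc aᵀ * cq A.D.B * a = (cq A.D.B * cq A.Bi) * (aᵀ * cq A.D.B * a) := by
            rw [A.cB, Matrix.one_mul]
        _ = cq A.D.B * ((cq A.Bi * aᵀ * cq A.D.B) * a) := by simp only [Matrix.mul_assoc]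
        _ = _ := by rw [haa', Matrix.mul_one]
    have h4 : a *ᵥ x ⬝ᵥ cq A.D.B *ᵥ (a *ᵥ y) = x ⬝ᵥ (aᵀ * cq A.D.B * a) *ᵥ y := by
      rw [← Matrix.mulVec_mulVec, ← Matrix.mulVec_mulVec, Matrix.dotProduct_mulVec x aᵀ,
        Matrix.vecMul_transpose]
    change a *ᵥ x ⬝ᵥ cq A.D.B *ᵥ (a *ᵥ y) = _
    rw [h4, h3]
  · intro t
    -- the relation for the class of the multiplication
    have h3 : ∀ i : m, ∑ j : m, a i j • (c * A.Nc j * cᵀ) = A.Nc i := by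
      intro i
      have h4 := h.f3 (Sum.inr (Sum.inl i))
      let F : Matrix (s ⊕ (m ⊕ n)) (s ⊕ (m ⊕ n)) ℂ →ₗ[ℂ] Matrix (s ⊕ (m ⊕ n)) (s ⊕ (m ⊕ n)) ℂ :=
        { toFun := fun X => blk 1 a c * X * (blk 1 a c)ᵀ
          map_add' := fun X Y => by rw [Matrix.mul_add, Matrix.add_mul]
          map_smul' := fun r X => by rw [Matrix.mul_smul, Matrix.smul_mul, RingHom.id_apply] }
      have h5 := A.sum_KT (fun u => (blk 1 a c : Matrix (s ⊕ (m ⊕ n)) (s ⊕ (m ⊕ n)) ℂ)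
        (Sum.inr (Sum.inl i)) u) F
      have h6 := h5.symm.trans h4
      have h7 : ∀ j : m, (blk 1 a c : Matrix (s ⊕ (m ⊕ n)) (s ⊕ (m ⊕ n)) ℂ)
          (Sum.inr (Sum.inl i)) (Sum.inr (Sum.inl j)) • F (blk 0 0 (A.Nc j)) =
          blk 0 0 (a i j • (c * A.Nc j * cᵀ)) := by
        intro j
        have e1 : (blk 1 a c : Matrix (s ⊕ (m ⊕ n)) (s ⊕ (m ⊕ n)) ℂ)
          (Sum.inr (Sum.inl i)) (Sum.inr (Sum.inl j)) = a i j := rfl
        have e2 : F (blk 0 0 (A.Nc j)) = blk 1 a c * blk 0 0 (A.Nc j) * (blk 1 a c)ᵀ := rfl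
        rw [e1, e2, blk_transpose, blk_mul, blk_mul, blk_smul]
        simp
      simp only [h7] at h6
      have h8 : ∑ j : m, (blk 0 0 (a i j • (c * A.Nc j * cᵀ)) :
          Matrix (s ⊕ (m ⊕ n)) (s ⊕ (m ⊕ n)) ℂ) =
          blk 0 0 (∑ j : m, a i j • (c * A.Nc j * cᵀ)) := by
        have h9 : ∀ S : Finset m, ∑ j ∈ S, (blk 0 0 (a i j • (c * A.Nc j * cᵀ)) :
          Matrix (s ⊕ (m ⊕ n)) (s ⊕ (m ⊕ n)) ℂ) =
            blk 0 0 (∑ j ∈ S, a i j • (c * A.Nc j * cᵀ)) := by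
          intro S
          induction S using Finset.induction_on with
          | empty => rw [Finset.sum_empty, Finset.sum_empty, blk_zero]
          | insert b S hb ih =>
            rw [Finset.sum_insert hb, Finset.sum_insert hb, ih, blk_add, add_zero, add_zero]
        exact h9 _
      rw [h8] at h6
      have h9 : cq (A.KT (Sum.inr (Sum.inl i))) = blk 0 0 (A.Nc i) := by
        change cq (blk 0 0 (A.KTm i)) = _
        rw [cq_blk, cq_zero, cq_zero]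
        rfl
      rw [h9] at h6
      exact (blk_inj h6).2.2
    -- with coefficients
    have h4 : ∀ y : m → ℂ, c * (A.D.kap (cq A.Bi *ᵥ (aᵀ *ᵥ y)) * cq A.Qvi) * cᵀ =
        A.D.kap (cq A.Bi *ᵥ y) * cq A.Qvi := by
      intro y
      rw [← A.sum_Nc, ← A.sum_Nc, Finset.mul_sum, Finset.sum_mul]
      have e1 : ∑ i, y i • A.Nc i = ∑ i, y i • ∑ j : m, a i j • (c * A.Nc j * cᵀ) :=
        Finset.sum_congr rfl fun i _ => by rw [h3 i]
      rw [e1]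
      simp only [Finset.smul_sum, smul_smul]
      rw [Finset.sum_comm]
      refine Finset.sum_congr rfl fun j _ => ?_
      rw [← Finset.sum_smul, mul_smul_comm, smul_mul_assoc, Matrix.mulVec, dotProduct]
      congr 1
      exact Finset.sum_congr rfl fun i _ => by rw [Matrix.transpose_apply, mul_comm]
    have h5 := h4 (cq A.D.B *ᵥ (a *ᵥ t))
    have h6 : cq A.Bi *ᵥ (aᵀ *ᵥ (cq A.D.B *ᵥ (a *ᵥ t))) = t := by
      rw [Matrix.mulVec_mulVec, Matrix.mulVec_mulVec, Matrix.mulVec_mulVec,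
        Matrix.mul_assoc (cq A.Bi * aᵀ) (cq A.D.B) a, ← Matrix.mul_assoc,
        haa', Matrix.one_mulVec]
    have h7 : cq A.Bi *ᵥ (cq A.D.B *ᵥ (a *ᵥ t)) = a *ᵥ t := by
      rw [Matrix.mulVec_mulVec, A.cB', Matrix.one_mulVec]
    rw [h6, h7] at h5
    change c * A.D.kap t = A.D.kap (a *ᵥ t) * c
    calc c * A.D.kap t = c * A.D.kap t * ((cq A.Qvi * cᵀ * cq A.Qv) * c) := by
          rw [hcc', Matrix.mul_one]
      _ = (c * (A.D.kap t * cq A.Qvi) * cᵀ) * cq A.Qv * c := by simp only [Matrix.mul_assoc]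
      _ = A.D.kap (a *ᵥ t) * (cq A.Qvi * cq A.Qv) * c := by
          rw [h5]; simp only [Matrix.mul_assoc]
      _ = _ := by rw [A.cV', Matrix.mul_one]

end HK

end Run7.h38.KS
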