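import Pool.Agent.Run7.h38.KS.Br3

/-!
# The Lie algebra and the group of the Hodge structure
-/

set_option linter.unusedSectionVars false

namespace Run7.h38.KS

open Matrix ComplexConjugate Pool.Agent.N996.BP Pool.Agent.N996.FP

variable {s m n : Type} [Fintype s] [DecidableEq s] [Fintype m] [DecidableEq m] [Fintype n]
    [DecidableEq n]

section Arr

variable {ι : Type} [Fintype ι] [DecidableEq ι] {H : HData ι}

lemma mem_BB {κ : Type} [Fintype κ] [DecidableEq κ] {a : (κ → ι) → ℚ} :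
    a ∈ BB H κ ↔ ∀ t : ℂ, t ≠ 0 → kp κ (H.l t) *ᵥ ca a = ca a := Iff.rfl

lemma a1_BB {v : ι → ℚ} : a1 v ∈ BB H Unit ↔
    ∀ t : ℂ, t ≠ 0 → H.l t *ᵥ (fun i => (v i : ℂ)) = fun i => (v i : ℂ) := by
  rw [mem_BB]
  have h0 : ca (a1 v) = a1 (fun i => (v i : ℂ)) := rfl
  constructor
  · intro h t ht
    have h1 := h t ht
    rw [h0, kp_a1] at h1
    exact a1_inj h1
  · intro h t ht
    rw [h0, kp_a1, h t ht]

lemma a2_BB {X : Matrix ι ι ℚ} : a2 X ∈ BB H (Unit ⊕ Unit) ↔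
    ∀ t : ℂ, t ≠ 0 → H.l t * cq X * (H.l t)ᵀ = cq X := by
  rw [mem_BB]
  have h0 : ca (a2 X) = a2 (cq X) := rfl
  constructor
  · intro h t ht
    have h1 := h t ht
    rw [h0, kp_a2] at h1
    exact a2_inj h1
  · intro h t ht
    rw [h0, kp_a2, h t ht]

lemma a2_mat (a : (Unit ⊕ Unit → ι) → ℚ) :
    ∃ X : Matrix ι ι ℚ, a = a2 X := by
  refine ⟨Matrix.of fun i j => a (Sum.elim (fun _ => i) fun _ => j), ?_⟩
  funext w
  rw [a2, Matrix.of_apply]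
  congr 1
  funext z
  rcases z with z | z <;> rfl

lemma lQir {t : ℂ} (ht : t ≠ 0) : H.l t * cq H.Qir * (H.l t)ᵀ = cq H.Qir := by
  have h3 : cQ H.Qr * cQ H.Qir = 1 := by rw [← cQ_mul, H.Qr_Qir, cQ_one]
  have h4 : cQ H.Qir * cQ H.Qr = 1 := mul_eq_one_comm.1 h3
  change H.l t * cQ H.Qir * (H.l t)ᵀ = cQ H.Qir
  calc H.l t * cQ H.Qir * (H.l t)ᵀ = H.l t * cQ H.Qir * ((H.l t)ᵀ * cQ H.Qr) * cQ H.Qir := by
        simp only [Matrix.mul_assoc]
        rw [h3, Matrix.mul_one]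
    _ = H.l t * (cQ H.Qir * cQ H.Qr) * H.l t⁻¹ * cQ H.Qir := by
        rw [H.l_tr ht]; simp only [Matrix.mul_assoc]
    _ = _ := by rw [h4, Matrix.mul_one, H.l_inv ht, Matrix.one_mul]

lemma So_a1 {g : Matrix ι ι ℂ} (hg : g ∈ So H) {v : ι → ℚ} (hv : a1 v ∈ BB H Unit) :
    g *ᵥ (fun i => (v i : ℂ)) = fun i => (v i : ℂ) := by
  have h1 := hg Unit _ hv
  have h0 : ca (a1 v) = a1 (fun i => (v i : ℂ)) := rfl
  rw [h0, kp_a1] at h1
  exact a1_inj h1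

lemma So_a2 {g : Matrix ι ι ℂ} (hg : g ∈ So H) {X : Matrix ι ι ℚ}
    (hX : a2 X ∈ BB H (Unit ⊕ Unit)) : g * cq X * gᵀ = cq X := by
  have h1 := hg (Unit ⊕ Unit) _ hX
  have h0 : ca (a2 X) = a2 (cq X) := rfl
  rw [h0, kp_a2] at h1
  exact a2_inj h1

lemma So_a3 {g : Matrix ι ι ℂ} (hg : g ∈ So H) {X : ι → Matrix ι ι ℚ}
    (hX : a3 X ∈ BB H (Unit ⊕ (Unit ⊕ Unit))) (i : ι) :
    ∑ u, g i u • (g * cq (X u) * gᵀ) = cq (X i) := by
  have h1 := hg (Unit ⊕ (Unit ⊕ Unit)) _ hX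
  have h0 : ca (a3 X) = a3 (fun i => cq (X i)) := rfl
  rw [h0, kp_a3] at h1
  exact congrFun (a3_inj h1) i

lemma ho_a2 {z : Matrix ι ι ℂ} (hz : z ∈ ho H) {X : Matrix ι ι ℚ}
    (hX : a2 X ∈ BB H (Unit ⊕ Unit)) : z * cq X + cq X * zᵀ = 0 := by
  have h1 := hz (Unit ⊕ Unit) _ hX
  have h0 : ca (a2 X) = a2 (cq X) := rfl
  have h2 : (0 : (Unit ⊕ Unit → ι) → ℂ) = a2 (0 : Matrix ι ι ℂ) := rfl
  rw [h0, dk_a2, h2] at h1
  exact a2_inj h1

lemma ho_a3 {z : Matrix ι ι ℂ} (hz : z ∈ ho H) {X : ι → Matrix ι ι ℚ}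
    (hX : a3 X ∈ BB H (Unit ⊕ (Unit ⊕ Unit))) (i : ι) :
    (∑ u, z i u • cq (X u)) + (z * cq (X i) + cq (X i) * zᵀ) = 0 := by
  have h1 := hz (Unit ⊕ (Unit ⊕ Unit)) _ hX
  have h0 : ca (a3 X) = a3 (fun i => cq (X i)) := rfl
  have h2 : (0 : (Unit ⊕ (Unit ⊕ Unit) → ι) → ℂ) = a3 (fun _ => (0 : Matrix ι ι ℂ)) := rfl
  rw [h0, dk_a3, h2] at h1
  exact congrFun (a3_inj h1) i

/-- The Lie algebra is stable under the automorphisms of the coefficients. -/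
lemma ho_gal (σ : ℂ ≃+* ℂ) {z : Matrix ι ι ℂ} (hz : z ∈ ho H) : z.map σ ∈ ho H := by
  intro κ _ _ a ha
  have h1 : dk κ (z.map σ) = (dk κ z).map σ := by
    ext i j
    rw [dk, dk, Matrix.sum_apply, Matrix.map_apply, Matrix.sum_apply, map_sum]
    refine Finset.sum_congr rfl fun k _ => ?_
    rw [slot_apply, slot_apply, map_mul, map_prod, Matrix.map_apply]
    congr 1
    refine Finset.prod_congr rfl fun m _ => ?_
    rw [Matrix.one_apply]
    split_ifs <;> simp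
  funext i
  have h2 := congrArg σ (congrFun (hz κ a ha) i)
  rw [Matrix.mulVec, dotProduct, map_sum] at h2
  rw [h1, Matrix.mulVec, dotProduct]
  simp only [map_mul, ca, map_ratCast, Matrix.map_apply, Pi.zero_apply, map_zero] at h2 ⊢
  exact h2

/-- The matrix given by a matrix indexed by maps from a point. -/
def un (x : Matrix (Unit → ι) (Unit → ι) ℂ) : Matrix ι ι ℂ :=
  Matrix.of fun i j => x (fun _ => i) fun _ => j

lemma un_mul (x y : Matrix (Unit → ι) (Unit → ι) ℂ) : un (x * y) = un x * un y := by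
  ext i j
  rw [un, Matrix.of_apply, Matrix.mul_apply, Matrix.mul_apply, sumU]
  rfl

lemma un_add (x y : Matrix (Unit → ι) (Unit → ι) ℂ) : un (x + y) = un x + un y := rfl

lemma un_kp (g : Matrix ι ι ℂ) : un (kp Unit g) = g := by
  ext i j
  rw [un, Matrix.of_apply, kp_unit]

lemma un_scalar (c : ℂ) : un (algebraMap ℂ (Matrix (Unit → ι) (Unit → ι) ℂ) c) =
    c • (1 : Matrix ι ι ℂ) := by
  ext i j
  rw [un, Matrix.of_apply, Algebra.algebraMap_eq_smul_one, Matrix.smul_apply, Matrix.smul_apply,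
    Matrix.one_apply, Matrix.one_apply]
  congr 1
  by_cases h : i = j
  · subst h; simp
  · rw [if_neg h, if_neg]
    intro h'
    exact h (congrFun h' ())

end Arr

namespace HK

variable {A : HK s m n}

lemma Qir_BB : a2 A.H.Qir ∈ BB A.H (Unit ⊕ Unit) := a2_BB.2 fun _ ht => lQir ht

lemma LV_Qvi {t : ℂ} (ht : t ≠ 0) : A.LV t * cq A.Qvi * (A.LV t)ᵀ = cq A.Qvi := by
  have h1 := lQir (H := A.H) ht
  rw [A.hl ht, A.hQir, cq_blk, blk_transpose, blk_mul, blk_mul] at h1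
  exact (blk_inj h1).2.2

lemma a2V_BB {M : Matrix n n ℚ} (hM : ∀ t : ℂ, t ≠ 0 → A.LV t * cq M * (A.LV t)ᵀ = cq M) :
    a2 (blk 0 0 M) ∈ BB A.H (Unit ⊕ Unit) := by
  refine a2_BB.2 fun t ht => ?_
  rw [A.hl ht, cq_blk, blk_transpose, blk_mul, blk_mul, hM t ht, cq_zero, cq_zero]
  simp

lemma Qvi_BB : a2 (blk 0 0 A.Qvi) ∈ BB A.H (Unit ⊕ Unit) := a2V_BB fun _ ht => LV_Qvi ht

lemma cast_single {p : Type} [DecidableEq p] (i : p) :
    (fun j => (((Pi.single i 1 : p → ℚ) j : ℚ) : ℂ)) = Pi.single i 1 := by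
  funext j
  rw [Pi.single_apply, Pi.single_apply]
  split_ifs <;> simp

lemma single_iS (i : s) : (Pi.single (Sum.inl i) 1 : s ⊕ (m ⊕ n) → ℂ) =
    iS (Pi.single i 1) := by
  funext j
  rcases j with j | j | j <;> simp [iS, Pi.single_apply]

lemma eS_BB (i : s) : a1 (Pi.single (Sum.inl i) 1) ∈ BB A.H Unit := by
  refine a1_BB.2 fun t ht => ?_
  rw [cast_single, single_iS, A.lS t ht]

/-- Elements of the group fix the basic arrays. -/
lemma fixA_of_So (hKT : a3 A.KT ∈ BB A.H (Unit ⊕ (Unit ⊕ Unit)))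
    {g : Matrix (s ⊕ (m ⊕ n)) (s ⊕ (m ⊕ n)) ℂ} (hg : g ∈ So A.H) : A.FixA g where
  f1 i := by
    have h1 := So_a1 hg (eS_BB (A := A) i)
    rwa [cast_single] at h1
  f2 := So_a2 hg Qir_BB
  fV := So_a2 hg Qvi_BB
  f3 i := So_a3 hg hKT i

/-- Elements of the Lie algebra are derivations of the form and of the multiplication. -/
lemma isZ_of_ho (hKT : a3 A.KT ∈ BB A.H (Unit ⊕ (Unit ⊕ Unit)))
    {x : Matrix m m ℂ} {y : Matrix n n ℂ} (hz : blk 0 x y ∈ ho A.H) : A.D.IsZ (x, y) := by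
  have h1 := ho_a2 hz Qir_BB
  rw [A.hQir, cq_blk, blk_transpose, blk_mul, blk_mul, blk_add, ← blk_zero] at h1
  obtain ⟨-, hx, hy⟩ := blk_inj h1
  -- `x` and the form
  have hx1 : xᵀ * cq A.D.B = -(cq A.D.B * x) := by
    have h2 : cq A.Bi * xᵀ = -(x * cq A.Bi) := by
      rw [eq_neg_iff_add_eq_zero, add_comm]; exact hx
    calc xᵀ * cq A.D.B = (cq A.D.B * cq A.Bi) * xᵀ * cq A.D.B := by rw [A.cB, Matrix.one_mul]
      _ = cq A.D.B * (cq A.Bi * xᵀ) * cq A.D.B := by simp only [Matrix.mul_assoc]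
      _ = -(cq A.D.B * x * (cq A.Bi * cq A.D.B)) := by
          rw [h2, Matrix.mul_neg, Matrix.neg_mul]; simp only [Matrix.mul_assoc]
      _ = _ := by rw [A.cB', Matrix.mul_one]
  have hx2 : cq A.Bi * xᵀ * cq A.D.B = -x := by
    rw [Matrix.mul_assoc, hx1, Matrix.mul_neg, ← Matrix.mul_assoc, A.cB', Matrix.one_mul]
  have hy1 : cq A.Qvi * yᵀ = -(y * cq A.Qvi) := by
    rw [eq_neg_iff_add_eq_zero, add_comm]; exact hy
  constructor
  · intro u v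
    rw [bfm_apply, bfm_apply]
    change x *ᵥ u ⬝ᵥ cq A.D.B *ᵥ v + u ⬝ᵥ cq A.D.B *ᵥ (x *ᵥ v) = 0
    have h4 : x *ᵥ u ⬝ᵥ cq A.D.B *ᵥ v = u ⬝ᵥ (xᵀ * cq A.D.B) *ᵥ v := by
      rw [← Matrix.mulVec_mulVec, Matrix.dotProduct_mulVec u xᵀ, Matrix.vecMul_transpose]
    rw [h4, hx1, Matrix.neg_mulVec, dotProduct_neg, ← Matrix.mulVec_mulVec, neg_add_cancel]
  · intro t
    have h3 : ∀ i : m, (∑ j : m, x i j • A.Nc j) + (y * A.Nc i + A.Nc i * yᵀ) = 0 := by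
      intro i
      have h4 := ho_a3 hz hKT (Sum.inr (Sum.inl i))
      have h5 := A.sum_KT (fun u => (blk 0 x y : Matrix (s ⊕ (m ⊕ n)) (s ⊕ (m ⊕ n)) ℂ)
        (Sum.inr (Sum.inl i)) u) LinearMap.id
      have h7 : ∑ j : m, (blk 0 x y : Matrix (s ⊕ (m ⊕ n)) (s ⊕ (m ⊕ n)) ℂ)
          (Sum.inr (Sum.inl i)) (Sum.inr (Sum.inl j)) • LinearMap.id (R := ℂ)
            (blk 0 0 (A.Nc j) : Matrix (s ⊕ (m ⊕ n)) (s ⊕ (m ⊕ n)) ℂ) =
          blk 0 0 (∑ j : m, x i j • A.Nc j) := by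
        have h9 : ∀ S : Finset m, ∑ j ∈ S, (blk 0 x y : Matrix (s ⊕ (m ⊕ n)) (s ⊕ (m ⊕ n)) ℂ)
          (Sum.inr (Sum.inl i)) (Sum.inr (Sum.inl j)) • LinearMap.id (R := ℂ)
            (blk 0 0 (A.Nc j) : Matrix (s ⊕ (m ⊕ n)) (s ⊕ (m ⊕ n)) ℂ) =
            blk 0 0 (∑ j ∈ S, x i j • A.Nc j) := by
          intro S
          induction S using Finset.induction_on with
          | empty => rw [Finset.sum_empty, Finset.sum_empty, blk_zero]
          | insert b S hb ih =>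
            have e1 : (blk 0 x y : Matrix (s ⊕ (m ⊕ n)) (s ⊕ (m ⊕ n)) ℂ)
              (Sum.inr (Sum.inl i)) (Sum.inr (Sum.inl b)) = x i b := rfl
            rw [Finset.sum_insert hb, Finset.sum_insert hb, ih, e1, LinearMap.id_apply, blk_smul,
              blk_add]
            simp
        exact h9 _
      have h9 : cq (A.KT (Sum.inr (Sum.inl i))) = blk 0 0 (A.Nc i) := by
        change cq (blk 0 0 (A.KTm i)) = _
        rw [cq_blk, cq_zero, cq_zero]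
        rfl
      simp only [LinearMap.id_apply] at h5 h7
      rw [h5, h7, h9, blk_transpose, blk_mul, blk_mul, blk_add, blk_add, ← blk_zero] at h4
      exact (blk_inj h4).2.2
    have h4 : ∀ w : m → ℂ, A.D.kap (cq A.Bi *ᵥ (xᵀ *ᵥ w)) * cq A.Qvi +
        (y * (A.D.kap (cq A.Bi *ᵥ w) * cq A.Qvi) +
          (A.D.kap (cq A.Bi *ᵥ w) * cq A.Qvi) * yᵀ) = 0 := by
      intro w
      rw [← A.sum_Nc, ← A.sum_Nc, Finset.mul_sum, Finset.sum_mul]
      have e1 : ∑ i, (xᵀ *ᵥ w) i • A.Nc i = ∑ i, w i • ∑ j : m, x i j • A.Nc j := by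
        simp only [Finset.smul_sum, smul_smul]
        rw [Finset.sum_comm]
        refine Finset.sum_congr rfl fun j _ => ?_
        rw [← Finset.sum_smul, Matrix.mulVec, dotProduct]
        congr 1
        exact Finset.sum_congr rfl fun i _ => by rw [Matrix.transpose_apply, mul_comm]
      rw [e1, ← Finset.sum_add_distrib, ← Finset.sum_add_distrib]
      refine Finset.sum_eq_zero fun i _ => ?_
      rw [mul_smul_comm, smul_mul_assoc, ← smul_add, ← smul_add, h3, smul_zero]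
    have h5 := h4 (cq A.D.B *ᵥ t)
    have h6 : cq A.Bi *ᵥ (xᵀ *ᵥ (cq A.D.B *ᵥ t)) = -(x *ᵥ t) := by
      rw [Matrix.mulVec_mulVec, Matrix.mulVec_mulVec, hx2, Matrix.neg_mulVec]
    have h7 : cq A.Bi *ᵥ (cq A.D.B *ᵥ t) = t := by
      rw [Matrix.mulVec_mulVec, A.cB', Matrix.one_mulVec]
    rw [h6, h7, map_neg, Matrix.mul_assoc (A.D.kap t), hy1] at h5
    have h8 : (y * A.D.kap t - A.D.kap t * y - A.D.kap (x *ᵥ t)) * cq A.Qvi = 0 := by
      rw [Matrix.sub_mul, Matrix.sub_mul]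
      rw [Matrix.mul_neg, Matrix.neg_mul] at h5
      simp only [Matrix.mul_assoc]
      rw [← h5]
      abel
    have h9 : y * A.D.kap t - A.D.kap t * y - A.D.kap (x *ᵥ t) = 0 := by
      calc y * A.D.kap t - A.D.kap t * y - A.D.kap (x *ᵥ t) =
          ((y * A.D.kap t - A.D.kap t * y - A.D.kap (x *ᵥ t)) * cq A.Qvi) * cq A.Qv := by
            rw [Matrix.mul_assoc, A.cV', Matrix.mul_one]
        _ = 0 := by rw [h8, Matrix.zero_mul]
    exact sub_eq_zero.1 h9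

end HK

end Run7.h38.KS
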