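import Pool.Agent.Run7.h38.KS.BlkB

/-!
# Even elements which commute with all vectors
-/

set_option linter.unusedSectionVars false

namespace Run7.h38.KS

open Matrix ComplexConjugate

variable {m n : Type} [Fintype m] [DecidableEq m] [Fintype n] [DecidableEq n]

namespace KD

variable {D : KD m n} {d : ℕ} {e : Fin d → (m → ℂ)}

lemma vol_append (l l' : List (m → ℂ)) : D.vol (l ++ l') = D.vol l * D.vol l' := by
  rw [vol, List.map_append, List.prod_append]
  rfl

lemma vol_nil : D.vol [] = 1 := rfl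

/-- The sign of the commutation with a basis vector. -/
lemma vol_count (he : ∀ i j, D.b (e i) (e j) = if i = j then 1 else 0) (i : Fin d)
    (l : List (Fin d)) : D.vol (l.map e) * D.kap (e i) =
      ((-1 : ℂ) ^ (l.length + l.count i)) • (D.kap (e i) * D.vol (l.map e)) := by
  induction l with
  | nil => simp [vol_nil]
  | cons a l ih =>
    rw [List.map_cons, vol_cons, mul_assoc, ih, mul_smul_comm, ← mul_assoc]
    by_cases h : a = i
    · subst h
      rw [List.length_cons, List.count_cons_self]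
      have h1 : (-1 : ℂ) ^ (l.length + 1 + (l.count a + 1)) =
          (-1 : ℂ) ^ (l.length + l.count a) := by
        rw [show l.length + 1 + (l.count a + 1) = l.length + l.count a + 2 by ring, pow_add]
        simp
      rw [h1, mul_assoc]
    · rw [D.kap_anti (by rw [he, if_neg h]), List.length_cons, List.count_cons_of_ne h, neg_mul,
        smul_neg, show l.length + 1 + l.count i = l.length + l.count i + 1 by ring, pow_succ,
        mul_neg_one, neg_smul, mul_assoc]

/-- Products in which all indices occur an even number of times are scalar. -/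
lemma vol_scalar (he : ∀ i j, D.b (e i) (e j) = if i = j then 1 else 0) :
    ∀ (k : ℕ) (l : List (Fin d)), l.length ≤ k → (∀ i, Even (l.count i)) →
      ∃ c : ℂ, D.vol (l.map e) = c • (1 : Matrix n n ℂ) := by
  intro k
  induction k with
  | zero =>
    intro l hl _
    have h1 : l = [] := List.length_eq_zero_iff.1 (Nat.le_zero.1 hl)
    rw [h1]
    exact ⟨1, by rw [one_smul]; rfl⟩
  | succ k ih =>
    intro l hl hev
    rcases l with _ | ⟨i, l⟩
    · exact ⟨1, by rw [one_smul]; rfl⟩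
    have h1 := hev i
    rw [List.count_cons_self, Nat.even_add_one] at h1
    have h2 : i ∈ l := by
      rw [← List.count_pos_iff]
      rcases Nat.eq_zero_or_pos (l.count i) with h0 | h0
      · rw [h0] at h1
        exact absurd Even.zero h1
      · exact h0
    obtain ⟨l₁, l₂, hi, rfl⟩ : ∃ l₁ l₂, i ∉ l₁ ∧ l = l₁ ++ i :: l₂ := by
      obtain ⟨s, t, h3, h4⟩ := List.eq_append_cons_of_mem h2
      exact ⟨s, t, h4, h3⟩
    obtain ⟨c, hc⟩ := ih (l₁ ++ l₂) (by
      simp only [List.length_cons, List.length_append] at hl ⊢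
      omega) (fun j => by
        have h3 := hev j
        rw [List.count_append]
        by_cases hj : i = j
        · subst hj
          rw [List.count_cons_self, List.count_append, List.count_cons_self] at h3
          have h4 : List.count i l₁ + (List.count i l₂ + 1) + 1 =
              List.count i l₁ + List.count i l₂ + 2 := by ring
          rw [h4, Nat.even_add] at h3
          exact h3.2 even_two
        · rw [List.count_cons_of_ne hj, List.count_append, List.count_cons_of_ne hj] at h3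
          exact h3)
    have h3 := vol_count he i l₁
    rw [List.count_eq_zero_of_not_mem hi, add_zero] at h3
    have h4 : D.kap (e i) * D.vol (l₁.map e) =
        ((-1 : ℂ) ^ l₁.length) • (D.vol (l₁.map e) * D.kap (e i)) := by
      rw [h3, smul_smul, ← mul_pow, neg_one_mul, neg_neg, one_pow, one_smul]
    refine ⟨(-1 : ℂ) ^ l₁.length * (D.c * c), ?_⟩
    rw [List.map_cons, vol_cons, List.map_append, vol_append, List.map_cons, vol_cons,
      ← mul_assoc, h4, smul_mul_assoc, mul_assoc, ← mul_assoc (D.kap (e i)), D.kap_sq, he,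
      if_pos rfl, mul_one, smul_mul_assoc, one_mul, mul_smul_comm, ← vol_append,
      ← List.map_append, hc, smul_smul, smul_smul, mul_assoc]

/-- The span of the products of even length in which the first indices occur an even number of
times. -/
def CE (D : KD m n) (e : Fin d → (m → ℂ)) (k : ℕ) : Submodule ℂ (Matrix n n ℂ) :=
  Submodule.span ℂ {X | ∃ l : List (Fin d), Even l.length ∧
    (∀ i : Fin d, (i : ℕ) < k → Even (l.count i)) ∧ X = D.vol (l.map e)}

lemma CE_step (he : ∀ i j, D.b (e i) (e j) = if i = j then 1 else 0) {k : ℕ} (hk : k < d)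
    {X : Matrix n n ℂ} (hX : X ∈ D.CE e k) (hc : X * D.kap (e ⟨k, hk⟩) = D.kap (e ⟨k, hk⟩) * X) :
    X ∈ D.CE e (k + 1) := by
  have key : ∀ X ∈ D.CE e k,
      (2 : ℂ)⁻¹ • (X + (D.c : ℂ)⁻¹ • (D.kap (e ⟨k, hk⟩) * X * D.kap (e ⟨k, hk⟩))) ∈
        D.CE e (k + 1) := by
    intro X hX
    induction hX using Submodule.span_induction with
    | mem x hx =>
      obtain ⟨l, hl, h1, rfl⟩ := hx
      have h2 := vol_count he ⟨k, hk⟩ l
      have h3 : (D.c : ℂ)⁻¹ • (D.kap (e ⟨k, hk⟩) * D.vol (l.map e) * D.kap (e ⟨k, hk⟩)) =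
          ((-1 : ℂ) ^ (l.count ⟨k, hk⟩)) • D.vol (l.map e) := by
        rw [mul_assoc, h2, mul_smul_comm, ← mul_assoc, D.kap_sq, he, if_pos rfl, mul_one,
          smul_mul_assoc, one_mul, smul_smul, smul_smul, pow_add, hl.neg_one_pow, one_mul]
        congr 1
        have := D.hc'
        field_simp
      rw [h3]
      rcases Nat.even_or_odd (l.count ⟨k, hk⟩) with h4 | h4
      · rw [h4.neg_one_pow, one_smul, ← two_smul ℂ, smul_smul, inv_mul_cancel₀ two_ne_zero,
          one_smul]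
        refine Submodule.subset_span ⟨l, hl, fun i hi => ?_, rfl⟩
        rcases Nat.lt_succ_iff_lt_or_eq.1 hi with h5 | h5
        · exact h1 i h5
        · have h6 : i = ⟨k, hk⟩ := Fin.ext h5
          rw [h6]
          exact h4
      · rw [h4.neg_one_pow, neg_one_smul, add_neg_cancel, smul_zero]
        exact Submodule.zero_mem _
    | zero =>
      rw [mul_zero, zero_mul, smul_zero, add_zero, smul_zero]
      exact Submodule.zero_mem _
    | add x y _ _ hx hy =>
      have h1 := Submodule.add_mem _ hx hy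
      convert h1 using 1
      simp only [mul_add, add_mul, smul_add]
      abel
    | smul a x _ hx =>
      have h1 := Submodule.smul_mem _ a hx
      convert h1 using 1
      rw [mul_smul_comm, smul_mul_assoc, smul_comm (D.c : ℂ)⁻¹ a, ← smul_add,
        smul_comm a (2 : ℂ)⁻¹]
  have h1 := key X hX
  have h2 : (2 : ℂ)⁻¹ • (X + (D.c : ℂ)⁻¹ • (D.kap (e ⟨k, hk⟩) * X * D.kap (e ⟨k, hk⟩))) = X := by
    rw [mul_assoc, hc, ← mul_assoc, D.kap_sq, he, if_pos rfl, mul_one, smul_mul_assoc, one_mul,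
      smul_smul, inv_mul_cancel₀ D.hc', one_smul, ← two_smul ℂ, smul_smul,
      inv_mul_cancel₀ two_ne_zero, one_smul]
  rwa [h2] at h1

lemma CE_mul {X Y : Matrix n n ℂ} (hX : X ∈ D.CE e 0) (hY : Y ∈ D.CE e 0) :
    X * Y ∈ D.CE e 0 := by
  induction hX using Submodule.span_induction with
  | mem x hx =>
    obtain ⟨l, hl, h1, rfl⟩ := hx
    induction hY using Submodule.span_induction with
    | mem y hy =>
      obtain ⟨l', hl', h1', rfl⟩ := hy
      refine Submodule.subset_span ⟨l ++ l', ?_, fun i hi => absurd hi (Nat.not_lt_zero _), ?_⟩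
      · rw [List.length_append]
        exact hl.add hl'
      · rw [List.map_append, vol_append]
    | zero => rw [mul_zero]; exact Submodule.zero_mem _
    | add x y _ _ hx hy => rw [mul_add]; exact Submodule.add_mem _ hx hy
    | smul a x _ hx => rw [mul_smul_comm]; exact Submodule.smul_mem _ _ hx
  | zero => rw [zero_mul]; exact Submodule.zero_mem _
  | add x y _ _ hx hy => rw [add_mul]; exact Submodule.add_mem _ hx hy
  | smul a x _ hx => rw [smul_mul_assoc]; exact Submodule.smul_mem _ _ hx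

lemma CE_one : (1 : Matrix n n ℂ) ∈ D.CE e 0 :=
  Submodule.subset_span ⟨[], by simp, fun i hi => absurd hi (Nat.not_lt_zero _), rfl⟩

lemma CE_kap (hE : ∀ x : m → ℂ, x = ∑ i, D.b (e i) x • e i) (x y : m → ℂ) :
    D.kap x * D.kap y ∈ D.CE e 0 := by
  rw [hE x, hE y, map_sum, map_sum, Finset.sum_mul_sum]
  refine Submodule.sum_mem _ fun i _ => Submodule.sum_mem _ fun j _ => ?_
  rw [map_smul, map_smul, smul_mul_smul_comm]
  refine Submodule.smul_mem _ _ (Submodule.subset_span ⟨[i, j], by simp,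
    fun i hi => absurd hi (Nat.not_lt_zero _), ?_⟩)
  simp [vol]

/-- **Even elements commuting with all vectors are scalar.** -/
theorem even_scalar {X : Matrix n n ℂ} (hX : X ∈ D.AA)
    (hc : ∀ t, X * D.kap t = D.kap t * X) : ∃ c : ℂ, X = c • (1 : Matrix n n ℂ) := by
  obtain ⟨d, e, -, he, hE⟩ := D.exists_onb ⊤ fun x _ h => D.nondeg fun y => h y trivial
  have hE' : ∀ x : m → ℂ, x = ∑ i, D.b (e i) x • e i := fun x => hE x trivial
  have h0 : X ∈ D.CE e 0 := by
    let S : Subalgebra ℂ (Matrix n n ℂ) :=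
      { carrier := D.CE e 0
        mul_mem' := fun ha hb => CE_mul ha hb
        one_mem' := CE_one
        add_mem' := fun ha hb => Submodule.add_mem _ ha hb
        zero_mem' := Submodule.zero_mem _
        algebraMap_mem' := fun r => by
          rw [Algebra.algebraMap_eq_smul_one]
          exact Submodule.smul_mem _ _ CE_one }
    have h1 : D.AA ≤ S := by
      refine Algebra.adjoin_le ?_
      rintro _ ⟨σ, rfl⟩
      rw [D.R_two]
      exact Submodule.smul_mem _ _ (Submodule.sub_mem _ (CE_kap hE' _ _) (CE_kap hE' _ _))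
    exact h1 hX
  have key : ∀ k ≤ d, X ∈ D.CE e k := by
    intro k
    induction k with
    | zero => intro _; exact h0
    | succ k ih =>
      intro hk
      exact CE_step he (by omega) (ih (by omega)) (hc _)
  have h1 := key d le_rfl
  clear key h0 hX hc
  induction h1 using Submodule.span_induction with
  | mem x hx =>
    obtain ⟨l, hl, h1, rfl⟩ := hx
    exact vol_scalar he _ l le_rfl fun i => h1 i i.2
  | zero => exact ⟨0, by rw [zero_smul]⟩
  | add x y _ _ hx hy =>
    obtain ⟨a, ha⟩ := hx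
    obtain ⟨b, hb⟩ := hy
    exact ⟨a + b, by rw [add_smul, ha, hb]⟩
  | smul a x _ hx =>
    obtain ⟨b, hb⟩ := hx
    exact ⟨a * b, by rw [mul_smul, hb]⟩

/-- Vectors orthogonal to the conjugates of the period vanish. -/
lemma orth_period {y : m → ℂ} (h : ∀ σ : ℂ ≃+* ℂ, D.b (sv σ D.ω) y = 0) : y = 0 := by
  let C : Submodule ℂ (m → ℂ) :=
    { carrier := {y | ∀ σ : ℂ ≃+* ℂ, D.b (sv σ D.ω) y = 0}
      add_mem' := fun {a b} ha hb σ => by rw [map_add, ha σ, hb σ, add_zero]
      zero_mem' := fun σ => map_zero _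
      smul_mem' := fun c a ha σ => by rw [map_smul, ha σ, smul_zero] }
  have hC : ∀ (σ : ℂ ≃+* ℂ), ∀ v ∈ C, (fun i => σ (v i)) ∈ C := by
    intro σ v hv τ
    have h1 := hv (τ.trans σ.symm)
    have h2 : sv σ (sv (τ.trans σ.symm) D.ω) = sv τ D.ω := by
      ext i
      simp [sv]
    have h3 := D.b_sv σ (sv (τ.trans σ.symm) D.ω) v
    rw [h2, h1, map_zero] at h3
    exact h3
  have h1 := Pool.Agent.W437.HD.span_rational C hC
  have h2 : y ∈ C := h
  rw [h1] at h2
  have h3 : Submodule.span ℂ {w | w ∈ C ∧ ∃ u : m → ℚ, w = fun i => (u i : ℂ)} = ⊥ := by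
    rw [Submodule.span_eq_bot]
    rintro w ⟨hw, u, rfl⟩
    have h4 := hw (RingEquiv.refl ℂ)
    have h5 : sv (RingEquiv.refl ℂ) D.ω = D.ω := by ext i; rfl
    rw [h5] at h4
    have h6 := D.tr u h4
    rw [h6]
    ext i
    simp
  rw [h3] at h2
  exact (Submodule.mem_bot ℂ).1 h2

end KD

open KD

namespace KD.LG

variable {D : KD m n} {Λ : LG D}

/-- Blocks. -/
def Blk (Λ : LG D) (N : Submodule ℂ (m → ℂ)) : Prop :=
  (∀ x ∈ N, (∀ y ∈ N, D.b x y = 0) → x = 0) ∧
    ∀ p : Pr m n, D.IsP p → p.2 ∈ D.AA → (∀ x ∈ N, p.1 *ᵥ x ∈ N) ∧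
      ∃ r ∈ Λ.G, (∀ x ∈ N, r.1 *ᵥ x = p.1 *ᵥ x) ∧
        ∀ x, (∀ y ∈ N, D.b y x = 0) → r.1 *ᵥ x = x

/-- Every conjugate of the period is contained in a block. -/
lemma exists_blk [Nonempty n] (Λ : LG D) (σ : ℂ ≃+* ℂ) : ∃ N, Λ.Blk N ∧ KS.sv σ D.ω ∈ N := by
  by_cases h : ∃ u ∈ Λ.U D.ω (be D), ∃ u' ∈ Λ.U D.ω (be D), D.b u u' ≠ 0
  · obtain ⟨N, hN, hω⟩ := exists_blkA h
    have hN' := hN.sv σ
    exact ⟨_, ⟨hN'.nd, fun p hp hpA => hN'.move hp hpA⟩, sv_mem_svS hω⟩
  · push Not at h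
    obtain ⟨W, W', hW, hω⟩ := exists_blkB h
    have hW' := hW.sv σ
    refine ⟨svS σ W ⊔ svS σ W', ⟨?_, fun p hp hpA => hW'.move hp hpA⟩,
      Submodule.mem_sup_left (sv_mem_svS hω)⟩
    intro x hx h0
    obtain ⟨a, ha, b, hb, rfl⟩ := Submodule.mem_sup.1 hx
    have h1 : a = 0 := hW'.nd a ha fun y hy => by
      have h2 := h0 y (Submodule.mem_sup_right hy)
      rwa [map_add, LinearMap.add_apply, hW'.iso' b hb y hy, add_zero] at h2
    have h2 : b = 0 := hW'.nd' b hb fun y hy => by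
      have h2 := h0 y (Submodule.mem_sup_left hy)
      rw [map_add, LinearMap.add_apply, hW'.iso a ha y hy, zero_add] at h2
      rw [D.b_symm]
      exact h2
    rw [h1, h2, add_zero]

/-- The fixed space. -/
noncomputable def fx (a : Matrix m m ℂ) : Submodule ℂ (m → ℂ) :=
  LinearMap.ker (Matrix.toLin' (a - 1))

lemma mem_fx {a : Matrix m m ℂ} {x : m → ℂ} : x ∈ fx a ↔ a *ᵥ x = x := by
  rw [fx, LinearMap.mem_ker, Matrix.toLin'_apply, Matrix.sub_mulVec, Matrix.one_mulVec,
    sub_eq_zero]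

/-- Enlarging the fixed space. -/
lemma enlarge {N : Submodule ℂ (m → ℂ)} (hN : Λ.Blk N) {p : Pr m n} (hp : D.IsP p)
    (hpA : p.2 ∈ D.AA) (hNp : ¬ N ≤ fx p.1) : ∃ s ∈ Λ.G, fx p.1 < fx (s * p).1 := by
  obtain ⟨hpres, r, hr, h1, h2⟩ := hN.2 p hp hpA
  obtain ⟨s, hs, hrs⟩ := Λ.inv r hr
  have hsr : s * r = 1 := by
    refine Prod.ext ?_ ?_
    · exact mul_eq_one_comm.1 (congrArg Prod.fst hrs)
    · exact mul_eq_one_comm.1 (congrArg Prod.snd hrs)
  have hsr1 : ∀ x, s.1 *ᵥ (r.1 *ᵥ x) = x := by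
    intro x
    rw [Matrix.mulVec_mulVec, ← Prod.fst_mul, hsr, Prod.fst_one, Matrix.one_mulVec]
  have hNs : N ≤ fx (s * p).1 := by
    intro x hx
    rw [mem_fx, Prod.fst_mul, ← Matrix.mulVec_mulVec, ← h1 x hx, hsr1]
  refine ⟨s, hs, lt_of_le_of_ne ?_ fun h => hNp (h ▸ hNs)⟩
  intro x hx
  rw [mem_fx] at hx
  obtain ⟨d, e, heN, he, hE⟩ := D.exists_onb N hN.1
  obtain ⟨y, hy⟩ : ∃ y, y = D.prN e x := ⟨_, rfl⟩
  have hyN : y ∈ N := by rw [hy]; exact N.sum_mem fun i _ => N.smul_mem _ (heN i)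
  obtain ⟨z, hz⟩ : ∃ z, z = x - y := ⟨_, rfl⟩
  have hxyz : x = y + z := by rw [hz]; abel
  have hzN : ∀ w ∈ N, D.b w z = 0 := by
    intro w hw
    rw [hE w hw, map_sum, LinearMap.sum_apply]
    refine Finset.sum_eq_zero fun i _ => ?_
    rw [map_smul, LinearMap.smul_apply, hz, hy, D.prN_orth he, smul_zero]
  -- surjectivity on the block
  have hsurj : ∀ w ∈ N, ∃ v ∈ N, p.1 *ᵥ v = w := by
    let f : N →ₗ[ℂ] N := (Matrix.toLin' p.1).restrict fun x hx => by
      rw [Matrix.toLin'_apply]; exact hpres x hx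
    have hf : ∀ v : N, ((f v : N) : m → ℂ) = p.1 *ᵥ v := fun v => by
      change (Matrix.toLin' p.1) v = _
      rw [Matrix.toLin'_apply]
    have hinj : Function.Injective f := by
      rw [injective_iff_map_eq_zero]
      intro v hv
      apply Subtype.ext
      apply D.nondeg
      intro w
      rw [← hp.orth, ← hf, hv]
      simp
    intro w hw
    obtain ⟨v, hv⟩ := LinearMap.surjective_of_injective hinj ⟨w, hw⟩
    exact ⟨v, v.2, by rw [← hf, hv]⟩
  have hpz : ∀ w ∈ N, D.b w (p.1 *ᵥ z) = 0 := by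
    intro w hw
    obtain ⟨v, hv, rfl⟩ := hsurj w hw
    rw [hp.orth, hzN v hv]
  have h3 : p.1 *ᵥ y - y = z - p.1 *ᵥ z := by
    have h4 : p.1 *ᵥ y + p.1 *ᵥ z = y + z := by
      rw [← Matrix.mulVec_add, ← hxyz]
      exact hx
    rw [sub_eq_sub_iff_add_eq_add, h4]
    abel
  have h4 : p.1 *ᵥ y - y = 0 := by
    refine hN.1 _ (N.sub_mem (hpres y hyN) hyN) fun w hw => ?_
    rw [h3, D.b_symm, map_sub, hzN w hw, hpz w hw, sub_self]
  have h5 : p.1 *ᵥ z = z := by
    rw [h4] at h3
    exact (sub_eq_zero.1 h3.symm).symm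
  rw [mem_fx, Prod.fst_mul, ← Matrix.mulVec_mulVec, hx, hxyz, Matrix.mulVec_add]
  congr 1
  · have h6 := hNs hyN
    rw [mem_fx, Prod.fst_mul, ← Matrix.mulVec_mulVec] at h6
    rw [sub_eq_zero] at h4
    rwa [h4] at h6
  · have h6 := hsr1 z
    rwa [h2 z hzN] at h6

/-- **The core theorem.** -/
theorem core [Nonempty n] (Λ : LG D) {p : Pr m n} (hp : D.IsP p) (hpA : p.2 ∈ D.AA) :
    ∃ q ∈ Λ.G, ∃ c : ℂ, p.1 = q.1 ∧ p.2 = c • q.2 := by
  have key : ∀ (k : ℕ) (p : Pr m n), D.IsP p → p.2 ∈ D.AA →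
      Module.finrank ℂ (m → ℂ) ≤ Module.finrank ℂ (fx p.1) + k →
      ∃ s ∈ Λ.G, ∀ (N : Submodule ℂ (m → ℂ)), Λ.Blk N → N ≤ fx (s * p).1 := by
    intro k
    induction k with
    | zero =>
      intro p hp hpA hk
      refine ⟨1, Λ.G.one_mem, fun N _ => ?_⟩
      have h1 : fx p.1 = ⊤ := Submodule.eq_top_of_finrank_eq (le_antisymm
        (Submodule.finrank_le _) hk)
      rw [one_mul, h1]
      exact le_top
    | succ k ih =>
      intro p hp hpA hk
      by_cases h : ∀ (N : Submodule ℂ (m → ℂ)), Λ.Blk N → N ≤ fx p.1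
      · exact ⟨1, Λ.G.one_mem, by rwa [one_mul]⟩
      · push Not at h
        obtain ⟨N, hN, hNp⟩ := h
        obtain ⟨s, hs, hlt⟩ := enlarge hN hp hpA hNp
        have h2 := Submodule.finrank_lt_finrank_of_lt hlt
        obtain ⟨t, ht, h3⟩ := ih (s * p) ((Λ.isP s hs).mul hp) (by
          rw [Prod.snd_mul]; exact D.AA.mul_mem (Λ.alg s hs) hpA) (by omega)
        exact ⟨t * s, Λ.G.mul_mem ht hs, by rwa [mul_assoc]⟩
  obtain ⟨s, hs, h1⟩ := key (Module.finrank ℂ (m → ℂ)) p hp hpA (Nat.le_add_left _ _)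
  have hq : D.IsP (s * p) := (Λ.isP s hs).mul hp
  have hqA : (s * p).2 ∈ D.AA := by
    rw [Prod.snd_mul]; exact D.AA.mul_mem (Λ.alg s hs) hpA
  have hq1 : (s * p).1 = 1 := by
    refine ext_one fun y => ?_
    rw [Matrix.one_mulVec, ← sub_eq_zero]
    apply orth_period (D := D)
    intro σ
    obtain ⟨N, hN, hω⟩ := Λ.exists_blk σ
    have h2 := mem_fx.1 (h1 N hN hω)
    rw [map_sub]
    conv_lhs => enter [1]; rw [← h2]
    rw [hq.orth, sub_self]
  obtain ⟨c, hc⟩ := even_scalar hqA fun t => by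
    have h2 := hq.kap t
    rwa [hq1, Matrix.one_mulVec] at h2
  obtain ⟨r, hr, hsr⟩ := Λ.inv s hs
  have hrs : r * s = 1 := by
    refine Prod.ext ?_ ?_
    · exact mul_eq_one_comm.1 (congrArg Prod.fst hsr)
    · exact mul_eq_one_comm.1 (congrArg Prod.snd hsr)
  have hp' : p = r * (s * p) := by rw [← mul_assoc, hrs, one_mul]
  refine ⟨r, hr, c, ?_, ?_⟩
  · rw [hp', Prod.fst_mul, hq1, mul_one]
  · rw [hp', Prod.snd_mul, hc, mul_smul_comm, mul_one]

end KD.LG

end Run7.h38.KS
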