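import Mathlib

/-!
# Exponentials of complex matrices applied to vectors
-/

set_option linter.unusedSectionVars false

namespace Run7.h38.KS

open Matrix Finset
open scoped Nat

variable {m : Type} [Fintype m] [DecidableEq m]

/-- The entries of the exponential as sums of series. -/
lemma hasSum_exp_apply (M : Matrix m m ℂ) (i j : m) :
    HasSum (fun n : ℕ => (n ! : ℂ)⁻¹ * (M ^ n) i j) (NormedSpace.exp M i j) := by
  let _ : SeminormedRing (Matrix m m ℂ) := Matrix.linftyOpSemiNormedRing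
  let _ : NormedRing (Matrix m m ℂ) := Matrix.linftyOpNormedRing
  let _ : NormedAlgebra ℂ (Matrix m m ℂ) := Matrix.linftyOpNormedAlgebra
  have h1 := NormedSpace.exp_series_hasSum_exp' (𝕂 := ℂ) M
  have h2 := (Pi.hasSum.1 h1) i
  exact (Pi.hasSum.1 h2) j

/-- The exponential applied to a vector. -/
lemma hasSum_exp_mulVec (M : Matrix m m ℂ) (v : m → ℂ) (i : m) :
    HasSum (fun n : ℕ => (n ! : ℂ)⁻¹ * ((M ^ n) *ᵥ v) i) ((NormedSpace.exp M *ᵥ v) i) := by
  have h1 : HasSum (fun n : ℕ => ∑ j, ((n ! : ℂ)⁻¹ * (M ^ n) i j) * v j)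
      (∑ j, NormedSpace.exp M i j * v j) :=
    hasSum_sum fun j _ => (hasSum_exp_apply M i j).mul_right (v j)
  have h2 : (fun n : ℕ => ∑ j, ((n ! : ℂ)⁻¹ * (M ^ n) i j) * v j) =
      fun n : ℕ => (n ! : ℂ)⁻¹ * ((M ^ n) *ᵥ v) i := by
    funext n
    rw [Matrix.mulVec, dotProduct, Finset.mul_sum]
    exact Finset.sum_congr rfl fun j _ => mul_assoc _ _ _
  rw [h2] at h1
  exact h1

lemma pow_mulVec {M : Matrix m m ℂ} {v : m → ℂ} {μ : ℂ}
    (h : M *ᵥ v = μ • v) (k : ℕ) : (M ^ k) *ᵥ v = μ ^ k • v := by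
  induction k with
  | zero => simp
  | succ k ih => rw [pow_succ, ← Matrix.mulVec_mulVec, h, Matrix.mulVec_smul, ih, smul_smul,
      pow_succ, mul_comm]

/-- The exponential on eigenvectors. -/
lemma exp_eig {M : Matrix m m ℂ} {v : m → ℂ} {μ : ℂ}
    (h : M *ᵥ v = μ • v) : NormedSpace.exp M *ᵥ v = Complex.exp μ • v := by
  funext i
  have h1 := hasSum_exp_mulVec M v i
  have h2 : (fun n : ℕ => (n ! : ℂ)⁻¹ * ((M ^ n) *ᵥ v) i) =
      fun n : ℕ => ((n ! : ℂ)⁻¹ * μ ^ n) * v i := by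
    funext n
    rw [pow_mulVec h, Pi.smul_apply, smul_eq_mul, mul_assoc]
  rw [h2] at h1
  have h4 : HasSum (fun n : ℕ => ((n ! : ℂ)⁻¹ * μ ^ n) * v i) (Complex.exp μ * v i) := by
    have h5 := NormedSpace.exp_series_hasSum_exp' (𝕂 := ℂ) (𝔸 := ℂ) μ
    simp only [smul_eq_mul] at h5
    rw [← Complex.exp_eq_exp_ℂ] at h5
    exact h5.mul_right (v i)
  exact h1.unique h4

/-- The exponential fixes the kernel. -/
lemma exp_ker {M : Matrix m m ℂ} {v : m → ℂ} (h : M *ᵥ v = 0) : NormedSpace.exp M *ᵥ v = v := by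
  have h1 : M *ᵥ v = (0 : ℂ) • v := by rw [h, zero_smul]
  rw [exp_eig h1, Complex.exp_zero, one_smul]

/-- The exponential on vectors killed by the square. -/
lemma exp_nil {M : Matrix m m ℂ} {v : m → ℂ} (h : M *ᵥ (M *ᵥ v) = 0) :
    NormedSpace.exp M *ᵥ v = v + M *ᵥ v := by
  funext i
  have h1 := hasSum_exp_mulVec M v i
  have h2 : HasSum (fun n : ℕ => (n ! : ℂ)⁻¹ * ((M ^ n) *ᵥ v) i)
      (∑ n ∈ Finset.range 2, (n ! : ℂ)⁻¹ * ((M ^ n) *ᵥ v) i) := by
    apply hasSum_sum_of_ne_finset_zero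
    intro n hn
    have h3 : 2 ≤ n := by
      by_contra h4
      exact hn (Finset.mem_range.2 (by omega))
    obtain ⟨k, rfl⟩ : ∃ k, n = k + 2 := ⟨n - 2, by omega⟩
    have h5 : (M ^ (k + 2)) *ᵥ v = 0 := by
      rw [pow_add, pow_two, ← Matrix.mulVec_mulVec, ← Matrix.mulVec_mulVec, h,
        Matrix.mulVec_zero]
    rw [h5]
    simp
  rw [h1.unique h2, Finset.sum_range_succ, Finset.sum_range_one]
  simp

end Run7.h38.KS
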