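import Pool.Agent.Run7.h38.KS.Basic

/-!
# Hyperbolic pairs in the Lie algebra
-/

set_option linter.unusedSectionVars false

namespace Run7.h38.KS

open Matrix ComplexConjugate

variable {m n : Type} [Fintype m] [DecidableEq m] [Fintype n] [DecidableEq n]

namespace KD

/-- The transformations of the form and of the multiplication. -/
structure IsP (D : KD m n) (p : Pr m n) : Prop where
  orth : ∀ u v, D.b (p.1 *ᵥ u) (p.1 *ᵥ v) = D.b u v
  kap : ∀ t, p.2 * D.kap t = D.kap (p.1 *ᵥ t) * p.2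
  inv : ∃ q : Matrix n n ℂ, p.2 * q = 1

/-- The algebra generated by the derivations given by the conjugates of the period. -/
noncomputable def AA (D : KD m n) : Subalgebra ℂ (Matrix n n ℂ) :=
  Algebra.adjoin ℂ {X | ∃ σ : ℂ ≃+* ℂ, X = (D.R (sv σ D.ω) (sv σ (sv cj D.ω))).2}

/-- A Lie algebra of derivations and a group of transformations. -/
structure LG (D : KD m n) where
  /-- the Lie algebra -/
  L : Submodule ℂ (Pr m n)
  /-- the group -/
  G : Submonoid (Pr m n)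
  br : ∀ z ∈ L, ∀ w ∈ L, z * w - w * z ∈ L
  isZ : ∀ z ∈ L, D.IsZ z
  gal : ∀ (σ : ℂ ≃+* ℂ), ∀ z ∈ L, sp σ z ∈ L
  mem : D.R D.ω (sv cj D.ω) ∈ L
  exp : ∀ z ∈ L, (NormedSpace.exp z.1, NormedSpace.exp z.2) ∈ G
  isP : ∀ p ∈ G, D.IsP p
  alg : ∀ p ∈ G, p.2 ∈ D.AA
  inv : ∀ p ∈ G, ∃ q ∈ G, p * q = 1

end KD

open KD

variable {D : KD m n} (Λ : LG D)

namespace KD.LG

/-- A hyperbolic pair in the Lie algebra. -/
structure Hyp (α β : m → ℂ) : Prop where
  αα : D.b α α = 0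
  ββ : D.b β β = 0
  αβ : D.b α β = 1
  mem : D.R α β ∈ Λ.L

variable {Λ} {α β : m → ℂ}

lemma Hyp.symm (h : Λ.Hyp α β) : Λ.Hyp β α where
  αα := h.ββ
  ββ := h.αα
  αβ := by rw [D.b_symm, h.αβ]
  mem := by rw [D.R_swap]; exact Λ.L.neg_mem h.mem

/-- The component orthogonal to the pair. -/
noncomputable def pj (D : KD m n) (α β v : m → ℂ) : m → ℂ := v - D.b v β • α - D.b v α • β

lemma pj_eq (v : m → ℂ) : v = D.b v β • α + D.b v α • β + pj D α β v := by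
  rw [pj]; abel

lemma Hyp.pj_left (h : Λ.Hyp α β) (v : m → ℂ) : D.b α (pj D α β v) = 0 := by
  rw [pj, map_sub, map_sub, map_smul, map_smul, h.αα, h.αβ, D.b_symm α v]
  simp

lemma Hyp.pj_right (h : Λ.Hyp α β) (v : m → ℂ) : D.b β (pj D α β v) = 0 := by
  rw [pj, map_sub, map_sub, map_smul, map_smul, h.ββ, h.symm.αβ, D.b_symm β v]
  simp

/-- The vectors `u` orthogonal to the pair with `α ∧ u` in the Lie algebra. -/
def U (Λ : LG D) (α β : m → ℂ) : Submodule ℂ (m → ℂ) where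
  carrier := {u | D.b α u = 0 ∧ D.b β u = 0 ∧ D.R α u ∈ Λ.L}
  add_mem' := by
    rintro a b ⟨h1, h2, h3⟩ ⟨h4, h5, h6⟩
    refine ⟨by rw [map_add, h1, h4, add_zero], by rw [map_add, h2, h5, add_zero], ?_⟩
    rw [D.R_add_right]
    exact Λ.L.add_mem h3 h6
  zero_mem' := by
    refine ⟨map_zero _, map_zero _, ?_⟩
    have h1 := D.R_smul_right 0 α 0
    rw [zero_smul, zero_smul] at h1
    rw [h1]
    exact Λ.L.zero_mem
  smul_mem' := by
    rintro c a ⟨h1, h2, h3⟩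
    refine ⟨by rw [map_smul, h1, smul_zero], by rw [map_smul, h2, smul_zero], ?_⟩
    rw [D.R_smul_right]
    exact Λ.L.smul_mem _ h3

lemma mem_U {u : m → ℂ} : u ∈ Λ.U α β ↔ D.b α u = 0 ∧ D.b β u = 0 ∧ D.R α u ∈ Λ.L := Iff.rfl

/-- Images of the pair under the Lie algebra. -/
lemma Hyp.image (h : Λ.Hyp α β) {z : Pr m n} (hz : z ∈ Λ.L) :
    pj D α β (z.1 *ᵥ β) ∈ Λ.U α β ∧ pj D α β (z.1 *ᵥ α) ∈ Λ.U β α := by
  have hZ := Λ.isZ z hz
  have ha : D.b (z.1 *ᵥ α) α = 0 := by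
    have h1 := hZ.1 α α
    rw [D.b_symm α (z.1 *ᵥ α)] at h1
    exact self_eq_neg.1 (eq_neg_of_add_eq_zero_left h1)
  have hb : D.b (z.1 *ᵥ β) β = 0 := by
    have h1 := hZ.1 β β
    rw [D.b_symm β (z.1 *ᵥ β)] at h1
    exact self_eq_neg.1 (eq_neg_of_add_eq_zero_left h1)
  have hab : D.b (z.1 *ᵥ α) β + D.b (z.1 *ᵥ β) α = 0 := by
    have h1 := hZ.1 α β
    rwa [D.b_symm α (z.1 *ᵥ β)] at h1
  obtain ⟨v, hv⟩ : ∃ v, v = pj D α β (z.1 *ᵥ β) := ⟨_, rfl⟩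
  obtain ⟨u, hu⟩ : ∃ u, u = pj D α β (z.1 *ᵥ α) := ⟨_, rfl⟩
  have hα : z.1 *ᵥ α = D.b (z.1 *ᵥ α) β • α + u := by
    have := pj_eq (D := D) (α := α) (β := β) (z.1 *ᵥ α)
    rw [ha, zero_smul, add_zero, ← hu] at this
    exact this
  have hβ : z.1 *ᵥ β = D.b (z.1 *ᵥ β) α • β + v := by
    have := pj_eq (D := D) (α := α) (β := β) (z.1 *ᵥ β)
    rw [hb, zero_smul, zero_add, ← hv] at this
    exact this
  have hw : D.R u β + D.R α v ∈ Λ.L := by
    have h1 := Λ.br z hz _ h.mem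
    rw [br_R hZ] at h1
    have h2 : D.R (z.1 *ᵥ α) β + D.R α (z.1 *ᵥ β) = D.R u β + D.R α v := by
      rw [hα, hβ, D.R_add_left, D.R_add_right, D.R_smul_left, D.R_smul_right]
      have h3 : D.b (z.1 *ᵥ α) β • D.R α β + D.R u β + (D.b (z.1 *ᵥ β) α • D.R α β + D.R α v) =
          (D.b (z.1 *ᵥ α) β + D.b (z.1 *ᵥ β) α) • D.R α β + (D.R u β + D.R α v) := by
        rw [add_smul]; abel
      have h4 := h3
      rw [hab, zero_smul, zero_add] at h4
      have e1 : ∀ (x y : ℂ) (A B C : Pr m n), x • A + B + (y • A + C) =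
          x • A + B + (y • A + C) := fun _ _ _ _ _ => rfl
      exact h4
    rwa [h2] at h1
  have hvα : D.b α v = 0 := by rw [hv]; exact h.pj_left _
  have hvβ : D.b β v = 0 := by rw [hv]; exact h.pj_right _
  have huα : D.b α u = 0 := by rw [hu]; exact h.pj_left _
  have huβ : D.b β u = 0 := by rw [hu]; exact h.pj_right _
  have hw2 : -D.R u β + D.R α v ∈ Λ.L := by
    have h1 := Λ.br _ h.mem _ hw
    rw [mul_add, add_mul] at h1
    have h2 : D.R α β * D.R u β + D.R α β * D.R α v - (D.R u β * D.R α β + D.R α v * D.R α β) =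
        (D.R α β * D.R u β - D.R u β * D.R α β) + (D.R α β * D.R α v - D.R α v * D.R α β) := by
      abel
    rw [h2, br_R (R_isZ α β), br_R (R_isZ α β), D.R_one, D.R_one, D.R_one, D.R_one, huα, huβ, hvα,
      hvβ, h.αα, h.ββ, h.αβ, h.symm.αβ] at h1
    simp only [zero_smul, sub_zero, zero_sub, one_smul, sub_self, D.R_neg_right] at h1
    have h3 : D.R (0 : m → ℂ) β = 0 := by
      have := D.R_smul_left 0 0 β
      rwa [zero_smul, zero_smul] at this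
    have h4 : D.R α (0 : m → ℂ) = 0 := by
      have := D.R_smul_right 0 α 0
      rwa [zero_smul, zero_smul] at this
    rw [h3, h4, zero_add, add_zero] at h1
    exact h1
  rw [← hu, ← hv]
  refine ⟨⟨hvα, hvβ, ?_⟩, ⟨huβ, huα, ?_⟩⟩
  · have h1 := Λ.L.smul_mem (2 : ℂ)⁻¹ (Λ.L.add_mem hw hw2)
    have h2 : D.R u β + D.R α v + (-D.R u β + D.R α v) = (2 : ℂ) • D.R α v := by
      rw [two_smul]; abel
    rwa [h2, smul_smul, inv_mul_cancel₀ (two_ne_zero), one_smul] at h1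
  · have h1 := Λ.L.smul_mem (-(2 : ℂ)⁻¹) (Λ.L.sub_mem hw hw2)
    have h2 : D.R u β + D.R α v - (-D.R u β + D.R α v) = (2 : ℂ) • D.R u β := by
      rw [two_smul]; abel
    rw [h2, smul_smul, neg_mul, inv_mul_cancel₀ (two_ne_zero), neg_one_smul, ← D.R_swap] at h1
    exact h1

/-- Brackets of the elements `α ∧ u` and `β ∧ w`. -/
lemma Hyp.mem_uw (h : Λ.Hyp α β) {u w : m → ℂ} (hu : u ∈ Λ.U α β) (hw : w ∈ Λ.U β α) :
    D.R u w ∈ Λ.L := by
  obtain ⟨h1, h2, h3⟩ := hu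
  obtain ⟨h4, h5, h6⟩ := hw
  have h7 := Λ.br _ h3 _ h6
  rw [br_R (R_isZ α u), D.R_one, D.R_one, h.αβ, D.b_symm u β, h2, h5] at h7
  simp only [zero_smul, zero_sub, one_smul, sub_zero, D.R_neg_left, D.R_smul_right] at h7
  have h8 := Λ.L.sub_mem (Λ.L.smul_mem (D.b u w) h.symm.mem) h7
  have h9 : D.b u w • D.R β α - (-D.R u w + D.b u w • D.R β α) = D.R u w := by abel
  rwa [h9] at h8

/-- The three term relation. -/
lemma Hyp.three (h : Λ.Hyp α β) {u u' w : m → ℂ} (hu : u ∈ Λ.U α β) (hu' : u' ∈ Λ.U α β)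
    (hw : w ∈ Λ.U β α) : D.b u u' • w ∈ Λ.U α β := by
  have h0 := h.mem_uw hu hw
  obtain ⟨h1, h2, h3⟩ := hu
  obtain ⟨h1', h2', h3'⟩ := hu'
  obtain ⟨h4, h5, h6⟩ := hw
  have h7 := Λ.br _ h0 _ h3'
  rw [br_R (R_isZ u w), D.R_one, D.R_one, D.b_symm w α, D.b_symm u α, h1, h5] at h7
  have hz : D.R (0 : m → ℂ) u' = 0 := by
    have := D.R_smul_left 0 0 u'
    rwa [zero_smul, zero_smul] at this
  simp only [zero_smul, sub_zero, hz, zero_add, D.R_sub_right, D.R_smul_right] at h7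
  have h8 := Λ.L.sub_mem (Λ.L.smul_mem (D.b w u') h3) h7
  rw [sub_sub_cancel] at h8
  refine ⟨by rw [map_smul, h5, smul_zero], by rw [map_smul, h4, smul_zero], ?_⟩
  rw [D.R_smul_right]
  exact h8

end KD.LG

end Run7.h38.KS
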