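import Pool.Agent.Run7.h38.KS.Raw

/-!
# Construction of the Hodge structure from its three parts, continued
-/

set_option linter.unusedSectionVars false

namespace Run7.h38.KS

open Matrix ComplexConjugate Pool.Agent.N996.BP Pool.Agent.N996.FP

variable {s m n : Type} [Fintype s] [DecidableEq s] [Fintype m] [DecidableEq m] [Fintype n]
    [DecidableEq n]

lemma cR_of_conj {p q : Type} (M : Matrix p q ℂ) (h : M.map cj = M) :
    cR (M.map Complex.re) = M := by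
  ext i j
  have h1 := congrFun (congrFun h i) j
  rw [Matrix.map_apply] at h1
  rw [cR, Matrix.map_apply, Matrix.map_apply]
  exact Complex.conj_eq_iff_re.1 h1

lemma map_cj_smul {p q : Type} (c : ℂ) (M : Matrix p q ℂ) :
    (c • M).map cj = cj c • M.map cj := by
  ext i j; simp [cj_apply]

lemma map_cj_add {p q : Type} (M N : Matrix p q ℂ) :
    (M + N).map cj = M.map cj + N.map cj := by
  ext i j; simp

lemma map_cj_sub {p q : Type} (M N : Matrix p q ℂ) :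
    (M - N).map cj = M.map cj - N.map cj := by
  ext i j; simp

lemma map_cj_one {p : Type} [DecidableEq p] : (1 : Matrix p p ℂ).map cj = 1 := by
  ext i j
  rw [Matrix.map_apply, Matrix.one_apply]
  split_ifs <;> simp

lemma cR_inj' {p q : Type} {M N : Matrix p q ℝ} (h : cR M = cR N) : M = N := by
  ext i j
  have := congrFun (congrFun h i) j
  exact Complex.ofReal_injective this

section Build

variable (D : KD m n) (V : VD n)

lemma LT2_I : LT2 D Complex.I = 1 - (2 : ℂ) • D.P1 - (2 : ℂ) • D.P2 := by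
  rw [LT2, Complex.I_sq]
  norm_num
  rw [← sub_eq_add_neg, ← sub_eq_add_neg]

lemma LT2_I_conj : (LT2 D Complex.I).map cj = LT2 D Complex.I := by
  rw [LT2_I, map_cj_sub, map_cj_sub, map_cj_smul, map_cj_smul, map_cj_one, D.P1_conj, D.P2_conj]
  have : cj (2 : ℂ) = 2 := by rw [cj_apply]; exact Complex.conj_ofNat 2
  rw [this]
  abel

lemma one_sub_E_conj : (1 - V.E).map cj = V.E := by
  rw [map_cj_sub, map_cj_one, V.hEc]
  abel

lemma LV2_I_conj : (LV2 V Complex.I).map cj = LV2 V Complex.I := by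
  have h1 : cj Complex.I = Complex.I⁻¹ := by rw [cj_apply, Complex.conj_I, Complex.inv_I]
  have h2 : cj Complex.I⁻¹ = Complex.I := by
    rw [cj_apply, map_inv₀, Complex.conj_I, inv_neg, Complex.inv_I, neg_neg]
  rw [LV2, map_cj_add, map_cj_smul, map_cj_smul, h1, h2, V.hEc, one_sub_E_conj]
  abel

/-- The real Weil operator on the second part. -/
noncomputable def CT : Matrix m m ℝ := (LT2 D Complex.I).map Complex.re

/-- The real Weil operator on the third part. -/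
noncomputable def CV : Matrix n n ℝ := (LV2 V Complex.I).map Complex.re

lemma cR_CT : cR (CT D) = LT2 D Complex.I := cR_of_conj _ (LT2_I_conj D)

lemma cR_CV : cR (CV V) = LV2 V Complex.I := cR_of_conj _ (LV2_I_conj V)

/-- The rational matrix as a real one. -/
def rq {p q : Type} (M : Matrix p q ℚ) : Matrix p q ℝ := M.map (fun x : ℚ => (x : ℝ))

lemma cR_rq {p q : Type} (M : Matrix p q ℚ) : cR (rq M) = cq M := by
  ext i j; simp [cR, rq, cq]

lemma rq_mul {p q r : Type} [Fintype q] (M : Matrix p q ℚ) (N : Matrix q r ℚ) :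
    rq (M * N) = rq M * rq N := by
  ext i j; simp [rq, Matrix.mul_apply]

lemma rq_one {p : Type} [DecidableEq p] : rq (1 : Matrix p p ℚ) = 1 := by
  ext i j
  rw [rq, Matrix.map_apply, Matrix.one_apply, Matrix.one_apply]
  split_ifs <;> simp

lemma rq_blk (u : Matrix s s ℚ) (x : Matrix m m ℚ) (y : Matrix n n ℚ) :
    rq (blk u x y) = blk (rq u) (rq x) (rq y) := by
  ext i j
  rcases i with i | i | i <;> rcases j with j | j | j <;> simp [blk, rq]

lemma cR_blk (u : Matrix s s ℝ) (x : Matrix m m ℝ) (y : Matrix n n ℝ) :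
    cR (blk u x y) = blk (cR u) (cR x) (cR y) := by
  ext i j
  rcases i with i | i | i <;> rcases j with j | j | j <;> simp [blk, cR]

lemma cR_t {p q : Type} (M : Matrix p q ℝ) : cR Mᵀ = (cR M)ᵀ := rfl

lemma rq_t {p q : Type} (M : Matrix p q ℚ) : (rq M)ᵀ = rq Mᵀ := rfl

lemma cR_neg {p q : Type} (M : Matrix p q ℝ) : cR (-M) = -cR M := by
  ext i j; simp [cR]

lemma LT2_inv_I : LT2 D Complex.I⁻¹ = LT2 D Complex.I := by
  rw [LT2, LT2, inv_pow, Complex.I_sq, inv_neg, inv_one]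
  norm_num

lemma LV2_inv_I : LV2 V Complex.I⁻¹ = -LV2 V Complex.I := by
  rw [LV2, LV2, inv_inv, Complex.inv_I]
  module

lemma ST_symm : (rq D.B * CT D)ᵀ = rq D.B * CT D := by
  apply cR_inj'
  rw [cR_t, cR_mul, Matrix.transpose_mul, cR_rq, cR_CT, D.cqB_t, LT2_B, LT2_inv_I]

lemma SV_symm : (rq V.Qv * CV V)ᵀ = rq V.Qv * CV V := by
  apply cR_inj'
  have h1 : (cq V.Qv)ᵀ = -cq V.Qv := by
    rw [← cq_neg, ← V.hQt]
    rfl
  rw [cR_t, cR_mul, Matrix.transpose_mul, cR_rq, cR_CV, h1, Matrix.mul_neg, LV2_Q, LV2_inv_I,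
    Matrix.mul_neg, neg_neg]

/-- The scalar product. -/
noncomputable def SS (s : Type) [Fintype s] [DecidableEq s] :
    Matrix (s ⊕ (m ⊕ n)) (s ⊕ (m ⊕ n)) ℝ :=
  blk 1 (rq D.B * CT D) (rq V.Qv * CV V)

lemma SS_symm : (SS D V s)ᵀ = SS D V s := by
  rw [SS, blk_transpose, ST_symm, SV_symm, Matrix.transpose_one]

lemma dot_blk (x y z : ℕ) (u : Matrix s s ℝ) (a : Matrix m m ℝ) (b : Matrix n n ℝ)
    (w : s ⊕ (m ⊕ n) → ℝ) : w ⬝ᵥ (blk u a b *ᵥ w) =
      (w ∘ Sum.inl) ⬝ᵥ (u *ᵥ (w ∘ Sum.inl)) +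
      (w ∘ Sum.inr ∘ Sum.inl) ⬝ᵥ (a *ᵥ (w ∘ Sum.inr ∘ Sum.inl)) +
      (w ∘ Sum.inr ∘ Sum.inr) ⬝ᵥ (b *ᵥ (w ∘ Sum.inr ∘ Sum.inr)) := by
  simp only [dotProduct, Matrix.mulVec, Fintype.sum_sum_type, blk, Matrix.fromBlocks_apply₁₁,
    Matrix.fromBlocks_apply₁₂, Matrix.fromBlocks_apply₂₁, Matrix.fromBlocks_apply₂₂,
    Matrix.zero_apply, zero_mul, Finset.sum_const_zero, add_zero, zero_add, Function.comp_apply]
  ring

lemma SS_pos (hT : PosT D) (w : s ⊕ (m ⊕ n) → ℝ) (hw : w ≠ 0) :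
    0 < w ⬝ᵥ (SS D V s *ᵥ w) := by
  rw [SS, dot_blk 0 0 0]
  have hs : ∀ u : s → ℝ, 0 ≤ u ⬝ᵥ ((1 : Matrix s s ℝ) *ᵥ u) := by
    intro u
    rw [Matrix.one_mulVec]
    exact Finset.sum_nonneg fun i _ => mul_self_nonneg _
  have hs' : ∀ u : s → ℝ, u ≠ 0 → 0 < u ⬝ᵥ ((1 : Matrix s s ℝ) *ᵥ u) := by
    intro u hu
    refine lt_of_le_of_ne (hs u) (fun h => hu ?_)
    rw [Matrix.one_mulVec] at h
    exact dotProduct_self_eq_zero.1 h.symm
  have ht' : ∀ u : m → ℝ, u ≠ 0 → 0 < u ⬝ᵥ ((rq D.B * CT D) *ᵥ u) := by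
    intro u hu
    obtain ⟨ρ, h1, h2⟩ := hT u hu
    rw [← LT2_I, ← cR_CT, ← cR_rq, Matrix.mulVec_mulVec, ← cR_mul] at h2
    have h3 : (fun i => (u i : ℂ)) ⬝ᵥ (cR (rq D.B * CT D) *ᵥ fun i => (u i : ℂ)) =
        ((u ⬝ᵥ ((rq D.B * CT D) *ᵥ u) : ℝ) : ℂ) := by
      simp [dotProduct, Matrix.mulVec, cR]
    rw [h3] at h2
    have h4 : u ⬝ᵥ ((rq D.B * CT D) *ᵥ u) = ρ := by exact_mod_cast h2
    rw [h4]
    exact h1
  have hv' : ∀ u : n → ℝ, u ≠ 0 → 0 < u ⬝ᵥ ((rq V.Qv * CV V) *ᵥ u) := by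
    intro u hu
    obtain ⟨ρ, h1, h2⟩ := V.pos u hu
    have h0 : Complex.I • V.E + Complex.I⁻¹ • (1 - V.E) = LV2 V Complex.I := rfl
    rw [h0, ← cR_CV, ← cR_rq, Matrix.mulVec_mulVec, ← cR_mul] at h2
    have h3 : (fun i => (u i : ℂ)) ⬝ᵥ (cR (rq V.Qv * CV V) *ᵥ fun i => (u i : ℂ)) =
        ((u ⬝ᵥ ((rq V.Qv * CV V) *ᵥ u) : ℝ) : ℂ) := by
      simp [dotProduct, Matrix.mulVec, cR]
    rw [h3] at h2
    have h4 : u ⬝ᵥ ((rq V.Qv * CV V) *ᵥ u) = ρ := by exact_mod_cast h2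
    rw [h4]
    exact h1
  have ht : ∀ u : m → ℝ, 0 ≤ u ⬝ᵥ ((rq D.B * CT D) *ᵥ u) := by
    intro u
    by_cases hu : u = 0
    · rw [hu, zero_dotProduct]
    · exact (ht' u hu).le
  have hv : ∀ u : n → ℝ, 0 ≤ u ⬝ᵥ ((rq V.Qv * CV V) *ᵥ u) := by
    intro u
    by_cases hu : u = 0
    · rw [hu, zero_dotProduct]
    · exact (hv' u hu).le
  by_cases h1 : w ∘ Sum.inl = 0
  · by_cases h2 : w ∘ Sum.inr ∘ Sum.inl = 0
    · by_cases h3 : w ∘ Sum.inr ∘ Sum.inr = 0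
      · exfalso
        apply hw
        funext i
        rcases i with i | i | i
        · exact congrFun h1 i
        · exact congrFun h2 i
        · exact congrFun h3 i
      · have := hv' _ h3
        have := hs (w ∘ Sum.inl)
        have := ht (w ∘ Sum.inr ∘ Sum.inl)
        linarith
    · have := ht' _ h2
      have := hs (w ∘ Sum.inl)
      have := hv (w ∘ Sum.inr ∘ Sum.inr)
      linarith
  · have := hs' _ h1
    have := ht (w ∘ Sum.inr ∘ Sum.inl)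
    have := hv (w ∘ Sum.inr ∘ Sum.inr)
    linarith

lemma exists_SS (hT : PosT D) : ∃ M Mi : Matrix (s ⊕ (m ⊕ n)) (s ⊕ (m ⊕ n)) ℝ, M * Mi = 1 ∧
    Mᵀ * M = SS D V s := by
  refine exists_sqrt (fun u v => ?_) (fun u hu => SS_pos D V hT u hu)
  conv_lhs => rw [← SS_symm D V, Matrix.mulVec_transpose]
  rw [Matrix.dotProduct_mulVec v, dotProduct_comm]

/-- The Weil operator. -/
noncomputable def CC (s : Type) [Fintype s] [DecidableEq s] :
    Matrix (s ⊕ (m ⊕ n)) (s ⊕ (m ⊕ n)) ℝ := blk 1 (CT D) (CV V)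

/-- The rational form. -/
noncomputable def QQ (s : Type) [Fintype s] [DecidableEq s] :
    Matrix (s ⊕ (m ⊕ n)) (s ⊕ (m ⊕ n)) ℚ := blk 1 D.B V.Qv

/-- The inverse form. -/
noncomputable def QQi (s : Type) [Fintype s] [DecidableEq s] :
    Matrix (s ⊕ (m ⊕ n)) (s ⊕ (m ⊕ n)) ℚ := blk 1 D.exists_Bi.choose V.Qvi

lemma QQ_mul : QQ D V s * QQi D V s = 1 := by
  rw [QQ, QQi, blk_mul, D.exists_Bi.choose_spec, V.hQ, mul_one, blk_one]

lemma CC_eq : cR (CC D V s) = lt 2 (prs D V s) Complex.I := by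
  rw [lt_prs, CC, cR_blk, cR_CT, cR_CV, cR_one]

lemma lt_mul {t u : ℂ} (ht : t ≠ 0) (hu : u ≠ 0) :
    lt 2 (prs D V s) t * lt 2 (prs D V s) u = lt 2 (prs D V s) (t * u) := by
  rw [lt_prs, lt_prs, lt_prs, blk_mul, LT2_mul D ht hu, LV2_mul V ht hu, mul_one]

lemma lt_one' : lt 2 (prs D V s) 1 = 1 := by
  rw [lt_prs, LT2_one, LV2_one, blk_one]

lemma cq_one' {p : Type} [DecidableEq p] : cq (1 : Matrix p p ℚ) = 1 := by
  ext i j
  rw [cq, Matrix.map_apply, Matrix.one_apply, Matrix.one_apply]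
  split_ifs <;> simp

lemma lt_Q {t : ℂ} : (lt 2 (prs D V s) t)ᵀ * cq (QQ D V s) =
    cq (QQ D V s) * lt 2 (prs D V s) t⁻¹ := by
  rw [lt_prs, lt_prs, blk_transpose, QQ, cq_blk, blk_mul, blk_mul, LT2_B, LV2_Q,
    Matrix.transpose_one, cq_one']

lemma prs_two : prs D V s 2 = blk 0 D.P1 0 := by simp [prs]
lemma prs_neg_two : prs D V s (-2) = blk 0 D.P2 0 := by simp [prs]
lemma prs_one : prs D V s 1 = blk 0 0 V.E := by simp [prs]
lemma prs_neg_one : prs D V s (-1) = blk 0 0 (1 - V.E) := by simp [prs]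
lemma prs_zero : prs D V s 0 = blk 1 (1 - D.P1 - D.P2) 0 := by simp [prs]

lemma mem_Icc_two {k : ℤ} : k ∈ Finset.Icc (-((2 : ℕ) : ℤ)) ((2 : ℕ) : ℤ) ↔
    k = -2 ∨ k = -1 ∨ k = 0 ∨ k = 1 ∨ k = 2 := by
  rw [Icc_two]
  simp only [Finset.mem_insert, Finset.mem_singleton]

lemma prs_mul (k : ℤ) (hk : k ∈ Finset.Icc (-((2 : ℕ) : ℤ)) ((2 : ℕ) : ℤ)) (l : ℤ)
    (hl : l ∈ Finset.Icc (-((2 : ℕ) : ℤ)) ((2 : ℕ) : ℤ)) :
    prs D V s k * prs D V s l = if k = l then prs D V s k else 0 := by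
  have h1 := D.P11
  have h2 := D.P22
  have h3 := D.P12
  have h4 := D.P21
  have h5 := V.hE
  have h6 : V.E * (1 - V.E) = 0 := by rw [mul_sub, mul_one, h5, sub_self]
  have h7 : (1 - V.E) * V.E = 0 := by rw [sub_mul, one_mul, h5, sub_self]
  have h8 : (1 - V.E) * (1 - V.E) = 1 - V.E := by rw [mul_sub, mul_one, h7, sub_zero]
  have h9 : (1 - D.P1 - D.P2) * D.P1 = 0 := by
    rw [sub_mul, sub_mul, one_mul, h1, h4, sub_self, sub_zero]
  have h10 : (1 - D.P1 - D.P2) * D.P2 = 0 := by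
    rw [sub_mul, sub_mul, one_mul, h3, h2, sub_zero, sub_self]
  have h11 : D.P1 * (1 - D.P1 - D.P2) = 0 := by
    rw [mul_sub, mul_sub, mul_one, h1, h3, sub_self, sub_zero]
  have h12 : D.P2 * (1 - D.P1 - D.P2) = 0 := by
    rw [mul_sub, mul_sub, mul_one, h4, h2, sub_zero, sub_self]
  have h13 : (1 - D.P1 - D.P2) * (1 - D.P1 - D.P2) = 1 - D.P1 - D.P2 := by
    rw [mul_sub, mul_sub, mul_one, h9, h10, sub_zero, sub_zero]
  rw [mem_Icc_two] at hk hl
  rcases hk with rfl | rfl | rfl | rfl | rfl <;> rcases hl with rfl | rfl | rfl | rfl | rfl <;>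
    simp only [prs_two, prs_neg_two, prs_one, prs_neg_one, prs_zero, blk_mul, h1, h2, h3, h4, h5,
      h6, h7, h8, h9, h10, h11, h12, h13, mul_zero, zero_mul, mul_one, one_mul, blk_zero] <;>
    norm_num

lemma prs_Q (k : ℤ) (hk : k ∈ Finset.Icc (-((2 : ℕ) : ℤ)) ((2 : ℕ) : ℤ)) :
    (prs D V s k)ᵀ * cq (QQ D V s) = cq (QQ D V s) * prs D V s (-k) := by
  have h1 := D.P1_B
  have h2 := D.P2_B
  have h3 := V.hEQ
  have h4 : (1 - V.E)ᵀ * cq V.Qv = cq V.Qv * V.E := by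
    rw [Matrix.transpose_sub, Matrix.transpose_one, Matrix.sub_mul, V.hEQ, Matrix.one_mul,
      Matrix.mul_sub, Matrix.mul_one]
    abel
  have h5 : (1 - D.P1 - D.P2)ᵀ * cq D.B = cq D.B * (1 - D.P1 - D.P2) := by
    rw [Matrix.transpose_sub, Matrix.transpose_sub, Matrix.transpose_one, Matrix.sub_mul,
      Matrix.sub_mul, h1, h2, Matrix.one_mul, Matrix.mul_sub, Matrix.mul_sub, Matrix.mul_one]
    abel
  rw [mem_Icc_two] at hk
  rcases hk with rfl | rfl | rfl | rfl | rfl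
  · rw [show -(-2 : ℤ) = 2 by norm_num, prs_neg_two, prs_two, blk_transpose, QQ, cq_blk, blk_mul,
      blk_mul, h2]
    simp
  · rw [show -(-1 : ℤ) = 1 by norm_num, prs_neg_one, prs_one, blk_transpose, QQ, cq_blk, blk_mul,
      blk_mul, h4]
    simp
  · rw [show -(0 : ℤ) = 0 by norm_num, prs_zero, blk_transpose, QQ, cq_blk, blk_mul,
      blk_mul, h5]
    simp
  · rw [prs_neg_one, prs_one, blk_transpose, QQ, cq_blk, blk_mul, blk_mul, h3]
    simp
  · rw [prs_neg_two, prs_two, blk_transpose, QQ, cq_blk, blk_mul, blk_mul, h1]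
    simp

lemma map_conj_eq {p q : Type} (M : Matrix p q ℂ) : M.map conj = M.map cj := by
  ext i j; simp [cj_apply]

lemma blk_map_cj (u : Matrix s s ℂ) (x : Matrix m m ℂ) (y : Matrix n n ℂ) :
    (blk u x y).map cj = blk (u.map cj) (x.map cj) (y.map cj) := by
  ext i j
  rcases i with i | i | i <;> rcases j with j | j | j <;> simp [blk]

lemma map_cj_zero {p q : Type} : (0 : Matrix p q ℂ).map cj = 0 := by
  ext i j; simp

lemma prs_conj (k : ℤ) (hk : k ∈ Finset.Icc (-((2 : ℕ) : ℤ)) ((2 : ℕ) : ℤ)) :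
    (prs D V s k).map conj = prs D V s (-k) := by
  have h1 := D.P1_conj
  have h2 := D.P2_conj
  have h3 := V.hEc
  have h4 := one_sub_E_conj V
  have h5 : (1 - D.P1 - D.P2).map cj = 1 - D.P1 - D.P2 := by
    rw [map_cj_sub, map_cj_sub, h1, h2, map_cj_one]
    abel
  rw [map_conj_eq]
  rw [mem_Icc_two] at hk
  rcases hk with rfl | rfl | rfl | rfl | rfl
  · rw [show -(-2 : ℤ) = 2 by norm_num, prs_neg_two, prs_two, blk_map_cj, h2, map_cj_zero,
      map_cj_zero]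
  · rw [show -(-1 : ℤ) = 1 by norm_num, prs_neg_one, prs_one, blk_map_cj, h4, map_cj_zero,
      map_cj_zero]
  · rw [show -(0 : ℤ) = 0 by norm_num, prs_zero, blk_map_cj, h5, map_cj_zero, map_cj_one]
  · rw [prs_neg_one, prs_one, blk_map_cj, h3, map_cj_zero, map_cj_zero]
  · rw [prs_neg_two, prs_two, blk_map_cj, h1, map_cj_zero, map_cj_zero]

lemma lt_col (o : s) {t : ℂ} (i : s ⊕ (m ⊕ n)) :
    lt 2 (prs D V s) t i (Sum.inl o) = if i = Sum.inl o then 1 else 0 := by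
  rw [lt_prs]
  rcases i with i | i | i <;> simp [blk, Matrix.one_apply]

end Build

end Run7.h38.KS
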