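import Pool.Agent.Run7.h38.KS.Raw2

/-!
# Construction of the Hodge structure from its three parts, end
-/

set_option linter.unusedSectionVars false

namespace Run7.h38.KS

open Matrix ComplexConjugate Pool.Agent.N996.BP Pool.Agent.N996.FP

variable {s m n : Type} [Fintype s] [DecidableEq s] [Fintype m] [DecidableEq m] [Fintype n]
    [DecidableEq n]

section Build

variable (D : KD m n) (V : VD n) (o : s) (hT : PosT D)

include hT in
/-- The Hodge structure. -/
theorem exists_H : ∃ H : HData (s ⊕ (m ⊕ n)), H.D.o = Sum.inl o ∧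
    H.Qr = blk 1 D.B V.Qv ∧ ∀ t : ℂ, H.l t = blk 1 (LT2 D t) (LV2 V t) := by
  obtain ⟨M, Mi, hM, hMS⟩ := exists_SS (s := s) D V hT
  refine ⟨{
    D := {
      Q := rq (QQ D V s)
      Qi := rq (QQi D V s)
      C := CC D V s
      Ci := blk 1 (CT D) (-CV V)
      M := M
      Mi := Mi
      o := Sum.inl o
      hQ := ?_
      hC := ?_
      hM := hM
      hS := ?_
      hCQ := ?_
      ho := ?_
      hCo := ?_ }
    Qr := QQ D V s
    Qir := QQi D V s
    w := 2
    π := prs D V s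
    hQr := rfl
    hQir := rfl
    h1 := ?_
    hmul := prs_mul D V
    hπQ := prs_Q D V
    hconj := prs_conj D V
    hC := CC_eq D V
    ho := fun t _ i => lt_col D V o i }, rfl, rfl, fun t => lt_prs D V⟩
  · rw [← rq_mul, QQ_mul, rq_one]
  · rw [CC, blk_mul, mul_one]
    have h1 : CT D * CT D = 1 := by
      apply cR_inj'
      rw [cR_mul, cR_CT, cR_one, LT2_mul D Complex.I_ne_zero Complex.I_ne_zero, Complex.I_mul_I,
        LT2]
      norm_num
    have h2 : CV V * -CV V = 1 := by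
      apply cR_inj'
      rw [cR_mul, cR_neg, cR_CV, cR_one, ← LV2_inv_I,
        LV2_mul V Complex.I_ne_zero (inv_ne_zero Complex.I_ne_zero),
        mul_inv_cancel₀ Complex.I_ne_zero, LV2_one]
    rw [h1, h2, blk_one]
  · rw [hMS, SS, CC, QQ, rq_blk, blk_mul, rq_one, mul_one]
  · apply cR_inj'
    rw [cR_mul, cR_mul, cR_rq, cR_t, CC_eq, lt_Q, Matrix.mul_assoc,
      lt_mul D V (inv_ne_zero Complex.I_ne_zero) Complex.I_ne_zero,
      inv_mul_cancel₀ Complex.I_ne_zero, lt_one', Matrix.mul_one]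
  · rw [QQ, rq, Matrix.map_apply, blk, Matrix.fromBlocks_apply₁₁, Matrix.one_apply_eq]
    simp
  · intro i
    have h1 := lt_col (s := s) D V o (t := Complex.I) i
    rw [← CC_eq, cR, Matrix.map_apply] at h1
    have h2 : ((CC D V s i (Sum.inl o) : ℝ) : ℂ) =
        (((if i = Sum.inl o then 1 else 0 : ℝ)) : ℂ) := by
      rw [h1]
      split_ifs <;> simp
    exact_mod_cast h2
  · have h1 := lt_one' (s := s) D V
    rw [lt] at h1
    simp only [_root_.one_zpow, one_smul] at h1
    exact h1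

include hT in
/-- The Hodge structure with its multiplication. -/
theorem exists_HK (hEκ : V.E * D.kap D.ω = D.kap D.ω) : ∃ A : HK s m n,
    A.H.D.o = Sum.inl o ∧ A.D = D ∧ A.Qs = 1 ∧ A.Qv = V.Qv ∧ A.E = V.E ∧
      ∀ t : ℂ, A.H.l t = blk 1 (LT2 D t) (LV2 V t) := by
  obtain ⟨H, h1, h2, h3⟩ := exists_H D V o hT
  have hβ := D.β_ne
  refine ⟨{
    H := H
    D := D
    Qs := 1
    Qv := V.Qv
    hQr := h2
    E := V.E
    hE := V.hE
    hEc := V.hEc
    hEκ := hEκ
    lS := ?_
    lω := ?_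
    lω' := ?_
    l0 := ?_
    lF := ?_
    lF' := ?_ }, h1, rfl, rfl, rfl, rfl, h3⟩
  · intro t _ x
    rw [h3, blk_iS, Matrix.one_mulVec]
  · intro t _
    rw [h3, blk_iT, ← iT_smul]
    congr 1
    rw [LT2, Matrix.add_mulVec, Matrix.add_mulVec, Matrix.one_mulVec, Matrix.smul_mulVec,
      Matrix.smul_mulVec, D.P1_vec, D.P2_vec, D.ω'ω, D.ωω, mul_zero, zero_smul, smul_zero,
      add_zero, inv_mul_cancel₀ hβ, one_smul, sub_smul, one_smul]
    abel
  · intro t _
    rw [h3, blk_iT, ← iT_smul]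
    congr 1
    have h4 : D.b D.ω (sv cj D.ω) = D.β := rfl
    rw [LT2, Matrix.add_mulVec, Matrix.add_mulVec, Matrix.one_mulVec, Matrix.smul_mulVec,
      Matrix.smul_mulVec, D.P1_vec, D.P2_vec, D.ω'ω', h4, mul_zero, zero_smul, smul_zero,
      add_zero, inv_mul_cancel₀ hβ, one_smul, sub_smul, one_smul]
    abel
  · intro t _ x hx hx'
    rw [h3, blk_iT]
    congr 1
    rw [LT2, Matrix.add_mulVec, Matrix.add_mulVec, Matrix.one_mulVec, Matrix.smul_mulVec,
      Matrix.smul_mulVec, D.P1_vec, D.P2_vec, hx, hx', mul_zero, zero_smul, zero_smul, smul_zero,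
      smul_zero, add_zero, add_zero]
  · intro t _ x hx
    rw [h3, blk_iV, ← iV_smul]
    congr 1
    rw [LV2, Matrix.add_mulVec, Matrix.smul_mulVec, Matrix.smul_mulVec, Matrix.sub_mulVec,
      Matrix.one_mulVec, hx, sub_self, smul_zero, add_zero]
  · intro t _ x hx
    rw [h3, blk_iV, ← iV_smul]
    congr 1
    rw [LV2, Matrix.add_mulVec, Matrix.smul_mulVec, Matrix.smul_mulVec, Matrix.sub_mulVec,
      Matrix.one_mulVec, hx, sub_zero, smul_zero, zero_add]

end Build

end Run7.h38.KS
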